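import Pool.Agent.Lib.MP_b76e55_an.Sp.Basic

/-!
A `K₄` minor of an edge contraction lifts to the graph.
-/

namespace Pool.Agent.Lib.MP_b76e55_an.Sp

namespace Contr

variable {M : Type} {G : SimpleGraph M} {u v : M}

/-- The lifted branch set. -/
def up (u v : M) (S : Set M) : Set M := {x | x ∈ S ∨ (x = v ∧ u ∈ S)}

theorem not_mem {S : Set M} (h : ((contr G u v).induce S).Connected) {x y : M} (hx : x ∈ S)
    (hxy : (contr G u v).Adj x y) : v ∉ S := by
  intro hv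
  obtain ⟨w⟩ := h.preconnected ⟨v, hv⟩ ⟨x, hx⟩
  cases hw : w with
  | nil => exact hxy.2.1 rfl
  | cons e _ => exact e.2.1 rfl

theorem reach_adj (huv : G.Adj u v) {S : Set M} {x y : M} (hx : x ∈ S) (hy : y ∈ S)
    (h : (contr G u v).Adj x y) :
    (G.induce (up u v S)).Reachable ⟨x, Or.inl hx⟩ ⟨y, Or.inl hy⟩ := by
  rcases h.2.2.2 with e | ⟨rfl, e⟩ | ⟨rfl, e⟩
  · exact SimpleGraph.Adj.reachable (by exact e)
  · refine SimpleGraph.Reachable.trans (v := ⟨v, Or.inr ⟨rfl, hx⟩⟩) ?_ ?_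
    · exact SimpleGraph.Adj.reachable (by exact huv)
    · exact SimpleGraph.Adj.reachable (by exact e)
  · refine SimpleGraph.Reachable.trans (v := ⟨v, Or.inr ⟨rfl, hy⟩⟩) ?_ ?_
    · exact SimpleGraph.Adj.reachable (by exact e.symm)
    · exact SimpleGraph.Adj.reachable (by exact huv.symm)

theorem reach (huv : G.Adj u v) {S : Set M} {x y : S}
    (h : ((contr G u v).induce S).Reachable x y) :
    (G.induce (up u v S)).Reachable ⟨x, Or.inl x.2⟩ ⟨y, Or.inl y.2⟩ := by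
  obtain ⟨w⟩ := h
  induction w with
  | nil => exact SimpleGraph.Reachable.refl _
  | @cons a b _ e _ ih => exact (reach_adj huv a.2 b.2 e).trans ih

theorem conn (huv : G.Adj u v) {S : Set M} (h : ((contr G u v).induce S).Connected) :
    (G.induce (up u v S)).Connected := by
  obtain ⟨z⟩ := h.nonempty
  have key : ∀ a : up u v S, (G.induce (up u v S)).Reachable a ⟨z, Or.inl z.2⟩ := by
    rintro ⟨a, ha | ⟨rfl, hu⟩⟩
    · exact reach huv (h.preconnected ⟨a, ha⟩ z)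
    · refine SimpleGraph.Reachable.trans (v := ⟨u, Or.inl hu⟩) ?_
        (reach huv (h.preconnected ⟨u, hu⟩ z))
      exact SimpleGraph.Adj.reachable (by exact huv.symm)
  have : Nonempty (up u v S) := ⟨⟨z, Or.inl z.2⟩⟩
  exact ⟨fun a b => (key a).trans (key b).symm⟩

end Contr

theorem contr_stmt : ContrStmt := by
  rintro M G u v huv ⟨B, hc, hd⟩
  have hv : ∀ i, v ∉ B i := fun i => by
    obtain ⟨j, hj⟩ := exists_ne i
    obtain ⟨-, x, hx, y, -, e⟩ := hd i j hj.symm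
    exact Contr.not_mem (hc i) hx e
  refine ⟨fun i => Contr.up u v (B i), fun i => Contr.conn huv (hc i), fun i j hij => ?_⟩
  obtain ⟨hdis, x, hx, y, hy, e⟩ := hd i j hij
  refine ⟨Set.disjoint_left.2 ?_, ?_⟩
  · rintro a (ha | ⟨rfl, ha⟩) (hb | ⟨hb', hb⟩)
    · exact Set.disjoint_left.1 hdis ha hb
    · exact hv i (hb' ▸ ha)
    · exact hv j hb
    · exact Set.disjoint_left.1 hdis ha hb
  · rcases e.2.2.2 with e' | ⟨h1, e'⟩ | ⟨h1, e'⟩
    · exact ⟨x, Or.inl hx, y, Or.inl hy, e'⟩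
    · exact ⟨v, Or.inr ⟨rfl, h1 ▸ hx⟩, y, Or.inl hy, e'⟩
    · exact ⟨x, Or.inl hx, v, Or.inr ⟨rfl, h1 ▸ hy⟩, e'.symm⟩

end Pool.Agent.Lib.MP_b76e55_an.Sp
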