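import Pool.Agent.Lib.MP_b76e55_an.Sp.Basic

/-!
A finite graph with an edge whose non-isolated vertices have degree at least three has a `K₄` minor.
-/

namespace Pool.Agent.Lib.MP_b76e55_an.Sp

namespace Dirac

variable {M : Type} [Finite M]

lemma three {N : Set M} {a b c : M} (ha : a ∈ N) (hb : b ∈ N) (hc : c ∈ N) (h1 : a ≠ b)
    (h2 : a ≠ c) (h3 : b ≠ c) : 3 ≤ N.ncard :=
  (Set.two_lt_ncard_iff (Set.toFinite N)).2 ⟨a, b, c, ha, hb, hc, h1, h2, h3⟩

lemma sub3 {N : Set M} {a b c d : M} (h : N.ncard ≤ 3) (ha : a ∈ N) (hb : b ∈ N) (hc : c ∈ N)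
    (h1 : a ≠ b) (h2 : a ≠ c) (h3 : b ≠ c) (hd : d ∈ N) : d = a ∨ d = b ∨ d = c := by
  have e : ({a, b, c} : Set M) = N := Set.eq_of_subset_of_ncard_le
    (by rintro x (rfl | rfl | rfl) <;> assumption)
    (h.trans (Set.ncard_eq_three.2 ⟨a, b, c, h1, h2, h3, rfl⟩).ge)
  rw [← e] at hd
  exact hd

lemma le3 {N : Set M} {a b c : M} (h : ∀ d ∈ N, d = a ∨ d = b ∨ d = c) : N.ncard ≤ 3 :=
  (Set.ncard_le_ncard (t := {a, b, c}) h).trans ((Set.ncard_insert_le _ _).trans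
    (Nat.succ_le_succ ((Set.ncard_insert_le _ _).trans (by rw [Set.ncard_singleton]))))

lemma two1 {N : Set M} (h : 3 ≤ N.ncard) (p : M) :
    ∃ d e, d ∈ N ∧ e ∈ N ∧ d ≠ e ∧ d ≠ p ∧ e ≠ p := by
  have h1 := Set.ncard_le_ncard_diff_add_ncard N {p}
  rw [Set.ncard_singleton] at h1
  obtain ⟨d, e, hd, he, hn⟩ := (Set.one_lt_ncard_iff (Set.toFinite (N \ {p}))).1 (by omega)
  exact ⟨d, e, hd.1, he.1, hn, hd.2, he.2⟩

lemma two2 {N : Set M} (h : 4 ≤ N.ncard) (p q : M) :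
    ∃ d e, d ∈ N ∧ e ∈ N ∧ d ≠ e ∧ d ≠ p ∧ e ≠ p ∧ d ≠ q ∧ e ≠ q := by
  have h1 := Set.ncard_le_ncard_diff_add_ncard N {p}
  rw [Set.ncard_singleton] at h1
  obtain ⟨d, e, hd, he, hn, a, b⟩ := two1 (N := N \ {p}) (by omega) q
  exact ⟨d, e, hd.1, he.1, hn, hd.2, he.2, a, b⟩

/-- All non-isolated vertices have degree at least three. -/
def Min3 (G : SimpleGraph M) : Prop := ∀ x y, G.Adj x y → 3 ≤ (G.neighborSet x).ncard

variable {G : SimpleGraph M}

omit [Finite M] in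
lemma supp {u v : M} (h : G.Adj u v) {x y : M} (e : (contr G u v).Adj x y) :
    x ≠ v ∧ ∃ z, G.Adj x z := by
  obtain ⟨-, h1, -, h2 | ⟨rfl, -⟩ | ⟨-, h2⟩⟩ := e
  exacts [⟨h1, y, h2⟩, ⟨h1, v, h⟩, ⟨h1, v, h2.symm⟩]

lemma supp_lt {u v : M} (h : G.Adj u v) : (contr G u v).support.ncard < G.support.ncard :=
  Set.ncard_lt_ncard ⟨fun _ ⟨_, e⟩ => (supp h e).2,
    fun hs => (hs ⟨u, h.symm⟩).elim fun _ e => (supp h e).1 rfl⟩

omit [Finite M] in
lemma k4 (f : Fin 4 → M) (h : ∀ i j, i ≠ j → G.Adj (f i) (f j)) : K4 G :=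
  ⟨fun i => {f i}, fun _ => ⟨fun x y => by rw [Subsingleton.elim x y]⟩, fun i j hij =>
    ⟨Set.disjoint_singleton.2 (h i j hij).ne, _, rfl, _, rfl, h i j hij⟩⟩

/-- An edge whose contraction lowers the minimum degree. -/
lemma star (hG : Min3 G) {u v : M} (h : G.Adj u v) (hn : ¬ Min3 (contr G u v)) :
    ∃ w, G.Adj u w ∧ G.Adj v w ∧ ((G.neighborSet w).ncard ≤ 3 ∨
      ((G.neighborSet u).ncard ≤ 3 ∧ ∃ w', w' ≠ w ∧ G.Adj u w' ∧ G.Adj v w')) := by
  obtain ⟨w, y, e, hw⟩ : ∃ w y, (contr G u v).Adj w y ∧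
      ¬ 3 ≤ ((contr G u v).neighborSet w).ncard := by
    by_contra h0
    exact hn fun x y e => by_contra fun h1 => h0 ⟨x, y, e, h1⟩
  obtain ⟨wv, z, hz⟩ := supp h e
  by_cases wu : w = u
  · subst wu
    obtain ⟨p, q, hp, hq, pq, pv, qv⟩ := two1 (hG w v h) v
    have k1 : ∀ r, G.Adj w r → r ≠ v → r ∈ (contr G w v).neighborSet w := fun r a b =>
      ⟨a.ne, wv, b, Or.inl a⟩
    have k2 : ∀ r ∈ (contr G w v).neighborSet w, r = p ∨ r = q := fun r hr => by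
      by_contra h0
      obtain ⟨a, b⟩ := not_or.1 h0
      exact hw (three (k1 p hp pv) (k1 q hq qv) hr pq (Ne.symm a) (Ne.symm b))
    obtain ⟨r, s, hr, hs, rs, rw', sw⟩ := two1 (hG v w h.symm) w
    have k3 : ∀ r, G.Adj v r → r ≠ w → r = p ∨ r = q := fun r a b =>
      k2 r ⟨b.symm, wv, a.ne', Or.inr (Or.inl ⟨rfl, a⟩)⟩
    have k4 : G.Adj v p ∧ G.Adj v q := by
      rcases k3 r hr rw' with rfl | rfl <;> rcases k3 s hs sw with rfl | rfl
      exacts [(rs rfl).elim, ⟨hr, hs⟩, ⟨hs, hr⟩, (rs rfl).elim]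
    refine ⟨p, hp, k4.1, Or.inr ⟨le3 (a := v) (b := p) (c := q) fun d hd => ?_, q, pq.symm, hq,
      k4.2⟩⟩
    exact (em (d = v)).imp_right fun a => k2 d (k1 d hd a)
  · have k1 : ∀ r, G.Adj w r → r ≠ v → r ∈ (contr G u v).neighborSet w := fun r a b =>
      ⟨a.ne, wv, b, Or.inl a⟩
    have k2 : G.Adj v w := by_contra fun h0 => hw ((hG w z hz).trans (Set.ncard_le_ncard
      fun r hr => k1 r hr fun b => h0 (b ▸ hr.symm)))
    have k3 : G.Adj u w := by_contra fun h0 => by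
      obtain ⟨p, q, hp, hq, pq, pv, qv⟩ := two1 (hG w z hz) v
      exact hw (three (c := u) (k1 p hp pv) (k1 q hq qv) ⟨wu, wv, h.ne, Or.inr (Or.inr ⟨rfl, k2⟩)⟩
        pq (fun b => h0 (b ▸ hp.symm)) fun b => h0 (b ▸ hq.symm))
    refine ⟨w, k3, k2, Or.inl ?_⟩
    have k4 := Set.ncard_le_ncard_diff_add_ncard (G.neighborSet w) {v}
    have k5 : (G.neighborSet w \ {v}).ncard ≤ ((contr G u v).neighborSet w).ncard :=
      Set.ncard_le_ncard fun r hr => k1 r hr.1 hr.2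
    rw [Set.ncard_singleton] at k4
    omega

lemma big (hG : Min3 G) (tri : ∀ x y, G.Adj x y → ∃ z, G.Adj x z ∧ G.Adj y z) {v a b c : M}
    (va : G.Adj v a) (vb : G.Adj v b) (ab : G.Adj a b) (ac : ¬ G.Adj a c)
    (hv : ∀ d, G.Adj v d → d = a ∨ d = b ∨ d = c) (hb : ∀ d, G.Adj b d → d = v ∨ d = a ∨ d = c) :
    4 ≤ (G.neighborSet a).ncard := by
  by_contra h0
  obtain ⟨d, ad, dv, db⟩ : ∃ d, G.Adj a d ∧ d ≠ v ∧ d ≠ b := by
    obtain ⟨p, q, hp, hq, pq, pv, qv⟩ := two1 (hG a b ab) v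
    by_cases e : p = b
    · exact ⟨q, hq, qv, fun e' => pq (e.trans e'.symm)⟩
    · exact ⟨p, hp, pv, e⟩
  obtain ⟨z, az, dz⟩ := tri a d ad
  rcases sub3 (N := G.neighborSet a) (by omega) va.symm ab ad vb.ne dv.symm db.symm az with
    rfl | rfl | rfl
  · rcases hv d dz.symm with rfl | rfl | rfl
    exacts [ad.ne rfl, db rfl, ac ad]
  · rcases hb d dz.symm with rfl | rfl | rfl
    exacts [dv rfl, ad.ne rfl, ac ad]
  · exact dz.ne rfl

lemma core (hc : ContrStmt) (hG : Min3 G) (hn : ∀ u v, G.Adj u v → ¬ Min3 (contr G u v))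
    (ih : ∀ G' : SimpleGraph M, G'.support.ncard < G.support.ncard → (∃ x y, G'.Adj x y) →
      Min3 G' → K4 G') {v a b c : M} (va : G.Adj v a) (vb : G.Adj v b) (vc : G.Adj v c)
    (ab : G.Adj a b) (bc : G.Adj b c) (hac : a ≠ c)
    (hv : ∀ d, G.Adj v d → d = a ∨ d = b ∨ d = c) : K4 G := by
  by_cases ac : G.Adj a c
  · refine k4 ![v, a, b, c] fun i j hij => ?_
    have := va.symm
    have := vb.symm
    have := vc.symm
    have := ab.symm
    have := bc.symm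
    have := ac.symm
    fin_cases i <;> fin_cases j <;> first | exact (hij rfl).elim | assumption
  have tri : ∀ x y, G.Adj x y → ∃ z, G.Adj x z ∧ G.Adj y z := fun x y e =>
    (star hG e (hn x y e)).imp fun z hz => ⟨hz.1, hz.2.1⟩
  have only : ∀ w, G.Adj v w → G.Adj a w → w = b := fun w h1 h2 => by
    rcases hv w h1 with rfl | rfl | rfl
    exacts [(h2.ne rfl).elim, rfl, (ac h2).elim]
  have hb3 : (G.neighborSet b).ncard ≤ 3 := by
    obtain ⟨w, w1, w2, h | ⟨-, w', h0, h1, h2⟩⟩ := star hG va (hn v a va)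
    · exact only w w1 w2 ▸ h
    · exact (h0 ((only w' h1 h2).trans (only w w1 w2).symm)).elim
  have hb : ∀ d, G.Adj b d → d = v ∨ d = a ∨ d = c := fun d hd =>
    sub3 hb3 vb.symm ab.symm bc va.ne vc.ne hac hd
  have ha4 := big hG tri va vb ab ac hv hb
  have hc4 := big hG tri vc vb bc.symm (fun h => ac h.symm) (fun d hd => by
    rcases hv d hd with h | h | h <;> simp only [h, true_or, or_true]) fun d hd => by
    rcases hb d hd with h | h | h <;> simp only [h, true_or, or_true]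
  have e1 : (contr G a v).Adj a b := ⟨ab.ne, va.ne', vb.ne', Or.inl ab⟩
  have e2 : (contr (contr G a v) a b).Adj a c :=
    ⟨hac, ab.ne, bc.ne', Or.inr (Or.inl ⟨rfl, bc.ne, vb.ne', vc.ne', Or.inl bc⟩)⟩
  refine hc M G a v va.symm (hc M _ a b e1 (ih _ ((supp_lt e1).trans (supp_lt va.symm))
    ⟨a, c, e2⟩ fun x y e => ?_))
  obtain ⟨xb, y', e'⟩ := supp e1 e
  obtain ⟨xv, z, hz⟩ := supp va.symm e'
  have k : ∀ r, G.Adj x r → r ≠ v → r ≠ b → r ∈ (contr (contr G a v) a b).neighborSet x :=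
    fun r h1 h2 h3 => ⟨h1.ne, xb, h3, Or.inl ⟨h1.ne, xv, h2, Or.inl h1⟩⟩
  by_cases xa : x = a
  · subst xa
    obtain ⟨d, d', h1, h2, h3, h4, h5, h6, h7⟩ := two2 ha4 v b
    exact three (k d h1 h4 h6) (k d' h2 h5 h7) e2 h3 (fun e => ac (e ▸ h1)) fun e => ac (e ▸ h2)
  by_cases xc : x = c
  · subst xc
    obtain ⟨d, d', h1, h2, h3, h4, h5, h6, h7⟩ := two2 hc4 v b
    exact three (k d h1 h4 h6) (k d' h2 h5 h7) e2.symm h3 (fun e => ac (e ▸ h1.symm))
      fun e => ac (e ▸ h2.symm)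
  refine (hG x z hz).trans (Set.ncard_le_ncard fun r hr => k r hr ?_ ?_)
  · rintro rfl
    rcases hv x hr.symm with h | h | h
    exacts [xa h, xb h, xc h]
  · rintro rfl
    rcases hb x hr.symm with h | h | h
    exacts [xv h, xa h, xc h]

lemma main (hc : ContrStmt) (n : ℕ) : ∀ G : SimpleGraph M, G.support.ncard = n →
    (∃ x y, G.Adj x y) → Min3 G → K4 G := by
  induction n using Nat.strong_induction_on with
  | _ n ih =>
    rintro G rfl ⟨x, y, e⟩ hG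
    have ih' : ∀ G' : SimpleGraph M, G'.support.ncard < G.support.ncard → (∃ x y, G'.Adj x y) →
        Min3 G' → K4 G' := fun G' h => ih _ h G' rfl
    by_contra h0
    have hn : ∀ u v, G.Adj u v → ¬ Min3 (contr G u v) := fun u v h h1 => by
      obtain ⟨p, -, hp, -, -, pv, -⟩ := two1 (hG u v h) v
      exact h0 (hc M G u v h (ih' _ (supp_lt h) ⟨u, p, hp.ne, h.ne, pv, Or.inl hp⟩ h1))
    obtain ⟨v, v3⟩ : ∃ v, (G.neighborSet v).ncard = 3 := by
      obtain ⟨w, w1, -, h | h⟩ := star hG e (hn x y e)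
      exacts [⟨w, le_antisymm h (hG w x w1.symm)⟩, ⟨x, le_antisymm h.1 (hG x y e)⟩]
    obtain ⟨a, b, c, ab, ac, bc, hv⟩ := Set.ncard_eq_three.1 v3
    have hv' : ∀ d, G.Adj v d ↔ d = a ∨ d = b ∨ d = c := fun d => Set.ext_iff.1 hv d
    have va := (hv' a).2 (Or.inl rfl)
    have vb := (hv' b).2 (Or.inr (Or.inl rfl))
    have vc := (hv' c).2 (Or.inr (Or.inr rfl))
    have tri : ∀ t, G.Adj v t → G.Adj t a ∨ G.Adj t b ∨ G.Adj t c := fun t ht => by
      obtain ⟨z, z1, z2, -⟩ := star hG ht (hn v t ht)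
      rcases (hv' z).1 z1 with rfl | rfl | rfl <;> simp only [z2, true_or, or_true]
    have pa : G.Adj b a → G.Adj a c → False := fun h1 h2 => h0 (core hc hG hn ih' vb va vc h1 h2 bc
      fun d hd => by rcases (hv' d).1 hd with h | h | h <;> simp only [h, true_or, or_true])
    have pb : G.Adj a b → G.Adj b c → False := fun h1 h2 => h0 (core hc hG hn ih' va vb vc h1 h2 ac
      fun d hd => (hv' d).1 hd)
    have pc : G.Adj a c → G.Adj c b → False := fun h1 h2 => h0 (core hc hG hn ih' va vc vb h1 h2 ab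
      fun d hd => by rcases (hv' d).1 hd with h | h | h <;> simp only [h, true_or, or_true])
    rcases tri a va with h | h | h
    · exact h.ne rfl
    · rcases tri c vc with h' | h' | h'
      exacts [pa h.symm h'.symm, pb h h'.symm, h'.ne rfl]
    · rcases tri b vb with h' | h' | h'
      exacts [pa h' h, h'.ne rfl, pc h h'.symm]

end Dirac

theorem dirac_stmt (h : ContrStmt) : DiracStmt := fun _ _ G he hG => Dirac.main h _ G rfl he hG

end Pool.Agent.Lib.MP_b76e55_an.Sp
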