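import Pool.Agent.Lib.MP_b76e55_an.Sp.Basic

/-!
Gluing two tree metrics along a pair of points.
-/

namespace Pool.Agent.Lib.MP_b76e55_an.Sp

namespace Glue

variable {M : Type}

/-- A tree pseudometric on `V`. -/
structure PT (V : Finset M) (σ : M → M → ℝ) : Prop where
  zero : ∀ x ∈ V, σ x x = 0
  symm : ∀ x ∈ V, ∀ y ∈ V, σ x y = σ y x
  four : ∀ x ∈ V, ∀ y ∈ V, ∀ z ∈ V, ∀ u ∈ V,
    σ x y + σ z u ≤ max (σ x z + σ y u) (σ x u + σ y z)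

theorem PT.tri {V : Finset M} {σ : M → M → ℝ} (h : PT V σ) {x y z : M} (hx : x ∈ V) (hy : y ∈ V)
    (hz : z ∈ V) : σ x y ≤ σ x z + σ y z := by
  have := h.four x hx y hy z hz z hz
  rw [h.zero z hz, max_self] at this
  linarith

theorem PT.nonneg {V : Finset M} {σ : M → M → ℝ} (h : PT V σ) {x y : M} (hx : x ∈ V)
    (hy : y ∈ V) : 0 ≤ σ x y := by
  have := h.tri hx hx hy
  rw [h.zero x hx] at this
  linarith

theorem PT.pull {V W : Finset M} {σ : M → M → ℝ} (h : PT W σ) (f : M → M)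
    (hf : ∀ x ∈ V, f x ∈ W) : PT V fun x y => σ (f x) (f y) :=
  ⟨fun x hx => h.zero _ (hf x hx), fun x hx y hy => h.symm _ (hf x hx) _ (hf y hy),
    fun x hx y hy z hz u hu => h.four _ (hf x hx) _ (hf y hy) _ (hf z hz) _ (hf u hu)⟩

theorem PT.at_zero {V : Finset M} {σ : M → M → ℝ} (h : PT V σ) {o x y : M} (ho : o ∈ V)
    (hx : x ∈ V) (hy : y ∈ V) :
    (σ x o = 0 → σ x y = σ y o) ∧ (σ y o = 0 → σ x y = σ x o) := by
  have h1 := h.tri hx hy ho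
  have h2 := h.tri hy ho hx
  have h3 := h.tri hx ho hy
  have h4 := h.symm x hx y hy
  have h5 := h.symm x hx o ho
  have h6 := h.symm y hy o ho
  constructor <;> intro h0 <;> linarith

theorem real_one {xy xz xu yz yu zu x y z u xy' xz' xu' yz' yu' zu' x' y' z' u' : ℝ}
    (f : xy + zu ≤ max (xz + yu) (xu + yz)) (f' : xy' + zu' ≤ max (xz' + yu') (xu' + yz'))
    (a1 : (x = 0 → xy = y) ∧ (y = 0 → xy = x)) (a2 : (x = 0 → xz = z) ∧ (z = 0 → xz = x))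
    (a3 : (x = 0 → xu = u) ∧ (u = 0 → xu = x)) (a4 : (y = 0 → yz = z) ∧ (z = 0 → yz = y))
    (a5 : (y = 0 → yu = u) ∧ (u = 0 → yu = y)) (a6 : (z = 0 → zu = u) ∧ (u = 0 → zu = z))
    (b1 : (x' = 0 → xy' = y') ∧ (y' = 0 → xy' = x'))
    (b2 : (x' = 0 → xz' = z') ∧ (z' = 0 → xz' = x'))
    (b3 : (x' = 0 → xu' = u') ∧ (u' = 0 → xu' = x'))
    (b4 : (y' = 0 → yz' = z') ∧ (z' = 0 → yz' = y'))
    (b5 : (y' = 0 → yu' = u') ∧ (u' = 0 → yu' = y'))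
    (b6 : (z' = 0 → zu' = u') ∧ (u' = 0 → zu' = z'))
    (hx : x = 0 ∨ x' = 0) (hy : y = 0 ∨ y' = 0) (hz : z = 0 ∨ z' = 0) (hu : u = 0 ∨ u' = 0) :
    xy + xy' + (zu + zu') ≤ max (xz + xz' + (yu + yu')) (xu + xu' + (yz + yz')) := by
  have ex : (xy = y ∧ xz = z ∧ xu = u ∧ x = 0) ∨ (xy' = y' ∧ xz' = z' ∧ xu' = u' ∧ x' = 0) :=
    hx.imp (fun h => ⟨a1.1 h, a2.1 h, a3.1 h, h⟩) fun h => ⟨b1.1 h, b2.1 h, b3.1 h, h⟩
  have ey : (xy = x ∧ yz = z ∧ yu = u ∧ y = 0) ∨ (xy' = x' ∧ yz' = z' ∧ yu' = u' ∧ y' = 0) :=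
    hy.imp (fun h => ⟨a1.2 h, a4.1 h, a5.1 h, h⟩) fun h => ⟨b1.2 h, b4.1 h, b5.1 h, h⟩
  have ez : (xz = x ∧ yz = y ∧ zu = u ∧ z = 0) ∨ (xz' = x' ∧ yz' = y' ∧ zu' = u' ∧ z' = 0) :=
    hz.imp (fun h => ⟨a2.2 h, a4.2 h, a6.1 h, h⟩) fun h => ⟨b2.2 h, b4.2 h, b6.1 h, h⟩
  have eu : (xu = x ∧ yu = y ∧ zu = z ∧ u = 0) ∨ (xu' = x' ∧ yu' = y' ∧ zu' = z' ∧ u' = 0) :=
    hu.imp (fun h => ⟨a3.2 h, a5.2 h, a6.2 h, h⟩) fun h => ⟨b3.2 h, b5.2 h, b6.2 h, h⟩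
  clear a1 a2 a3 a4 a5 a6 b1 b2 b3 b4 b5 b6 hx hy hz hu
  rw [le_max_iff] at f f' ⊢
  rcases ex with ⟨_, _, _, _⟩ | ⟨_, _, _, _⟩ <;> rcases ey with ⟨_, _, _, _⟩ | ⟨_, _, _, _⟩ <;>
    rcases ez with ⟨_, _, _, _⟩ | ⟨_, _, _, _⟩ <;> rcases eu with ⟨_, _, _, _⟩ | ⟨_, _, _, _⟩ <;>
    rcases f with f | f <;> rcases f' with f' | f' <;>
    first
      | (left; linarith)
      | (right; linarith)

theorem PT.one {V : Finset M} {σ τ : M → M → ℝ} (h : PT V σ) (k : PT V τ) {o : M} (ho : o ∈ V)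
    (e : ∀ x ∈ V, σ x o = 0 ∨ τ x o = 0) : PT V fun x y => σ x y + τ x y := by
  refine ⟨fun x hx => by simp only [h.zero x hx, k.zero x hx, add_zero],
    fun x hx y hy => by simp only [h.symm x hx y hy, k.symm x hx y hy],
    fun x hx y hy z hz u hu => ?_⟩
  exact real_one (h.four x hx y hy z hz u hu) (k.four x hx y hy z hz u hu)
    (h.at_zero ho hx hy) (h.at_zero ho hx hz) (h.at_zero ho hx hu) (h.at_zero ho hy hz)
    (h.at_zero ho hy hu) (h.at_zero ho hz hu)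
    (k.at_zero ho hx hy) (k.at_zero ho hx hz) (k.at_zero ho hx hu) (k.at_zero ho hy hz)
    (k.at_zero ho hy hu) (k.at_zero ho hz hu) (e x hx) (e y hy) (e z hz) (e u hu)

theorem PT.cross {V : Finset M} {σ : M → M → ℝ} (h : PT V σ) {a b x y : M} (ha : a ∈ V)
    (hb : b ∈ V) (hx : x ∈ V) (hy : y ∈ V) (px : σ x b = σ x a + σ a b)
    (qy : σ y a = σ y b + σ a b) (ny : y = b ∨ ¬ σ y b = σ y a + σ a b) :
    σ x y = σ a b + σ x a + σ b y := by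
  rcases ny with rfl | ny
  · rw [h.zero _ hb]; linarith
  have d0 := h.nonneg ha hb
  have dpos : 0 < σ a b := by
    rcases d0.lt_or_eq with d | d
    · exact d
    · exact absurd (by linarith) ny
  have f := h.four x hx b hb y hy a ha
  have t1 := h.tri hx hy ha
  have s1 := h.symm y hy b hb
  have s2 := h.symm a ha b hb
  rcases le_max_iff.1 f with f | f <;> linarith

end Glue

open Glue in
theorem glue_stmt : GlueStmt := by
  classical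
  intro M _ _ V₁ V₂ ρ₁ ρ₂ a b h1 h2 a1 b1 a2 b2 hi hab hang
  have p1 : PT V₁ ρ₁ := ⟨h1.zero, h1.symm, h1.four⟩
  have p2 : PT V₂ ρ₂ := ⟨h2.zero, h2.symm, h2.four⟩
  let P : M → Prop := fun y => ρ₂ y b = ρ₂ y a + ρ₂ a b
  let r : M → M := fun x => if x ∈ V₁ then x else if P x then a else b
  let ra : M → M := fun x => if x ∉ V₁ ∧ P x then x else a
  let rb : M → M := fun x => if x ∉ V₁ ∧ ¬ P x then x else b
  have c1 : ∀ x ∈ V₁, r x = x ∧ ra x = a ∧ rb x = b := fun x hx => by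
    simp [r, ra, rb, hx]
  have ca : ∀ x, x ∉ V₁ → P x → r x = a ∧ ra x = x ∧ rb x = b := fun x hx px => by
    simp [r, ra, rb, hx, px]
  have cb : ∀ x, x ∉ V₁ → ¬ P x → r x = b ∧ ra x = a ∧ rb x = x := fun x hx px => by
    simp [r, ra, rb, hx, px]
  have tri : ∀ x ∈ V₁ ∪ V₂, (x ∈ V₁ ∧ r x = x ∧ ra x = a ∧ rb x = b) ∨
      (x ∈ V₂ ∧ r x = a ∧ ra x = x ∧ rb x = b) ∨ (x ∈ V₂ ∧ r x = b ∧ ra x = a ∧ rb x = x) := by
    intro x hx
    by_cases hx1 : x ∈ V₁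
    · exact Or.inl ⟨hx1, c1 x hx1⟩
    have hx2 : x ∈ V₂ := (Finset.mem_union.1 hx).resolve_left hx1
    by_cases px : P x
    · exact Or.inr (Or.inl ⟨hx2, ca x hx1 px⟩)
    · exact Or.inr (Or.inr ⟨hx2, cb x hx1 px⟩)
  have typ : ∀ x ∈ V₂, (r x = a ∧ ra x = x ∧ rb x = b ∧ P x) ∨
      (r x = b ∧ ra x = a ∧ rb x = x ∧ ρ₂ x a = ρ₂ x b + ρ₂ a b ∧ (x = b ∨ ¬ P x)) := by
    intro x hx2
    by_cases hx1 : x ∈ V₁
    · obtain ⟨e1, e2, e3⟩ := c1 x hx1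
      rcases hi x hx1 hx2 with e | e
      · refine Or.inl ⟨e1.trans e, e2.trans e.symm, e3, ?_⟩
        show ρ₂ x b = ρ₂ x a + ρ₂ a b
        rw [e, h2.zero a a2, zero_add]
      · refine Or.inr ⟨e1.trans e, e2, e3.trans e.symm, ?_, Or.inl e⟩
        rw [e, h2.zero b b2, zero_add, h2.symm a a2 b b2]
    by_cases px : P x
    · obtain ⟨e1, e2, e3⟩ := ca x hx1 px
      exact Or.inl ⟨e1, e2, e3, px⟩
    · obtain ⟨e1, e2, e3⟩ := cb x hx1 px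
      exact Or.inr ⟨e1, e2, e3, (hang x hx2).resolve_left px, Or.inr px⟩
  have q1 : PT (V₁ ∪ V₂) fun x y => ρ₁ (r x) (r y) := p1.pull r fun x hx => by
    rcases tri x hx with ⟨h, e, -, -⟩ | ⟨-, e, -, -⟩ | ⟨-, e, -, -⟩ <;> rw [e] <;> assumption
  have qa : PT (V₁ ∪ V₂) fun x y => ρ₂ (ra x) (ra y) := p2.pull ra fun x hx => by
    rcases tri x hx with ⟨-, -, e, -⟩ | ⟨h, -, e, -⟩ | ⟨-, -, e, -⟩ <;> rw [e] <;> assumption
  have qb : PT (V₁ ∪ V₂) fun x y => ρ₂ (rb x) (rb y) := p2.pull rb fun x hx => by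
    rcases tri x hx with ⟨-, -, -, e⟩ | ⟨-, -, -, e⟩ | ⟨h, -, -, e⟩ <;> rw [e] <;> assumption
  obtain ⟨aa1, aa2, aa3⟩ := c1 a a1
  obtain ⟨bb1, bb2, bb3⟩ := c1 b b1
  have z1a := h1.zero a a1
  have z1b := h1.zero b b1
  have z2a := h2.zero a a2
  have z2b := h2.zero b b2
  have q2 := q1.one qa (Finset.mem_union_left V₂ a1) fun x hx => by
    rcases tri x hx with ⟨-, e1, e2, e3⟩ | ⟨-, e1, e2, e3⟩ | ⟨-, e1, e2, e3⟩
    · right; simp only [e2, aa2, z2a]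
    · left; simp only [e1, aa1, z1a]
    · right; simp only [e2, aa2, z2a]
  have q3 := q2.one qb (Finset.mem_union_left V₂ b1) fun x hx => by
    rcases tri x hx with ⟨-, e1, e2, e3⟩ | ⟨-, e1, e2, e3⟩ | ⟨-, e1, e2, e3⟩
    · right; simp only [e3, bb3, z2b]
    · right; simp only [e3, bb3, z2b]
    · left; simp only [e1, e2, bb1, bb2, z1b, z2a, add_zero]
  let ρ : M → M → ℝ := fun x y => ρ₁ (r x) (r y) + ρ₂ (ra x) (ra y) + ρ₂ (rb x) (rb y)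
  have q : PT (V₁ ∪ V₂) ρ := q3
  have f1 : ∀ x ∈ V₁, ∀ y ∈ V₁, ρ x y = ρ₁ x y := by
    intro x hx y hy
    obtain ⟨e1, e2, e3⟩ := c1 x hx
    obtain ⟨g1, g2, g3⟩ := c1 y hy
    simp only [ρ, e1, e2, e3, g1, g2, g3, z2a, z2b, add_zero]
  have f2 : ∀ x ∈ V₂, ∀ y ∈ V₂, ρ x y = ρ₂ x y := by
    intro x hx y hy
    rcases typ x hx with ⟨e1, e2, e3, px⟩ | ⟨e1, e2, e3, qx, nx⟩ <;>
      rcases typ y hy with ⟨g1, g2, g3, py⟩ | ⟨g1, g2, g3, qy, ny⟩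
    · simp only [ρ, e1, e2, e3, g1, g2, g3, z1a, z2b, add_zero, zero_add]
    · simp only [ρ, e1, e2, e3, g1, g2, g3]
      rw [p2.cross a2 b2 hx hy px qy ny, hab]
    · simp only [ρ, e1, e2, e3, g1, g2, g3]
      rw [h2.symm x hx y hy, p2.cross a2 b2 hy hx py qx nx, h1.symm b b1 a a1, hab,
        h2.symm a a2 y hy, h2.symm x hx b b2]
    · simp only [ρ, e1, e2, e3, g1, g2, g3, z1b, z2a, add_zero, zero_add]
  have f3 : ∀ y ∈ V₂,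
      (∀ x ∈ V₁, ρ y x = ρ₂ y a + ρ₁ a x) ∨ (∀ x ∈ V₁, ρ y x = ρ₂ y b + ρ₁ b x) := by
    intro y hy
    rcases typ y hy with ⟨g1, g2, g3, -⟩ | ⟨g1, g2, g3, -⟩
    · left
      intro x hx
      obtain ⟨e1, e2, e3⟩ := c1 x hx
      simp only [ρ, e1, e2, e3, g1, g2, g3, z2b]
      ring
    · right
      intro x hx
      obtain ⟨e1, e2, e3⟩ := c1 x hx
      simp only [ρ, e1, e2, e3, g1, g2, g3, z2a]
      ring
  have f4 : ∀ y ∈ V₂, ∀ x ∈ V₁, dist y x ≤ ρ y x := by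
    intro y hy x hx
    rcases f3 y hy with e | e
    · rw [e x hx]
      exact (dist_triangle y a x).trans (add_le_add (h2.dom y hy a a2) (h1.dom a a1 x hx))
    · rw [e x hx]
      exact (dist_triangle y b x).trans (add_le_add (h2.dom y hy b b2) (h1.dom b b1 x hx))
  refine ⟨ρ, ⟨q.zero, q.symm, q.four, ?_⟩, f1, f2, f3⟩
  intro x hx y hy
  have hx' := hx
  have hy' := hy
  rcases Finset.mem_union.1 hx with hx | hx <;> rcases Finset.mem_union.1 hy with hy | hy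
  · rw [f1 x hx y hy]; exact h1.dom x hx y hy
  · rw [q.symm x hx' y hy', dist_comm]; exact f4 y hy x hx
  · exact f4 x hx y hy
  · rw [f2 x hx y hy]; exact h2.dom x hx y hy

end Pool.Agent.Lib.MP_b76e55_an.Sp
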