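import Pool.Agent.Lib.MP_b76e55_an.Sp.Basic

/-!
The height function along a network and the parabolic test function built from it.
-/

namespace Pool.Agent.Lib.MP_b76e55_an.Sp

open Finset

namespace Height

open Net

theorem key {Λ z h : ℝ} (h0 : 0 ≤ h) (h1 : z + h ≤ Λ) :
    (Λ * (z + h) ^ 2 / 2 - (z + h) ^ 3 / 3) - (Λ * z ^ 2 / 2 - z ^ 3 / 3) - Λ * h ^ 2 / 2 ≤
      h * ((z + h) * (Λ - (z + h))) := by
  have e1 := mul_nonneg (sq_nonneg h) (sub_nonneg.2 h1)
  have e2 := pow_nonneg h0 3
  nlinarith

theorem mix {a b E Λ p q x y : ℝ} (ha : 0 < a) (hb : 0 < b) (h1 : E - Λ * p / 2 ≤ x)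
    (h2 : E - Λ * q / 2 ≤ y) :
    E - Λ * ((a * p + b * q) / (a + b)) / 2 ≤ (a * x + b * y) / (a + b) := by
  have e : E - Λ * ((a * p + b * q) / (a + b)) / 2 =
      (a * (E - Λ * p / 2) + b * (E - Λ * q / 2)) / (a + b) := by
    field_simp
    ring
  rw [e]
  gcongr

theorem abs_min_le (a b r : ℝ) : |min a r - min b r| ≤ |a - b| := by
  simpa using abs_min_sub_min_le_max a r b r

theorem exists_height {M : Type} [DecidableEq M] [MetricSpace M] {c : M × M → ℝ}
    (hc : ∀ e, 0 < c e) {s t : M} (N : Net M s t) (w0 : N.Wf0) (w1 : N.Wf1 c) :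
    ∃ θ : M → ℝ, θ s = 0 ∧ θ t = N.len ∧ (∀ y, 0 ≤ θ y ∧ θ y ≤ N.len) ∧ N.Lip θ ∧
      ∀ Λ u : ℝ, u + N.len ≤ Λ →
        (Λ * (u + N.len) ^ 2 / 2 - (u + N.len) ^ 3 / 3) - (Λ * u ^ 2 / 2 - u ^ 3 / 3) -
          Λ * N.sq c / 2 ≤ N.avg c fun y => (u + θ y) * (Λ - (u + θ y)) := by
  induction N with
  | edge a b l =>
    have hab : a ≠ b := w0
    have hl : 0 < l := w1.1
    refine ⟨fun y => if y = b then l else 0, if_neg hab, if_pos rfl, fun y => ?_, ?_,
      fun Λ u h => ?_⟩
    · simp only [len]
      split_ifs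
      exacts [⟨hl.le, le_rfl⟩, ⟨le_rfl, hl.le⟩]
    · simp only [Lip, if_neg hab, if_true, zero_sub, abs_neg, abs_of_pos hl, le_refl]
    · simp only [len, Net.sq, avg, if_true] at h ⊢
      exact key hl.le h
  | @ser s x t A B iA iB =>
    obtain ⟨θA, a1, a2, a3, a4, a5⟩ := iA w0.1 w1.1
    obtain ⟨θB, b1, b2, b3, b4, b5⟩ := iB w0.2.1 w1.2
    have pA := w1.1.len_pos
    have pB := w1.2.len_pos
    have eA : ∀ y ∈ A.verts, θA y = if y ∈ A.verts then θA y else A.len + θB y :=
      fun y hy => (if_pos hy).symm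
    have eB : ∀ y ∈ B.verts, A.len + θB y = if y ∈ A.verts then θA y else A.len + θB y := by
      intro y hy
      split_ifs with h
      · rw [w0.2.2 y h hy, a2, b1, add_zero]
      · rfl
    refine ⟨fun y => if y ∈ A.verts then θA y else A.len + θB y, ?_, ?_, fun y => ?_, ⟨?_, ?_⟩,
      fun Λ u h => ?_⟩
    · exact (eA s A.src_mem).symm.trans a1
    · exact (eB t B.tgt_mem).symm.trans (by rw [b2, len])
    · have := a3 y
      have := b3 y
      simp only [len]
      split_ifs <;> constructor <;> linarith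
    · exact a4.congr eA
    · exact (b4.comp (g' := fun y => A.len + θB y) fun y z => by simp).congr eB
    · simp only [len] at h
      have h1 := a5 Λ u (by linarith)
      have h2 := b5 Λ (u + A.len) (by linarith)
      rw [avg_congr (F' := fun y => (u + if y ∈ A.verts then θA y else A.len + θB y) *
        (Λ - (u + if y ∈ A.verts then θA y else A.len + θB y))) fun y hy => by
          rw [← eA y hy]] at h1
      rw [avg_congr (F' := fun y => (u + if y ∈ A.verts then θA y else A.len + θB y) *
        (Λ - (u + if y ∈ A.verts then θA y else A.len + θB y))) fun y hy => by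
          rw [← eB y hy, add_assoc]] at h2
      simp only [len, Net.sq, avg]
      rw [← add_assoc]
      linarith
  | @par s t A B iA iB =>
    obtain ⟨θA, a1, a2, a3, a4, a5⟩ := iA w0.1 w1.1
    obtain ⟨θB, b1, b2, b3, b4, b5⟩ := iB w0.2.1 w1.2.1
    have hL : A.len = B.len := w1.2.2.1
    have kA := A.cap_pos hc
    have kB := B.cap_pos hc
    have eA : ∀ y ∈ A.verts, θA y = if y ∈ A.verts then θA y else θB y :=
      fun y hy => (if_pos hy).symm
    have eB : ∀ y ∈ B.verts, θB y = if y ∈ A.verts then θA y else θB y := by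
      intro y hy
      split_ifs with h
      · rcases inter_terms w0.2.1 w0.2.2 y h hy with e | e
        · rw [e, a1, b1]
        · rw [e, a2, b2, hL]
      · rfl
    refine ⟨fun y => if y ∈ A.verts then θA y else θB y, ?_, ?_, fun y => ?_, ⟨?_, ?_⟩,
      fun Λ u h => ?_⟩
    · exact (eA s A.src_mem).symm.trans a1
    · exact (eA t A.tgt_mem).symm.trans a2
    · have := a3 y
      have := b3 y
      simp only [len]
      split_ifs <;> constructor <;> linarith
    · exact a4.congr eA
    · exact b4.congr eB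
    · simp only [len] at h
      have h1 := a5 Λ u h
      have h2 := b5 Λ u (hL ▸ h)
      rw [avg_congr (F' := fun y => (u + if y ∈ A.verts then θA y else θB y) *
        (Λ - (u + if y ∈ A.verts then θA y else θB y))) fun y hy => by
          rw [← eA y hy]] at h1
      rw [avg_congr (F' := fun y => (u + if y ∈ A.verts then θA y else θB y) *
        (Λ - (u + if y ∈ A.verts then θA y else θB y))) fun y hy => by
          rw [← eB y hy], ← hL] at h2
      simp only [len, Net.sq, avg]
      exact mix kA kB h1 h2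
  | @ear s t A Y iA iY =>
    obtain ⟨θA, a1, a2, a3, a4, a5⟩ := iA w0.1 w1.1
    obtain ⟨θB, b1, b2, b3, b4, -⟩ := iY w0.2.1 w1.2.1
    have hL : 2 * A.len ≤ Y.len := w1.2.2
    have pA := w1.1.len_pos
    have kA := A.cap_pos hc
    have kB := Y.cap_pos hc
    have eA : ∀ y ∈ A.verts, θA y = if y ∈ A.verts then θA y else min (θB y) A.len :=
      fun y hy => (if_pos hy).symm
    have eB : ∀ y ∈ Y.verts,
        min (θB y) A.len = if y ∈ A.verts then θA y else min (θB y) A.len := by
      intro y hy
      split_ifs with h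
      · rcases inter_terms w0.2.1 w0.2.2 y h hy with e | e
        · rw [e, a1, b1, min_eq_left pA.le]
        · rw [e, a2, b2, min_eq_right (by linarith)]
      · rfl
    refine ⟨fun y => if y ∈ A.verts then θA y else min (θB y) A.len, ?_, ?_, fun y => ?_,
      ⟨?_, ?_⟩, fun Λ u h => ?_⟩
    · exact (eA s A.src_mem).symm.trans a1
    · exact (eA t A.tgt_mem).symm.trans a2
    · simp only [len]
      split_ifs
      exacts [a3 y, ⟨le_min (b3 y).1 pA.le, min_le_right _ _⟩]
    · exact a4.congr eA
    · exact (b4.comp (g' := fun y => min (θB y) A.len) fun y z =>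
        abs_min_le _ _ _).congr eB
    · simp only [len] at h
      have h1 := a5 Λ u h
      have h2 := key pA.le h
      rw [avg_congr (F' := fun y => (u + if y ∈ A.verts then θA y else min (θB y) A.len) *
        (Λ - (u + if y ∈ A.verts then θA y else min (θB y) A.len))) fun y hy => by
          rw [← eA y hy]] at h1
      simp only [len, Net.sq, avg]
      rw [if_pos A.tgt_mem, a2]
      exact mix kA kB h1 h2

end Height

theorem height_stmt : HeightStmt := by
  intro M _ _ c s t N hc w0 w1
  obtain ⟨θ, h1, h2, h3, h4, h5⟩ := Height.exists_height hc N w0 w1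
  have hL := w1.len_pos
  have e : ∀ y ∈ N.verts, N.len⁻¹ * (θ y * (N.len - θ y)) =
      if y ∈ N.inn then N.len⁻¹ * (θ y * (N.len - θ y)) else 0 := by
    intro y hy
    split_ifs with h
    · rfl
    · rcases Net.mem_verts.1 hy with e | e | e
      · rw [e, h1, zero_mul, mul_zero]
      · rw [e, h2, sub_self, mul_zero, mul_zero]
      · exact absurd e h
  refine ⟨fun y => if y ∈ N.inn then N.len⁻¹ * (θ y * (N.len - θ y)) else 0,
    fun y hy => if_neg hy, ?_, ?_⟩
  · refine (h4.comp (g' := fun y => N.len⁻¹ * (θ y * (N.len - θ y))) fun y z => ?_).congr e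
    have e1 : N.len⁻¹ * (θ y * (N.len - θ y)) - N.len⁻¹ * (θ z * (N.len - θ z)) =
        (N.len - θ y - θ z) / N.len * (θ y - θ z) := by
      field_simp
      ring
    have e2 : |(N.len - θ y - θ z) / N.len| ≤ 1 := by
      have := h3 y
      have := h3 z
      rw [abs_div, abs_of_pos hL, div_le_one hL, abs_le]
      constructor <;> linarith
    rw [e1, abs_mul]
    exact mul_le_of_le_one_left (abs_nonneg _) e2
  · rw [← Net.avg_congr e, Net.avg_mul]
    have h6 := h5 N.len 0 (by linarith)
    simp only [zero_add] at h6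
    rw [← div_eq_inv_mul, le_div_iff₀ hL]
    linarith

end Pool.Agent.Lib.MP_b76e55_an.Sp
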