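import Pool.Agent.Lib.MP_b76e55_an.Sp.Basic

/-!
A minimax lemma for an arbitrary index set.
-/

namespace Pool.Agent.Lib.MP_b76e55_an.Sp

open Finset

theorem minimax_stmt : MinimaxStmt := by
  intro ι P _ v c hv hc h
  classical
  by_contra hcon
  have hU : {x : P → ℝ | ∀ e, x e < 2 * c e} = Set.pi Set.univ fun e => Set.Iio (2 * c e) := by
    ext x
    simp
  obtain ⟨f, u, f1, f2⟩ := geometric_hahn_banach_open (s := {x : P → ℝ | ∀ e, x e < 2 * c e})
    (t := convexHull ℝ (Set.range v))
    (by rw [hU]; exact convex_pi fun e _ => convex_Iio _)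
    (by rw [hU]; exact isOpen_set_pi Set.finite_univ fun e _ => isOpen_Iio)
    (convex_convexHull ℝ _) (Set.disjoint_left.2 (by
      intro x hx hx'
      obtain ⟨κ, _, w, z, w1, w2, hz, rfl⟩ := mem_convexHull_iff_exists_fintype.1 hx'
      choose s hs using hz
      let q := (Fintype.equivFin κ).symm
      refine hcon ⟨_, w ∘ q, s ∘ q, fun i => w1 _, (q.sum_comp w).trans w2, fun e => ?_⟩
      refine (q.sum_comp fun i => w i * v (s i) e).le.trans ?_
      have := (hx e).le
      simpa [hs] using this))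
  have e : ∀ x : P → ℝ, ∑ e, f (Pi.single e 1) * x e = f x := fun x => by
    conv_rhs => rw [pi_eq_sum_univ' x]
    simp [mul_comm]
  have hb : f c < u := f1 c fun e => by linarith [hc e]
  have hm : ∀ e, 0 ≤ f (Pi.single e 1) := fun e => by
    by_contra h0
    have h1 : 0 < -f (Pi.single e 1) := by linarith
    have h3 := f1 (c - ((u - f c) / -f (Pi.single e 1)) • Pi.single e 1) fun e' => by
      have h4 : 0 ≤ (((u - f c) / -f (Pi.single e 1)) • (Pi.single e 1 : P → ℝ)) e' :=
        mul_nonneg (div_nonneg (sub_nonneg.2 hb.le) h1.le) (by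
          rw [Pi.single_apply]
          split_ifs <;> norm_num)
      have := hc e'
      rw [Pi.sub_apply]
      linarith
    rw [map_sub, map_smul, smul_eq_mul] at h3
    have h5 : (u - f c) / -f (Pi.single e 1) * f (Pi.single e 1) = -(u - f c) := by
      have h6 : f (Pi.single e 1) ≠ 0 := by linarith
      field_simp
    linarith
  have hs : 0 ≤ ∑ e, c e := sum_nonneg fun e _ => (hc e).le
  set ε := (u - f c) / (∑ e, c e + 1) with hε
  have hε0 : 0 < ε := div_pos (by linarith) (by linarith)
  obtain ⟨i, hi⟩ := h (fun e => f (Pi.single e 1) + ε) fun e => by linarith [hm e]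
  have h1 := f2 (v i) (subset_convexHull ℝ _ ⟨i, rfl⟩)
  simp only [add_mul, sum_add_distrib, e, ← mul_sum] at hi
  have h2 : 0 ≤ ε * ∑ e, v i e := mul_nonneg hε0.le (sum_nonneg fun e _ => hv i e)
  have h3 : ε * (∑ e, c e + 1) = u - f c := div_mul_cancel₀ _ (by linarith)
  nlinarith

end Pool.Agent.Lib.MP_b76e55_an.Sp
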