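import Pool.Agent.Lib.MP_b76e55_an.Sp.Basic

/-!
Metric normalisation of a network.
-/

namespace Pool.Agent.Lib.MP_b76e55_an.Sp

open Finset

namespace Norm

open Net

variable {M : Type} [DecidableEq M] [MetricSpace M]

/-- Length of a shortest path between the terminals. -/
noncomputable def d : {s t : M} → Net M s t → ℝ
  | _, _, edge a b _ => dist a b
  | _, _, ser A B => d A + d B
  | _, _, par A B => min (d A) (d B)
  | _, _, ear A B => min (d A) (d B)

theorem d_pos {s t : M} {N : Net M s t} (h : N.Wf0) : 0 < d N := by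
  induction N with
  | edge a b l => exact dist_pos.2 h
  | ser A B iA iB => exact add_pos (iA h.1) (iB h.2.1)
  | par A B iA iB => exact lt_min (iA h.1) (iB h.2.1)
  | ear A B iA iB => exact lt_min (iA h.1) (iB h.2.1)

/-- The claim for a network with interior `I`, leaves `E` and shortest length `δ`. -/
def Cl (c : M × M → ℝ) (s t : M) (I : Finset M) (E : Multiset (M × M)) (δ : ℝ) : Prop :=
  ∀ l : ℝ, δ / 2 ≤ l → l ≤ δ →
    ∃ N' : Net M s t, N'.Wf0 ∧ N'.Wf1 c ∧ N'.inn = I ∧ N'.ends = E ∧ N'.len = l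

theorem two {c : M × M → ℝ} {s t : M} {I J : Finset M} {E F : Multiset (M × M)} {a b : ℝ}
    (hA : Cl c s t I E a) (hB : Cl c s t J F b) (hd : Disjoint I J) (hab : a ≤ b) (ha : 0 < a) :
    Cl c s t (I ∪ J) (E + F) a := by
  intro l h1 h2
  obtain ⟨A, a0, a1, rfl, rfl, a4⟩ := hA l h1 h2
  rcases le_total b (2 * l) with hb | hb
  · obtain ⟨B, b0, b1, rfl, rfl, b4⟩ := hB l (by linarith) (by linarith)
    rcases le_total (B.cap c) (A.cap c) with hk | hk
    · exact ⟨par A B, ⟨a0, b0, hd⟩, ⟨a1, b1, a4.trans b4.symm, hk⟩, rfl, rfl, a4⟩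
    · exact ⟨par B A, ⟨b0, a0, hd.symm⟩, ⟨b1, a1, b4.trans a4.symm, hk⟩, union_comm _ _,
        add_comm _ _, b4⟩
  · obtain ⟨B, b0, b1, rfl, rfl, b4⟩ := hB b (by linarith) le_rfl
    exact ⟨ear A B, ⟨a0, b0, hd⟩, ⟨a1, b1, by rw [a4, b4]; exact hb⟩, rfl, rfl, a4⟩

theorem both {c : M × M → ℝ} {s t : M} {I J : Finset M} {E F : Multiset (M × M)} {a b : ℝ}
    (hA : Cl c s t I E a) (hB : Cl c s t J F b) (hd : Disjoint I J) (ha : 0 < a) (hb : 0 < b) :
    Cl c s t (I ∪ J) (E + F) (min a b) := by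
  rcases le_total a b with h | h
  · rw [min_eq_left h]
    exact two hA hB hd h ha
  · rw [min_eq_right h, union_comm, add_comm]
    exact two hB hA hd.symm h hb

theorem claim (c : M × M → ℝ) {s t : M} {N : Net M s t} (h : N.Wf0) :
    Cl c s t N.inn N.ends (d N) := by
  induction N with
  | edge a b l =>
    intro m h1 h2
    have := d_pos h
    simp only [d] at h1 h2 this
    exact ⟨edge a b m, h, ⟨by linarith, h2, by linarith⟩, rfl, rfl, rfl⟩
  | @ser s x t A B iA iB =>
    intro m h1 h2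
    have pA := d_pos h.1
    have pB := d_pos h.2.1
    simp only [d] at h1 h2
    have key : ∀ y : ℝ, 0 < y → y / 2 ≤ m * y / (d A + d B) ∧ m * y / (d A + d B) ≤ y := by
      intro y hy
      rw [le_div_iff₀ (by linarith), div_le_iff₀ (by linarith)]
      constructor <;> nlinarith
    obtain ⟨A', a0, a1, a2, a3, a4⟩ := iA h.1 _ (key _ pA).1 (key _ pA).2
    obtain ⟨B', b0, b1, b2, b3, b4⟩ := iB h.2.1 _ (key _ pB).1 (key _ pB).2
    refine ⟨ser A' B', ⟨a0, b0, ?_⟩, ⟨a1, b1⟩, by simp only [inn, a2, b2],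
      by simp only [ends, a3, b3], ?_⟩
    · simp only [verts, a2, b2]
      exact h.2.2
    · simp only [len, a4, b4]
      field_simp
  | par A B iA iB => exact both (iA h.1) (iB h.2.1) h.2.2 (d_pos h.1) (d_pos h.2.1)
  | ear A B iA iB => exact both (iA h.1) (iB h.2.1) h.2.2 (d_pos h.1) (d_pos h.2.1)

end Norm

theorem norm_stmt : NormStmt := by
  intro M _ _ c s t N h
  have := Norm.d_pos h
  obtain ⟨N', h0, h1, h2, h3, -⟩ := Norm.claim c h (Norm.d N) (by linarith) le_rfl
  exact ⟨N', h0, h1, h2, h3⟩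

end Pool.Agent.Lib.MP_b76e55_an.Sp
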