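import Pool.Agent.Lib.MP_b76e55_an.Sp.Basic

/-!
Graphs without a `K₄` minor are covered by series-parallel networks.
-/

namespace Pool.Agent.Lib.MP_b76e55_an.Sp

open Finset Net

namespace Struct

variable {M : Type} [DecidableEq M]

theorem verts_of_inn {s t v : M} {N N' : Net M s t} (h : N'.inn = insert v N.inn) :
    N'.verts = insert v N.verts := by
  ext y
  simp only [mem_verts, h, mem_insert]
  tauto

/-- A new vertex is attached to the two ends of a leaf. -/
theorem subst {s t : M} (N : Net M s t) (w : N.Wf0) {v a b : M} (hv : v ∉ N.verts)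
    (hab : (a, b) ∈ N.ends) :
    ∃ N' : Net M s t, N'.Wf0 ∧ N'.inn = insert v N.inn ∧ (∀ e ∈ N.ends, e ∈ N'.ends) ∧
      (a, v) ∈ N'.ends ∧ (v, b) ∈ N'.ends := by
  induction N with
  | edge a' b' l =>
    have e : (a, b) = (a', b') := by simpa [ends] using hab
    obtain ⟨rfl, rfl⟩ := Prod.mk.inj e
    have hv' : v ≠ a ∧ v ≠ b := by simpa [verts_edge] using hv
    refine ⟨par (edge a b l) (ser (edge a v 0) (edge v b 0)), ⟨w, ⟨hv'.1.symm, hv'.2, ?_⟩, ?_⟩,
      by simp [inn], by simp [ends], by simp [ends], by simp [ends]⟩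
    · intro y h1 h2
      rw [verts_edge] at h1 h2
      simp only [mem_insert, mem_singleton] at h1 h2
      rcases h1 with rfl | rfl
      · rcases h2 with h | h
        exacts [h, absurd h w]
      · rfl
    · simp [inn]
  | @ser s x t A B iA iB =>
    rw [verts_ser, mem_union, not_or] at hv
    rcases Multiset.mem_add.1 hab with h | h
    · obtain ⟨A', w', hi, he, h1, h2⟩ := iA w.1 hv.1 h
      refine ⟨ser A' B, ⟨w', w.2.1, fun y hy hy' => ?_⟩, ?_, fun e h => ?_,
        Multiset.mem_add.2 (Or.inl h1), Multiset.mem_add.2 (Or.inl h2)⟩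
      · rw [verts_of_inn hi, mem_insert] at hy
        rcases hy with rfl | hy
        exacts [absurd hy' hv.2, w.2.2 y hy hy']
      · simp only [inn, hi]
        rw [insert_union, insert_comm]
      · exact Multiset.mem_add.2 ((Multiset.mem_add.1 h).imp_left (he e))
    · obtain ⟨B', w', hi, he, h1, h2⟩ := iB w.2.1 hv.2 h
      refine ⟨ser A B', ⟨w.1, w', fun y hy hy' => ?_⟩, ?_, fun e h => ?_,
        Multiset.mem_add.2 (Or.inr h1), Multiset.mem_add.2 (Or.inr h2)⟩
      · rw [verts_of_inn hi, mem_insert] at hy'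
        rcases hy' with rfl | hy'
        exacts [absurd hy hv.1, w.2.2 y hy hy']
      · simp only [inn, hi]
        rw [union_insert, insert_comm]
      · exact Multiset.mem_add.2 ((Multiset.mem_add.1 h).imp_right (he e))
  | @par s t A B iA iB =>
    rw [verts_par, mem_union, not_or] at hv
    rcases Multiset.mem_add.1 hab with h | h
    · obtain ⟨A', w', hi, he, h1, h2⟩ := iA w.1 hv.1 h
      refine ⟨par A' B, ⟨w', w.2.1, ?_⟩, ?_, fun e h => ?_,
        Multiset.mem_add.2 (Or.inl h1), Multiset.mem_add.2 (Or.inl h2)⟩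
      · rw [hi, disjoint_insert_left]
        exact ⟨fun e => hv.2 (inn_mem e), w.2.2⟩
      · simp only [inn, hi]
        rw [insert_union]
      · exact Multiset.mem_add.2 ((Multiset.mem_add.1 h).imp_left (he e))
    · obtain ⟨B', w', hi, he, h1, h2⟩ := iB w.2.1 hv.2 h
      refine ⟨par A B', ⟨w.1, w', ?_⟩, ?_, fun e h => ?_,
        Multiset.mem_add.2 (Or.inr h1), Multiset.mem_add.2 (Or.inr h2)⟩
      · rw [hi, disjoint_insert_right]
        exact ⟨fun e => hv.1 (inn_mem e), w.2.2⟩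
      · simp only [inn, hi]
        rw [union_insert]
      · exact Multiset.mem_add.2 ((Multiset.mem_add.1 h).imp_right (he e))
  | @ear s t A B iA iB =>
    rw [verts_ear, mem_union, not_or] at hv
    rcases Multiset.mem_add.1 hab with h | h
    · obtain ⟨A', w', hi, he, h1, h2⟩ := iA w.1 hv.1 h
      refine ⟨ear A' B, ⟨w', w.2.1, ?_⟩, ?_, fun e h => ?_,
        Multiset.mem_add.2 (Or.inl h1), Multiset.mem_add.2 (Or.inl h2)⟩
      · rw [hi, disjoint_insert_left]
        exact ⟨fun e => hv.2 (inn_mem e), w.2.2⟩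
      · simp only [inn, hi]
        rw [insert_union]
      · exact Multiset.mem_add.2 ((Multiset.mem_add.1 h).imp_left (he e))
    · obtain ⟨B', w', hi, he, h1, h2⟩ := iB w.2.1 hv.2 h
      refine ⟨ear A B', ⟨w.1, w', ?_⟩, ?_, fun e h => ?_,
        Multiset.mem_add.2 (Or.inr h1), Multiset.mem_add.2 (Or.inr h2)⟩
      · rw [hi, disjoint_insert_right]
        exact ⟨fun e => hv.1 (inn_mem e), w.2.2⟩
      · simp only [inn, hi]
        rw [union_insert]
      · exact Multiset.mem_add.2 ((Multiset.mem_add.1 h).imp_right (he e))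

/-- Every vertex is an end of a leaf. -/
theorem leaf {s t : M} (N : Net M s t) {y : M} (hy : y ∈ N.verts) :
    ∃ e ∈ N.ends, y = e.1 ∨ y = e.2 := by
  induction N with
  | edge a b l => exact ⟨(a, b), by simp [ends], by simpa [verts_edge] using hy⟩
  | ser A B iA iB =>
    rw [verts_ser, mem_union] at hy
    rcases hy with h | h
    · obtain ⟨e, h1, h2⟩ := iA h
      exact ⟨e, Multiset.mem_add.2 (Or.inl h1), h2⟩
    · obtain ⟨e, h1, h2⟩ := iB h
      exact ⟨e, Multiset.mem_add.2 (Or.inr h1), h2⟩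
  | par A B iA iB =>
    rw [verts_par, mem_union] at hy
    rcases hy with h | h
    · obtain ⟨e, h1, h2⟩ := iA h
      exact ⟨e, Multiset.mem_add.2 (Or.inl h1), h2⟩
    · obtain ⟨e, h1, h2⟩ := iB h
      exact ⟨e, Multiset.mem_add.2 (Or.inr h1), h2⟩
  | ear A B iA iB =>
    rw [verts_ear, mem_union] at hy
    rcases hy with h | h
    · obtain ⟨e, h1, h2⟩ := iA h
      exact ⟨e, Multiset.mem_add.2 (Or.inl h1), h2⟩
    · obtain ⟨e, h1, h2⟩ := iB h
      exact ⟨e, Multiset.mem_add.2 (Or.inr h1), h2⟩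

/-- Removal of a vertex of degree at most two. -/
theorem reduce [Fintype M] (h1 : ContrStmt) (G : SimpleGraph M) (hG : ¬ K4 G) (V : Finset M)
    (hV : ∀ x y, G.Adj x y → x ∈ V) (v : M) (hv : ¬ 2 < (G.neighborSet v).ncard) :
    ∃ G' : SimpleGraph M, ¬ K4 G' ∧ (∀ x y, G'.Adj x y → x ∈ V.erase v) ∧
      (∀ x y, G.Adj x y → x ≠ v → y ≠ v → G'.Adj x y) ∧
      ∀ (s t : M) (N : Net M s t), N.verts = V.erase v →
        (∀ x y, G'.Adj x y → (x, y) ∈ N.ends ∨ (y, x) ∈ N.ends) →
        ∃ a b, (a, b) ∈ N.ends ∧ ∀ y, G.Adj v y → y = a ∨ y = b := by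
  by_cases h0 : ∃ a, G.Adj v a
  · obtain ⟨a, ha⟩ := h0
    refine ⟨contr G a v, fun h => hG (h1 M G a v ha.symm h), ?_,
      fun x y h hx hy => ⟨h.ne, hx, hy, Or.inl h⟩, fun s t N hN hc => ?_⟩
    · rintro x y ⟨-, hx, -, h | ⟨rfl, -⟩ | ⟨-, h⟩⟩
      exacts [mem_erase.2 ⟨hx, hV _ _ h⟩, mem_erase.2 ⟨hx, hV _ _ ha.symm⟩,
        mem_erase.2 ⟨hx, hV _ _ h.symm⟩]
    · by_cases hb : ∃ b, G.Adj v b ∧ b ≠ a
      · obtain ⟨b, hb, hba⟩ := hb
        have key : ∀ y, G.Adj v y → y = a ∨ y = b := fun y hy => by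
          by_contra hn
          rw [not_or] at hn
          exact hv ((Set.two_lt_ncard_iff (Set.toFinite _)).2
            ⟨a, b, y, ha, hb, hy, hba.symm, Ne.symm hn.1, Ne.symm hn.2⟩)
        rcases hc a b ⟨hba.symm, ha.ne', hb.ne', Or.inr (Or.inl ⟨rfl, hb⟩)⟩ with h | h
        exacts [⟨a, b, h, key⟩, ⟨b, a, h, fun y hy => (key y hy).symm⟩]
      · obtain ⟨e, he, h⟩ := leaf N (y := a) (hN ▸ mem_erase.2 ⟨ha.ne', hV _ _ ha.symm⟩)
        refine ⟨e.1, e.2, he, fun y hy => ?_⟩
        obtain rfl : y = a := by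
          by_contra hn
          exact hb ⟨y, hy, hn⟩
        exact h
  · refine ⟨G, hG, fun x y h => mem_erase.2 ⟨fun e => h0 ⟨y, e ▸ h⟩, hV _ _ h⟩,
      fun x y h _ _ => h, fun s t N _ _ => ?_⟩
    obtain ⟨e, he, -⟩ := leaf N N.src_mem
    exact ⟨e.1, e.2, he, fun y hy => absurd ⟨y, hy⟩ h0⟩

theorem main [Fintype M] (h1 : ContrStmt) (h2 : DiracStmt) (n : ℕ) :
    ∀ V : Finset M, V.card = n + 2 → ∀ G : SimpleGraph M, ¬ K4 G →
      (∀ x y, G.Adj x y → x ∈ V) → ∃ (s t : M) (N : Net M s t), N.Wf0 ∧ N.verts = V ∧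
        ∀ x y, G.Adj x y → (x, y) ∈ N.ends ∨ (y, x) ∈ N.ends := by
  induction n with
  | zero =>
    intro V hV G _ hs
    obtain ⟨a, b, hab, rfl⟩ := card_eq_two.1 hV
    refine ⟨a, b, edge a b 0, hab, verts_edge a b 0, fun x y h => ?_⟩
    have hx := hs x y h
    have hy := hs y x h.symm
    have hne := h.ne
    simp only [mem_insert, mem_singleton] at hx hy
    rcases hx with rfl | rfl <;> rcases hy with rfl | rfl <;> simp_all [ends]
  | succ n ih =>
    intro V hV G hG hs
    obtain ⟨v, hv, hd⟩ : ∃ v ∈ V, ¬ 2 < (G.neighborSet v).ncard := by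
      by_cases h0 : ∃ x y, G.Adj x y
      · by_contra hn
        refine hG (h2 M G h0 fun x y h => ?_)
        by_contra h3
        exact hn ⟨x, hs x y h, by omega⟩
      · obtain ⟨v, hv⟩ : V.Nonempty := card_pos.1 (by omega)
        refine ⟨v, hv, fun h => ?_⟩
        obtain ⟨a, -, -, ha, -⟩ := (Set.two_lt_ncard_iff (Set.toFinite _)).1 h
        exact h0 ⟨v, a, ha⟩
    obtain ⟨G', g1, g2, g3, g4⟩ := reduce h1 G hG V hs v hd
    obtain ⟨s, t, N, w, hN, hc⟩ := ih (V.erase v) (by rw [card_erase_of_mem hv]; omega) G' g1 g2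
    obtain ⟨a, b, hab, key⟩ := g4 s t N hN hc
    obtain ⟨N', w', hi, he, e1, e2⟩ := subst N w (v := v) (hN ▸ notMem_erase v V) hab
    have hv' : ∀ y, G.Adj v y → (v, y) ∈ N'.ends ∨ (y, v) ∈ N'.ends := fun y hy => by
      rcases key y hy with rfl | rfl
      exacts [Or.inr e1, Or.inl e2]
    refine ⟨s, t, N', w', by rw [verts_of_inn hi, hN, insert_erase hv], fun x y h => ?_⟩
    by_cases hx : x = v
    · subst hx
      exact hv' y h
    · by_cases hy : y = v
      · subst hy
        exact (hv' x h.symm).symm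
      · exact (hc x y (g3 x y h hx hy)).imp (he _) (he _)

end Struct

theorem struct_stmt (h1 : ContrStmt) (h2 : DiracStmt) : StructStmt := by
  intro M _ _ _ G hG
  have h : 2 ≤ (univ : Finset M).card := by
    rw [card_univ]
    exact Fintype.one_lt_card
  obtain ⟨n, hn⟩ := Nat.exists_eq_add_of_le' h
  exact Struct.main h1 h2 n univ hn G hG fun x _ _ => mem_univ x

end Pool.Agent.Lib.MP_b76e55_an.Sp
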