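import Pool.Agent.Lib.MP_b76e55_an.Sp.Basic

/-!
Layers of test measures and test functions on a network.
-/

set_option linter.unusedSectionVars false

namespace Pool.Agent.Lib.MP_b76e55_an.Sp

open Finset Net

namespace Test

theorem mix {Λ x y u v : ℝ} (hΛ : 0 < Λ) (h : x * y ≤ 4 * Λ ^ 2 * (u * v)) :
    (2 * u ^ 2 - x ^ 2 / (2 * Λ ^ 2)) + (2 * v ^ 2 - y ^ 2 / (2 * Λ ^ 2)) ≤
      2 * (u + v) ^ 2 - (x + y) ^ 2 / (2 * Λ ^ 2) := by
  have h1 : x * y / Λ ^ 2 ≤ 4 * (u * v) := by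
    rw [div_le_iff₀ (by positivity)]
    linarith
  have e : (x + y) ^ 2 / (2 * Λ ^ 2) =
      x ^ 2 / (2 * Λ ^ 2) + y ^ 2 / (2 * Λ ^ 2) + x * y / Λ ^ 2 := by
    field_simp
    ring
  rw [e]
  nlinarith

theorem prod_le {Λ x y u v L L' : ℝ} (hx : |x| ≤ L * u) (hy : |y| ≤ L' * v) (hu : 0 ≤ u)
    (hv : 0 ≤ v) (h : L * L' ≤ 4 * Λ ^ 2) : x * y ≤ 4 * Λ ^ 2 * (u * v) :=
  calc x * y ≤ |x| * |y| := by rw [← abs_mul]; exact le_abs_self _
    _ ≤ L * u * (L' * v) := mul_le_mul hx hy (abs_nonneg _) ((abs_nonneg _).trans hx)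
    _ = L * L' * (u * v) := by ring
    _ ≤ _ := mul_le_mul_of_nonneg_right h (mul_nonneg hu hv)

variable {M : Type} [Fintype M] [DecidableEq M]

theorem one_le_abs {S : Finset M} {x y : M} (h : ind S x ≠ ind S y) : 1 ≤ |ind S x - ind S y| := by
  unfold ind at *
  split_ifs at * <;> simp_all

/-- The value of one layer. -/
def val (ω : Finset M → ℝ) (μ g : M → ℝ) : ℝ := ∑ x, μ x * g x - ∑ S, ω S * (∑ x ∈ S, μ x) ^ 2

theorem val_zero (ω : Finset M → ℝ) : val ω (fun _ => 0) (fun _ => 0) = 0 := by simp [val]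

theorem merge (ω : Finset M → ℝ) (μ g μ' g' : M → ℝ) : ∃ ε : ℝ, (ε = 1 ∨ ε = -1) ∧
    val ω μ g + val ω μ' g' ≤ val ω (fun x => μ x + ε * μ' x) (fun x => g x + ε * g' x) := by
  have key : ∀ ε : ℝ, ε * ε = 1 → val ω (fun x => μ x + ε * μ' x) (fun x => g x + ε * g' x) =
      val ω μ g + val ω μ' g' + ε * (∑ x, (μ x * g' x + μ' x * g x) -
        ∑ S, ω S * (2 * (∑ x ∈ S, μ x) * ∑ x ∈ S, μ' x)) := by
    intro ε hε
    have e1 : ∑ x, (μ x + ε * μ' x) * (g x + ε * g' x) =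
        ∑ x, μ x * g x + ∑ x, μ' x * g' x + ε * ∑ x, (μ x * g' x + μ' x * g x) := by
      rw [mul_sum, ← sum_add_distrib, ← sum_add_distrib]
      exact sum_congr rfl fun x _ => by linear_combination (μ' x * g' x) * hε
    have e2 : ∑ S, ω S * (∑ x ∈ S, (μ x + ε * μ' x)) ^ 2 =
        ∑ S, ω S * (∑ x ∈ S, μ x) ^ 2 + ∑ S, ω S * (∑ x ∈ S, μ' x) ^ 2 +
          ε * ∑ S, ω S * (2 * (∑ x ∈ S, μ x) * ∑ x ∈ S, μ' x) := by
      rw [mul_sum, ← sum_add_distrib, ← sum_add_distrib]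
      refine sum_congr rfl fun S _ => ?_
      rw [sum_add_distrib, ← mul_sum]
      linear_combination (ω S * (∑ x ∈ S, μ' x) ^ 2) * hε
    unfold val
    rw [e1, e2]
    ring
  rcases le_total 0 (∑ x, (μ x * g' x + μ' x * g x) -
      ∑ S, ω S * (2 * (∑ x ∈ S, μ x) * ∑ x ∈ S, μ' x)) with h | h
  · exact ⟨1, Or.inl rfl, by rw [key 1 (by norm_num)]; linarith⟩
  · exact ⟨-1, Or.inr rfl, by rw [key (-1) (by norm_num)]; linarith⟩

/-- There are `j` layers with test functions in `T` and total value at least `X`. -/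
def Adm (ω : Finset M → ℝ) (T : (M → ℝ) → Prop) (j : ℕ) (X : ℝ) : Prop :=
  ∃ μ g : ℕ → M → ℝ, (∀ l, ∑ x, μ l x = 0) ∧ (∀ l, T (g l)) ∧
    X ≤ ∑ l ∈ range j, val ω (μ l) (g l)

/-- Test functions of a network. -/
def Tf {s t : M} (N : Net M s t) (g : M → ℝ) : Prop := (∀ x, x ∉ N.inn → g x = 0) ∧ N.Lip g

variable {ω : Finset M → ℝ}

theorem Adm.mono {T T' : (M → ℝ) → Prop} {j : ℕ} {X X' : ℝ} (h : Adm ω T j X)
    (hT : ∀ g, T g → T' g) (hX : X' ≤ X) : Adm ω T' j X' := by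
  obtain ⟨μ, g, h1, h2, h3⟩ := h
  exact ⟨μ, g, h1, fun l => hT _ (h2 l), hX.trans h3⟩

theorem Adm.succ {T : (M → ℝ) → Prop} {j : ℕ} {X Y : ℝ} (h : Adm ω T j X) {μ₀ g₀ : M → ℝ}
    (h1 : ∑ x, μ₀ x = 0) (h2 : T g₀) (h3 : Y ≤ val ω μ₀ g₀) : Adm ω T (j + 1) (X + Y) := by
  obtain ⟨μ, g, a1, a2, a3⟩ := h
  refine ⟨fun l => if l = j then μ₀ else μ l, fun l => if l = j then g₀ else g l, fun l => ?_,
    fun l => ?_, ?_⟩
  · by_cases e : l = j <;> simp only [e, if_true, if_false, h1, a1]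
  · by_cases e : l = j <;> simp only [e, if_true, if_false, h2, a2]
  · rw [sum_range_succ]
    simp only [if_true]
    refine add_le_add (a3.trans_eq (sum_congr rfl fun l hl => ?_)) h3
    rw [if_neg (mem_range.1 hl).ne, if_neg (mem_range.1 hl).ne]

theorem Adm.add {s t s' t' : M} {A : Net M s t} {B : Net M s' t'} {j : ℕ} {X Y : ℝ}
    (hA : Adm ω (Tf A) j X) (hB : Adm ω (Tf B) j Y) (h1 : ∀ y ∈ A.verts, y ∉ B.inn)
    (h2 : ∀ y ∈ B.verts, y ∉ A.inn) :
    Adm ω (fun g => (∀ x, x ∉ A.inn → x ∉ B.inn → g x = 0) ∧ A.Lip g ∧ B.Lip g) j (X + Y) := by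
  obtain ⟨μ, g, a1, a2, a3⟩ := hA
  obtain ⟨μ', g', b1, b2, b3⟩ := hB
  choose ε e1 e2 using fun l => merge ω (μ l) (g l) (μ' l) (g' l)
  refine ⟨fun l x => μ l x + ε l * μ' l x, fun l x => g l x + ε l * g' l x, fun l => ?_,
    fun l => ⟨fun x hx hx' => ?_, ?_, ?_⟩, ?_⟩
  · rw [sum_add_distrib, ← mul_sum, a1, b1, mul_zero, add_zero]
  · show g l x + ε l * g' l x = 0
    rw [(a2 l).1 x hx, (b2 l).1 x hx', mul_zero, add_zero]
  · exact (a2 l).2.congr fun y hy => by simp only [(b2 l).1 y (h1 y hy), mul_zero, add_zero]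
  · refine (((b2 l).2.comp (g' := fun x => ε l * g' l x) fun y z => ?_)).congr fun y hy => by
      simp only [(a2 l).1 y (h2 y hy), zero_add]
    rw [← mul_sub, abs_mul]
    rcases e1 l with e | e <;> simp [e]
  · refine (add_le_add a3 b3).trans ?_
    rw [← sum_add_distrib]
    exact sum_le_sum fun l _ => e2 l

variable (c : M × M → ℝ)

/-- The centred average of an indicator. -/
noncomputable def aa {s t : M} (N : Net M s t) (S : Finset M) : ℝ :=
  N.avg c (ind S) - N.len * ind S t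

/-- The quadratic error. -/
noncomputable def QQ {s t : M} (N : Net M s t) (Λ : ℝ) (S : Finset M) : ℝ :=
  2 * N.chi c S ^ 2 - (if ind S s = ind S t then aa c N S ^ 2 else 0) / (2 * Λ ^ 2)

/-- The bound proved by induction. -/
noncomputable def Bd (ω : Finset M → ℝ) {s t : M} (N : Net M s t) (Λ P : ℝ) (j : ℕ) : ℝ :=
  P * (N.tt c Λ j / 6 - (N.len - N.sq c / (2 * Λ))) - P ^ 2 * ∑ S, ω S * QQ c N Λ S

variable {c} [MetricSpace M] (hc : ∀ e, 0 < c e)
include hc

theorem QQ_ser {s x t : M} {A : Net M s x} {B : Net M x t} (w : (ser A B).Wf1 c) {Λ : ℝ}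
    (hL : (ser A B).len ≤ 2 * Λ) (S : Finset M) :
    QQ c A Λ S + QQ c B Λ S ≤ QQ c (ser A B) Λ S := by
  have lA := w.1.len_pos
  have lB := w.2.len_pos
  have hL' : A.len + B.len ≤ 2 * Λ := hL
  have hΛ : 0 < Λ := by linarith
  have cA := A.chi_nonneg hc S
  have cB := B.chi_nonneg hc S
  have nA : 0 ≤ (if ind S s = ind S x then aa c A S ^ 2 else 0) / (2 * Λ ^ 2) := by positivity
  have nB : 0 ≤ (if ind S x = ind S t then aa c B S ^ 2 else 0) / (2 * Λ ^ 2) := by positivity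
  unfold QQ
  rw [chi]
  by_cases h1 : ind S s = ind S t
  · by_cases h2 : ind S x = ind S t
    · have e : aa c (ser A B) S = aa c A S + aa c B S := by
        simp only [aa, avg, len, h2]
        ring
      rw [if_pos h1, if_pos h2, if_pos (h1.trans h2.symm), e]
      exact mix hΛ (prod_le (w.1.abs_le_chi hc S) (w.2.abs_le_chi hc S) cA cB (by nlinarith))
    · have a1 := (one_le_abs (h1 ▸ Ne.symm h2 : ind S s ≠ ind S x)).trans (A.chi_ge hc S)
      have a2 := (one_le_abs h2).trans (B.chi_ge hc S)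
      have a3 : aa c (ser A B) S ^ 2 / (2 * Λ ^ 2) ≤ 2 := by
        rw [div_le_iff₀ (by positivity)]
        have := abs_le.1 ((w.abs_le_len hc S).trans hL)
        have := sq_le_sq' this.1 this.2
        unfold aa
        linarith
      rw [if_pos h1]
      nlinarith
  · rw [if_neg h1, zero_div]
    nlinarith [mul_nonneg cA cB]

theorem QQ_par {s t : M} {A B : Net M s t} (w : (par A B).Wf1 c) {Λ p q : ℝ}
    (hp : p = A.cap c / (A.cap c + B.cap c)) (hq : q = B.cap c / (A.cap c + B.cap c))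
    (hL : A.len ≤ 2 * Λ) (S : Finset M) :
    p ^ 2 * QQ c A Λ S + q ^ 2 * QQ c B Λ S ≤ QQ c (par A B) Λ S := by
  have lA := w.1.len_pos
  have hΛ : 0 < Λ := by linarith
  have kA := A.cap_pos hc
  have kB := B.cap_pos hc
  have p0 : 0 ≤ p := by rw [hp]; positivity
  have q0 : 0 ≤ q := by rw [hq]; positivity
  have cA := A.chi_nonneg hc S
  have cB := B.chi_nonneg hc S
  have e1 : (par A B).chi c S = p * A.chi c S + q * B.chi c S := by
    rw [chi, hp, hq]
    field_simp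
  have e2 : aa c (par A B) S = p * aa c A S + q * aa c B S := by
    simp only [aa, avg, len, hp, hq, ← w.2.2.1]
    field_simp
    ring
  unfold QQ
  rw [e1, e2]
  split_ifs
  · have h1 := prod_le (Λ := Λ) (w.1.abs_le_chi hc S) (w.2.1.abs_le_chi hc S) cA cB
      (by rw [← w.2.2.1]; nlinarith)
    have h2 := mix (x := p * aa c A S) (y := q * aa c B S) (u := p * A.chi c S)
      (v := q * B.chi c S) hΛ (by
        have := mul_le_mul_of_nonneg_left h1 (mul_nonneg p0 q0)
        unfold aa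
        linarith)
    refine le_trans (le_of_eq ?_) h2
    ring
  · rw [zero_div]
    nlinarith [mul_nonneg (mul_nonneg p0 cA) (mul_nonneg q0 cB)]

theorem QQ_charged {s t : M} {A B : Net M s t} (w : (par A B).Wf1 c) {Λ p q : ℝ}
    (hp : p = A.cap c / (A.cap c + B.cap c)) (hq : q = B.cap c / (A.cap c + B.cap c))
    (hL : A.len ≤ Λ) (S : Finset M) :
    p ^ 2 * QQ c A Λ S + q ^ 2 * (QQ c B (A.len / 2) S + (aa c B S / A.len) ^ 2) ≤
      QQ c (par A B) Λ S := by
  have lA := w.1.len_pos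
  have hΛ : 0 < Λ := by linarith
  by_cases h : ind S s = ind S t
  · refine le_trans ?_ (QQ_par hc w hp hq (by linarith) S)
    have : QQ c B (A.len / 2) S + (aa c B S / A.len) ^ 2 ≤ QQ c B Λ S := by
      unfold QQ
      rw [if_pos h]
      have e : aa c B S ^ 2 / (2 * (A.len / 2) ^ 2) = 2 * (aa c B S / A.len) ^ 2 := by
        field_simp
      have e2 : aa c B S ^ 2 / (2 * Λ ^ 2) ≤ (aa c B S / A.len) ^ 2 := by
        rw [div_pow]
        exact div_le_div_of_nonneg_left (by positivity) (by positivity) (by nlinarith)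
      linarith
    gcongr
  · have kA := A.cap_pos hc
    have kB := B.cap_pos hc
    have q0 : 0 ≤ q := by rw [hq]; positivity
    have qp : q ≤ p := by
      rw [hp, hq]
      exact div_le_div_of_nonneg_right w.2.2.2 (by positivity)
    have a1 := (one_le_abs h).trans (A.chi_ge hc S)
    have a2 := (one_le_abs h).trans (B.chi_ge hc S)
    have e1 : (par A B).chi c S = p * A.chi c S + q * B.chi c S := by
      rw [chi, hp, hq]
      field_simp
    have a3 : (aa c B S / A.len) ^ 2 ≤ 1 := by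
      rw [div_pow, div_le_one (by positivity), w.2.2.1]
      have := abs_le.1 (w.2.1.abs_le_len hc S)
      exact sq_le_sq' this.1 this.2
    have a4 : 1 ≤ A.chi c S * B.chi c S := one_le_mul_of_one_le_of_one_le a1 a2
    have a5 : q ^ 2 * (aa c B S / A.len) ^ 2 ≤ q ^ 2 := mul_le_of_le_one_right (by positivity) a3
    have a6 : q * q ≤ p * q := mul_le_mul_of_nonneg_right qp q0
    have a7 : p * q ≤ p * q * (A.chi c S * B.chi c S) :=
      le_mul_of_one_le_right (mul_nonneg (q0.trans qp) q0) a4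
    unfold QQ
    rw [e1, if_neg h, if_neg h, if_neg h, zero_div, zero_div]
    nlinarith [mul_nonneg (q0.trans qp) q0]

theorem QQ_ear {s t : M} {A Y : Net M s t} {Λ p : ℝ}
    (hp : p = A.cap c / (A.cap c + Y.cap c)) (S : Finset M) :
    p ^ 2 * QQ c A Λ S ≤ QQ c (ear A Y) Λ S := by
  have kA := A.cap_pos hc
  have kB := Y.cap_pos hc
  have p0 : 0 ≤ p := by rw [hp]; positivity
  have cA := A.chi_nonneg hc S
  have e1 : p * A.chi c S ≤ (ear A Y).chi c S := by
    rw [chi, hp, div_mul_eq_mul_div]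
    gcongr
    exact le_add_of_nonneg_right (by positivity)
  have e2 : aa c (ear A Y) S = p * aa c A S := by
    simp only [aa, avg, len, hp]
    field_simp
    ring
  have e3 := pow_le_pow_left₀ (mul_nonneg p0 cA) e1 2
  unfold QQ
  rw [e2]
  split_ifs
  · have : (p * aa c A S) ^ 2 / (2 * Λ ^ 2) = p ^ 2 * (aa c A S ^ 2 / (2 * Λ ^ 2)) := by ring
    nlinarith
  · rw [zero_div]
    nlinarith

theorem layer (h : HeightStmt) {s t : M} {B : Net M s t} (w0 : B.Wf0) (w : B.Wf1 c) {P : ℝ}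
    (hP : 0 ≤ P) : ∃ μ g : M → ℝ, ∑ x, μ x = 0 ∧ Tf B g ∧
      P * (B.len / 6 - B.sq c / (2 * B.len)) - P ^ 2 * ∑ S, ω S * (aa c B S / B.len) ^ 2 ≤
        val ω μ g := by
  obtain ⟨g, g0, gl, hg⟩ := h M c s t B hc w0 w
  have lB := w.len_pos
  have key : ∀ F : M → ℝ, ∑ x, P * (B.avg c (Pi.single x 1) / B.len - if x = t then 1 else 0) *
      F x = P * (B.avg c F / B.len - F t) := by
    intro F
    rw [← B.avg_eq_sum F, sum_div, ← Fintype.sum_ite_eq' t F, ← sum_sub_distrib, mul_sum]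
    refine sum_congr rfl fun x _ => ?_
    split_ifs <;> ring
  refine ⟨fun x => P * (B.avg c (Pi.single x 1) / B.len - if x = t then 1 else 0), g, ?_,
    ⟨g0, gl⟩, ?_⟩
  · have := key fun _ => 1
    rw [w.avg_const hc] at this
    simpa [lB.ne'] using this
  · unfold val
    rw [key, g0 t w0.tgt_not, sub_zero, mul_sum]
    refine sub_le_sub (mul_le_mul_of_nonneg_left ?_ hP) (le_of_eq (sum_congr rfl fun S _ => ?_))
    · rw [le_div_iff₀ lB]
      refine le_trans (le_of_eq ?_) hg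
      field_simp
    · have e : ∑ x ∈ S, P * (B.avg c (Pi.single x 1) / B.len - if x = t then 1 else 0) =
          P * (aa c B S / B.len) := by
        have := key (ind S)
        simp only [ind, mul_ite, mul_one, mul_zero, sum_ite_mem, univ_inter] at this
        rw [this, aa, sub_div, mul_div_cancel_left₀ _ lB.ne']
        rfl
      rw [e]
      ring

theorem main (h : HeightStmt) (hω : ∀ S, 0 ≤ ω S) {s t : M} (N : Net M s t) (w0 : N.Wf0)
    (w : N.Wf1 c) : ∀ (Λ P : ℝ) (j : ℕ), N.len ≤ 2 * Λ → 0 ≤ P →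
      Adm ω (Tf N) j (Bd c ω N Λ P j) := by
  induction N with
  | edge a b l =>
    intro Λ P j hL hP
    have l0 : 0 < l := w.1
    have hL' : l ≤ 2 * Λ := hL
    refine ⟨fun _ _ => 0, fun _ _ => 0, by simp, fun _ => ⟨fun _ _ => rfl, w.lip_const 0⟩, ?_⟩
    have h1 : l ^ 2 / (2 * Λ) ≤ l := by
      rw [div_le_iff₀ (by linarith)]
      nlinarith
    have h2 : 0 ≤ ∑ S, ω S * QQ c (edge a b l) Λ S := sum_nonneg fun S _ =>
      mul_nonneg (hω S) (by simp [QQ, aa, avg, len, _root_.sq_nonneg])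
    simp only [val_zero, sum_const_zero, Bd, tt, len, Net.sq]
    nlinarith [mul_nonneg hP (sub_nonneg.2 h1), mul_nonneg (sq_nonneg P) h2]
  | @ser s x t A B iA iB =>
    intro Λ P j hL hP
    have lA := w.1.len_pos
    have lB := w.2.len_pos
    have hL' : A.len + B.len ≤ 2 * Λ := hL
    refine ((iA w0.1 w.1 Λ P j (by linarith) hP).add (iB w0.2.1 w.2 Λ P j (by linarith) hP)
      (fun y hy => ser_left w0 hy) (fun y hy => ser_right w0 hy)).mono
      (fun g hg => ⟨fun y hy => hg.1 y (fun e => hy (by simp [inn, e]))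
        (fun e => hy (by simp [inn, e])), hg.2⟩) ?_
    have h1 : ∑ S, ω S * QQ c A Λ S + ∑ S, ω S * QQ c B Λ S ≤ ∑ S, ω S * QQ c (ser A B) Λ S := by
      rw [← sum_add_distrib]
      refine sum_le_sum fun S _ => ?_
      rw [← mul_add]
      exact mul_le_mul_of_nonneg_left (QQ_ser hc w hL S) (hω S)
    have h2 := mul_le_mul_of_nonneg_left h1 (sq_nonneg P)
    simp only [Bd, tt, len, Net.sq, add_div]
    linarith
  | @par s t A B iA iB =>
    intro Λ P j hL hP
    have lA := w.1.len_pos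
    have hL' : A.len ≤ 2 * Λ := hL
    have kA := A.cap_pos hc
    have kB := B.cap_pos hc
    obtain ⟨p, hp⟩ : ∃ p, p = A.cap c / (A.cap c + B.cap c) := ⟨_, rfl⟩
    obtain ⟨q, hq⟩ : ∃ q, q = B.cap c / (A.cap c + B.cap c) := ⟨_, rfl⟩
    have p0 : 0 ≤ p := by rw [hp]; positivity
    have q0 : 0 ≤ q := by rw [hq]; positivity
    have pq : p + q = 1 := by rw [hp, hq]; field_simp
    have esq : (par A B).sq c = p * A.sq c + q * B.sq c := by
      rw [Net.sq, hp, hq]
      field_simp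
    have ett : (par A B).tt c Λ j = p * A.tt c Λ j + q * max (B.tt c Λ j)
        (if A.len ≤ Λ ∧ j ≠ 0 then A.len + B.tt c (A.len / 2) (j - 1) else 0) := by
      rw [tt, hp, hq]
      field_simp
    have fin : ∀ Y, Adm ω (Tf B) j Y → Bd c ω (par A B) Λ P j ≤ Bd c ω A Λ (P * p) j + Y →
        Adm ω (Tf (par A B)) j (Bd c ω (par A B) Λ P j) := fun Y hY hle =>
      ((iA w0.1 w.1 Λ (P * p) j hL' (mul_nonneg hP p0)).add hY
        (fun y hy => not_inn w0.2.1 w0.2.2 hy) (fun y hy => not_inn w0.1 w0.2.2.symm hy)).mono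
        (fun g hg => ⟨fun y hy => hg.1 y (fun e => hy (by simp [inn, e]))
          (fun e => hy (by simp [inn, e])), hg.2⟩) hle
    by_cases hm : (if A.len ≤ Λ ∧ j ≠ 0 then A.len + B.tt c (A.len / 2) (j - 1) else 0) ≤
        B.tt c Λ j
    · refine fin _ (iB w0.2.1 w.2.1 Λ (P * q) j (w.2.2.1 ▸ hL') (mul_nonneg hP q0)) ?_
      have h1 : p ^ 2 * ∑ S, ω S * QQ c A Λ S + q ^ 2 * ∑ S, ω S * QQ c B Λ S ≤
          ∑ S, ω S * QQ c (par A B) Λ S := by
        rw [mul_sum, mul_sum, ← sum_add_distrib]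
        refine sum_le_sum fun S _ => ?_
        have := mul_le_mul_of_nonneg_left (QQ_par hc w hp hq hL' S) (hω S)
        linarith
      have h2 := mul_le_mul_of_nonneg_left h1 (sq_nonneg P)
      have h3 : P * A.len = P * A.len * (p + q) := by rw [pq, mul_one]
      simp only [Bd, ett, max_eq_left hm, esq, len, ← w.2.2.1, add_div, mul_div_assoc]
      linarith
    · have hc' : A.len ≤ Λ ∧ j ≠ 0 := by
        by_contra hn
        rw [if_neg hn] at hm
        exact hm (B.tt_nonneg hc Λ j)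
      rw [max_eq_right (not_le.1 hm).le, if_pos hc'] at ett
      obtain ⟨j, rfl⟩ := Nat.exists_eq_succ_of_ne_zero hc'.2
      obtain ⟨μ₀, g₀, a1, a2, a3⟩ := layer (ω := ω) hc h w0.2.1 w.2.1 (mul_nonneg hP q0)
      refine fin _ ((iB w0.2.1 w.2.1 (A.len / 2) (P * q) j (by rw [← w.2.2.1]; linarith)
        (mul_nonneg hP q0)).succ a1 a2 a3) ?_
      have h1 : p ^ 2 * ∑ S, ω S * QQ c A Λ S + (q ^ 2 * ∑ S, ω S * QQ c B (A.len / 2) S +
          q ^ 2 * ∑ S, ω S * (aa c B S / A.len) ^ 2) ≤ ∑ S, ω S * QQ c (par A B) Λ S := by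
        rw [mul_sum, mul_sum, mul_sum, ← sum_add_distrib, ← sum_add_distrib]
        refine sum_le_sum fun S _ => ?_
        have := mul_le_mul_of_nonneg_left (QQ_charged hc w hp hq hc'.1 S) (hω S)
        linarith
      have h2 := mul_le_mul_of_nonneg_left h1 (sq_nonneg P)
      have h3 : P * A.len = P * A.len * (p + q) := by rw [pq, mul_one]
      have h4 : B.sq c / (2 * Λ) ≤ B.sq c / (2 * A.len) :=
        div_le_div_of_nonneg_left (B.sq_nonneg hc) (by positivity) (by linarith [hc'.1])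
      have h5 := mul_le_mul_of_nonneg_left h4 (mul_nonneg hP q0)
      have h6 : B.sq c / (2 * (A.len / 2)) = 2 * (B.sq c / (2 * A.len)) := by field_simp
      simp only [Bd, ett, esq, len, ← w.2.2.1, add_div, mul_div_assoc, h6, Nat.succ_sub_one]
      linarith
  | @ear s t A Y iA iY =>
    intro Λ P j hL hP
    have lA := w.1.len_pos
    have hL' : A.len ≤ 2 * Λ := hL
    have kA := A.cap_pos hc
    have kB := Y.cap_pos hc
    obtain ⟨p, hp⟩ : ∃ p, p = A.cap c / (A.cap c + Y.cap c) := ⟨_, rfl⟩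
    have p0 : 0 ≤ p := by rw [hp]; positivity
    have p1 : p ≤ 1 := by rw [hp, div_le_one (by positivity)]; linarith
    have esq : (ear A Y).sq c = p * A.sq c + (1 - p) * A.len ^ 2 := by
      rw [Net.sq, hp]
      field_simp
      ring
    have ett : (ear A Y).tt c Λ j = p * A.tt c Λ j := by
      rw [tt, hp]
      field_simp
    refine (iA w0.1 w.1 Λ (P * p) j hL' (mul_nonneg hP p0)).mono
      (fun g hg => ⟨fun y hy => hg.1 y (fun e => hy (by simp [inn, e])), hg.2,
        w.2.1.lip_zero fun y hy => hg.1 y (not_inn w0.1 w0.2.2.symm hy)⟩) ?_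
    have h1 : p ^ 2 * ∑ S, ω S * QQ c A Λ S ≤ ∑ S, ω S * QQ c (ear A Y) Λ S := by
      rw [mul_sum]
      refine sum_le_sum fun S _ => ?_
      have := mul_le_mul_of_nonneg_left (QQ_ear (Λ := Λ) hc hp S) (hω S)
      linarith
    have h2 := mul_le_mul_of_nonneg_left h1 (sq_nonneg P)
    have h3 : A.len ^ 2 / (2 * Λ) ≤ A.len := by
      rw [div_le_iff₀ (by linarith)]
      nlinarith
    have h4 := mul_le_mul_of_nonneg_left h3 (mul_nonneg hP (sub_nonneg.2 p1))
    simp only [Bd, ett, esq, len, add_div, mul_div_assoc]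
    linarith

end Test

theorem test_stmt (h : HeightStmt) : TestStmt := by
  intro M _ _ _ c ω s t N j hc hω w0 w
  have l0 := w.len_pos
  obtain ⟨μ, g, h1, h2, h3⟩ := Test.main hc h hω N w0 w N.len 1 j (by linarith) zero_le_one
  refine ⟨μ, g, h1, fun l => (h2 l).1, fun l => (h2 l).2, le_trans ?_ h3⟩
  have a1 : 0 ≤ N.sq c / (2 * N.len) := div_nonneg (N.sq_nonneg hc) (by positivity)
  have a2 : ∑ S, ω S * Test.QQ c N N.len S ≤ 2 * ∑ S, ω S * N.chi c S ^ 2 := by
    rw [mul_sum]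
    refine sum_le_sum fun S _ => ?_
    have : Test.QQ c N N.len S ≤ 2 * N.chi c S ^ 2 := sub_le_self _ (by positivity)
    have := mul_le_mul_of_nonneg_left this (hω S)
    linarith
  unfold Test.Bd
  linarith

end Pool.Agent.Lib.MP_b76e55_an.Sp
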