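import Pool.Agent.Lib.MP_b76e55_an.Sp.Basic

/-!
Construction of a cheap dominating tree from the bound on the potential.
-/

namespace Pool.Agent.Lib.MP_b76e55_an.Sp

open Finset Net

namespace Upper

variable {M : Type} [DecidableEq M] [MetricSpace M] {c : M × M → ℝ} {n : ℝ} {s t x : M}

/-- The bound on the cost. -/
noncomputable def Bd (c : M × M → ℝ) (n : ℝ) (N : Net M s t) (a Λ : ℝ) : ℝ :=
  16 * (a * N.kk c Λ + (N.cap c - a) * N.kk c N.len + n * (N.wb c - N.cap c * N.len)) +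
    (4 + 16 * n) * (N.wp c - N.wb c) + 2 * N.wt c

/-- Terminals kept close. -/
def IM (c : M × M → ℝ) (n : ℝ) (N : Net M s t) : Prop :=
  ∀ a Λ, N.len ≤ 2 * Λ → 0 ≤ a → a ≤ N.cap c → (Λ < N.len → 2 * a ≤ N.cap c) →
    ∃ ρ, IsTree N.verts ρ ∧ ρ s t ≤ 2 * N.len ∧ N.cost c ρ ≤ Bd c n N a Λ

/-- Terminals joined from outside at a prescribed distance. -/
def CM (c : M × M → ℝ) (n : ℝ) (N : Net M s t) : Prop :=
  ∀ a Λ p, N.len ≤ 2 * Λ → a ≤ N.cap c → N.cap c ≤ 2 * a → dist s t ≤ p →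
    ∃ ρ, IsTree N.verts ρ ∧ ρ s t = p ∧ Hang N.verts ρ s t ∧
      N.cost c ρ ≤ 2 * a * (p + 2 * N.len) + Bd c n N a Λ

theorem two (h : s ≠ t) {p : ℝ} (hp : dist s t ≤ p) :
    ∃ ρ : M → M → ℝ, IsTree {s, t} ρ ∧ ρ s t = p ∧ Hang {s, t} ρ s t := by
  have h0 : 0 ≤ p := dist_nonneg.trans hp
  have hp' : dist t s ≤ p := dist_comm s t ▸ hp
  refine ⟨fun y z => if y = z then 0 else p, ⟨by simp, fun y _ z _ => by simp [eq_comm], ?_, ?_⟩,
    by simp [h], ?_⟩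
  · simp only [mem_insert, mem_singleton]
    rintro _ (rfl | rfl) _ (rfl | rfl) _ (rfl | rfl) _ (rfl | rfl) <;> simp [h, h.symm, h0]
  · simp only [mem_insert, mem_singleton]
    rintro _ (rfl | rfl) _ (rfl | rfl) <;> simp [h, h.symm, hp, hp']
  · simp only [Hang, mem_insert, mem_singleton]
    rintro _ (rfl | rfl) <;> simp [h, h.symm]

theorem glue1 (G : GlueStmt) {V₁ V₂ : Finset M} {ρ₁ ρ₂ : M → M → ℝ} (h1 : IsTree V₁ ρ₁)
    (h2 : IsTree V₂ ρ₂) (x1 : x ∈ V₁) (x2 : x ∈ V₂) (hx : ∀ y ∈ V₁, y ∈ V₂ → y = x) :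
    ∃ ρ : M → M → ℝ, IsTree (V₁ ∪ V₂) ρ ∧ (∀ y ∈ V₁, ∀ z ∈ V₁, ρ y z = ρ₁ y z) ∧
      (∀ y ∈ V₂, ∀ z ∈ V₂, ρ y z = ρ₂ y z) ∧ ∀ y ∈ V₂, ∀ z ∈ V₁, ρ y z = ρ₂ y x + ρ₁ x z := by
  obtain ⟨ρ, a, b, d, e⟩ := G M V₁ V₂ ρ₁ ρ₂ x x h1 h2 x1 x1 x2 x2 (fun y p q => Or.inl (hx y p q))
    (by rw [h1.zero x x1, h2.zero x x2]) fun y _ => Or.inl (by rw [h2.zero x x2, add_zero])
  exact ⟨ρ, a, b, d, fun y hy => (e y hy).elim id id⟩

/-- Gluing of two networks in parallel. -/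
theorem glue2 (G : GlueStmt) {A B : Net M s t} (hB : B.Wf0) (hd : Disjoint A.inn B.inn)
    {ρ₁ ρ₂ : M → M → ℝ} (h1 : IsTree A.verts ρ₁) (h2 : IsTree B.verts ρ₂) (e : ρ₂ s t = ρ₁ s t)
    (hh : Hang B.verts ρ₂ s t) : ∃ ρ : M → M → ℝ, IsTree (A.verts ∪ B.verts) ρ ∧ ρ s t = ρ₁ s t ∧
      A.cost c ρ = A.cost c ρ₁ ∧ B.cost c ρ = B.cost c ρ₂ ∧
      (Hang A.verts ρ₁ s t → Hang (A.verts ∪ B.verts) ρ s t) := by
  obtain ⟨ρ, a, b, d, -⟩ := G M _ _ ρ₁ ρ₂ s t h1 h2 A.src_mem A.tgt_mem B.src_mem B.tgt_mem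
    (inter_terms hB hd) e.symm hh
  refine ⟨ρ, a, b _ A.src_mem _ A.tgt_mem, cost_congr b, cost_congr d, fun hA y hy => ?_⟩
  rcases mem_union.1 hy with hy | hy
  · rw [b _ hy _ A.src_mem, b _ hy _ A.tgt_mem, b _ A.src_mem _ A.tgt_mem]
    exact hA y hy
  · rw [d _ hy _ B.src_mem, d _ hy _ B.tgt_mem, d _ B.src_mem _ B.tgt_mem]
    exact hh y hy

/-- Gluing in series when the piece `U` with terminals `s, x` is cut and the piece `V ∋ x, t` is
kept. -/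
theorem glue3 (G : GlueStmt) {U V : Finset M} (sU : s ∈ U) (xU : x ∈ U) (xV : x ∈ V) (tV : t ∈ V)
    (sV : s ∉ V) (hx : ∀ y ∈ U, y ∈ V → y = x) {σ : M → M → ℝ} (hσ : IsTree V σ) {p : ℝ}
    (hp : dist s t ≤ p) {τ : M → M → ℝ} (hτ : IsTree U τ) (e : τ s x = p + σ t x)
    (hh : Hang U τ s x) : ∃ ρ : M → M → ℝ, IsTree (U ∪ V) ρ ∧ ρ s t = p ∧ Hang (U ∪ V) ρ s t ∧
      (∀ y ∈ U, ∀ z ∈ U, ρ y z = τ y z) ∧ ∀ y ∈ V, ∀ z ∈ V, ρ y z = σ y z := by
  have st : s ≠ t := fun h => sV (h ▸ tV)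
  obtain ⟨θ, θ1, θ2, -⟩ := two st hp
  obtain ⟨η, η1, η2, -, η4⟩ := glue1 G hσ θ1 tV (by simp) (x := t) fun y p q => by
    rcases mem_insert.1 q with rfl | q
    exacts [absurd p sV, mem_singleton.1 q]
  have η5 : ∀ y ∈ V, η s y = p + σ t y := fun y hy => by rw [η4 s (by simp) y hy, θ2]
  have s1 : s ∈ V ∪ {s, t} := by simp
  have v1 : ∀ y ∈ V, y ∈ V ∪ {s, t} := fun y hy => mem_union_left _ hy
  obtain ⟨ρ, a, b, d, f⟩ := G M _ _ η τ s x η1 hτ s1 (v1 x xV) sU xU (fun y p q => by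
    rcases mem_union.1 p with p | p
    · exact Or.inr (hx y q p)
    · rcases mem_insert.1 p with p | p
      · exact Or.inl p
      · exact Or.inr (hx y q (mem_singleton.1 p ▸ tV))) (by rw [η5 x xV, e]) hh
  have hV : V ∪ {s, t} ∪ U = U ∪ V := by
    ext y
    simp only [mem_union, mem_insert, mem_singleton]
    constructor
    · rintro ((h | rfl | rfl) | h) <;> simp [*]
    · tauto
  rw [hV] at a
  have r : ρ s t = p := by rw [b s s1 t (v1 t tV), η5 t tV, hσ.zero t tV, add_zero]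
  refine ⟨ρ, a, r, fun y hy => ?_, d, fun y hy z hz => by
    rw [b y (v1 y hy) z (v1 z hz), η2 y hy z hz]⟩
  rw [r]
  rcases mem_union.1 hy with hy | hy
  · rcases f y hy with f | f
    · left
      rw [f t (v1 t tV), f s s1, η1.zero s s1, η5 t tV, hσ.zero t tV]
      ring
    · right
      rw [f t (v1 t tV), f s s1, η1.symm x (v1 x xV) s s1, η5 x xV, η2 x xV t tV,
        hσ.symm x xV t tV]
      ring
  · right
    rw [b y (v1 y hy) s s1, b y (v1 y hy) t (v1 t tV), η1.symm y (v1 y hy) s s1, η5 y hy,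
      η2 y hy t tV, hσ.symm y hy t tV]
    ring

theorem _root_.Pool.Agent.Lib.MP_b76e55_an.Sp.Hang.swap {V : Finset M} {ρ : M → M → ℝ}
    (h : Hang V ρ s t) (e : ρ s t = ρ t s) : Hang V ρ t s := fun y hy => e ▸ (h y hy).symm

theorem edge_case (hc : ∀ e, 0 < c e) {a b : M} {l : ℝ} (w0 : (edge a b l).Wf0)
    (w1 : (edge a b l).Wf1 c) : IM c n (edge a b l) ∧ CM c n (edge a b l) := by
  have h0 := hc (a, b)
  obtain ⟨l1, l2, l3⟩ := w1
  constructor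
  · intro r Λ _ _ _ _
    obtain ⟨ρ, r1, r2, -⟩ := two w0 le_rfl
    refine ⟨ρ, verts_edge a b l ▸ r1, r2 ▸ l3, ?_⟩
    simp only [cost_edge, Bd, kk, cap, wb, wp, wt, len, r2]
    nlinarith
  · intro r Λ p _ h1 h2 hp
    obtain ⟨ρ, r1, r2, r3⟩ := two w0 hp
    refine ⟨ρ, verts_edge a b l ▸ r1, r2, verts_edge a b l ▸ r3, ?_⟩
    simp only [cost_edge, Bd, kk, cap, wb, wp, wt, len, r2] at *
    have := dist_nonneg.trans hp
    nlinarith

theorem bd_ser (hc : ∀ e, 0 < c e) (hn : 0 ≤ n) {A : Net M s x} {B : Net M x t}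
    (w1 : (ser A B).Wf1 c) (g : (ser A B).Good c n) (a Λ : ℝ) :
    Bd c n A a Λ + Bd c n B a Λ ≤ Bd c n (ser A B) a Λ := by
  have lA := w1.1.len_pos
  have lB := w1.2.len_pos
  have := mul_le_mul_of_nonneg_left (g.1.top hc hn w1.1 A.len)
    (sub_nonneg.2 (min_le_left (A.cap c) (B.cap c)))
  have := mul_le_mul_of_nonneg_left (g.2.top hc hn w1.2 B.len)
    (sub_nonneg.2 (min_le_right (A.cap c) (B.cap c)))
  simp only [Bd, kk, cap, wb, wp, wt, len]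
  rw [w1.1.kk_eq (Λ := A.len + B.len) (by linarith) le_rfl,
    w1.2.kk_eq (Λ := A.len + B.len) (by linarith) le_rfl]
  linarith

theorem ser_case (G : GlueStmt) (hc : ∀ e, 0 < c e) (hn : 0 ≤ n) {A : Net M s x} {B : Net M x t}
    (w0 : (ser A B).Wf0) (w1 : (ser A B).Wf1 c) (g : (ser A B).Good c n)
    (iA : IM c n A ∧ CM c n A) (iB : IM c n B ∧ CM c n B) :
    IM c n (ser A B) ∧ CM c n (ser A B) := by
  have lA := w1.1.len_pos
  have lB := w1.2.len_pos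
  have kA : (ser A B).cap c ≤ A.cap c := min_le_left _ _
  have kB : (ser A B).cap c ≤ B.cap c := min_le_right _ _
  have hl : (ser A B).len = A.len + B.len := rfl
  constructor
  · intro a Λ h1 h2 h3 h4
    obtain ⟨σ, σ1, σ2, σ3⟩ := iA.1 a Λ (by linarith) h2 (by linarith) fun h => by
      linarith [h4 (by linarith)]
    obtain ⟨τ, τ1, τ2, τ3⟩ := iB.1 a Λ (by linarith) h2 (by linarith) fun h => by
      linarith [h4 (by linarith)]
    obtain ⟨ρ, r1, r2, r3, r4⟩ := glue1 G σ1 τ1 A.tgt_mem B.src_mem w0.2.2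
    rw [← verts_ser] at r1
    refine ⟨ρ, r1, ?_, ?_⟩
    · rw [r1.symm s (src_mem _) t (tgt_mem _), r4 t B.tgt_mem s A.src_mem,
        τ1.symm t B.tgt_mem x B.src_mem, σ1.symm x A.tgt_mem s A.src_mem]
      linarith
    · rw [cost_ser, cost_congr r2, cost_congr r3]
      linarith [bd_ser hc hn w1 g a Λ]
  · intro a Λ p h1 h2 h3 hp
    have a0 : 0 < a := by linarith [(ser A B).cap_pos hc]
    have key : (A.cap c ≤ 2 * a ∧ (Λ < B.len → 2 * a ≤ B.cap c)) ∨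
        (B.cap c ≤ 2 * a ∧ (Λ < A.len → 2 * a ≤ A.cap c)) := by
      by_cases e1 : A.cap c ≤ 2 * a <;> by_cases e2 : B.cap c ≤ 2 * a
      · by_cases e3 : Λ < B.len
        · exact Or.inr ⟨e2, fun h => by linarith⟩
        · exact Or.inl ⟨e1, fun h => absurd h e3⟩
      · exact Or.inl ⟨e1, fun _ => by linarith⟩
      · exact Or.inr ⟨e2, fun _ => by linarith⟩
      · rcases min_le_iff.1 h3 with h | h <;> contradiction
    have bd := bd_ser hc hn w1 g a Λ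
    rcases key with ⟨e1, e2⟩ | ⟨e1, e2⟩
    · obtain ⟨σ, σ1, σ2, σ3⟩ := iB.1 a Λ (by linarith) a0.le (by linarith) e2
      have sy := σ1.symm x B.src_mem t B.tgt_mem
      obtain ⟨τ, τ1, τ2, τ3, τ4⟩ := iA.2 a Λ (p + σ t x) (by linarith) (by linarith) e1
        ((dist_triangle s t x).trans (add_le_add hp (σ1.dom t B.tgt_mem x B.src_mem)))
      obtain ⟨ρ, r1, r2, r3, r4, r5⟩ := glue3 G A.src_mem A.tgt_mem B.src_mem B.tgt_mem
        (fun h => w0.1.ne (w0.2.2 s A.src_mem h)) w0.2.2 σ1 hp τ1 τ2 τ3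
      rw [← verts_ser] at r1 r3
      refine ⟨ρ, r1, r2, r3, ?_⟩
      rw [cost_ser, cost_congr r4, cost_congr r5, hl]
      nlinarith
    · obtain ⟨σ, σ1, σ2, σ3⟩ := iA.1 a Λ (by linarith) a0.le (by linarith) e2
      obtain ⟨τ, τ1, τ2, τ3, τ4⟩ := iB.2 a Λ (p + σ s x) (by linarith) (by linarith) e1 (by
        have := dist_triangle_left x t s
        linarith [σ1.dom s A.src_mem x A.tgt_mem])
      have sy := τ1.symm x B.src_mem t B.tgt_mem
      obtain ⟨ρ, r1, r2, r3, r4, r5⟩ := glue3 G B.tgt_mem B.src_mem A.tgt_mem A.src_mem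
        (fun h => w0.2.1.ne (w0.2.2 t h B.tgt_mem).symm) (fun y p q => w0.2.2 y q p) σ1
        (dist_comm s t ▸ hp) τ1 (sy ▸ τ2) (τ3.swap sy)
      rw [union_comm, ← verts_ser] at r1 r3
      have sz := r1.symm t (tgt_mem _) s (src_mem _)
      refine ⟨ρ, r1, sz ▸ r2, r3.swap sz, ?_⟩
      rw [cost_ser, cost_congr r4, cost_congr r5, hl]
      nlinarith

theorem par_case (G : GlueStmt) (hc : ∀ e, 0 < c e) {A B : Net M s t}
    (w0 : (par A B).Wf0) (w1 : (par A B).Wf1 c)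
    (iA : IM c n A ∧ CM c n A) (iB : IM c n B ∧ CM c n B) :
    IM c n (par A B) ∧ CM c n (par A B) := by
  have lA := w1.1.len_pos
  have kA := A.cap_pos hc
  have kB := B.cap_pos hc
  have hl : B.len = A.len := w1.2.2.1.symm
  obtain ⟨u, hu⟩ : ∃ u, u = A.cap c / (A.cap c + B.cap c) := ⟨_, rfl⟩
  obtain ⟨v, hv⟩ : ∃ v, v = B.cap c / (A.cap c + B.cap c) := ⟨_, rfl⟩
  have u0 : 0 < u := by rw [hu]; positivity
  have v0 : 0 < v := by rw [hv]; positivity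
  have u1 : A.cap c = (A.cap c + B.cap c) * u := by rw [hu]; field_simp
  have v1 : B.cap c = (A.cap c + B.cap c) * v := by rw [hv]; field_simp
  have uv : u + v = 1 := by rw [hu, hv]; field_simp
  have hk : ∀ Λ, ∃ m, (par A B).kk c Λ = u * A.kk c Λ + v * m ∧ B.kk c Λ ≤ m ∧
      (A.len ≤ Λ → A.len + B.kk c (A.len / 2) ≤ m) := fun Λ =>
    ⟨_, by rw [kk, hu, hv]; ring, le_max_left _ _, fun h => by rw [if_pos h]; exact le_max_right _ _⟩
  obtain ⟨m', m1, m2, m3⟩ := hk A.len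
  have m3 := m3 le_rfl
  constructor
  · intro a Λ h1 h2 h3 h4
    simp only [cap, len] at h1 h3 h4
    obtain ⟨σ, σ1, σ2, σ3⟩ := iA.1 (a * u) Λ h1 (by positivity) (by nlinarith) fun h => by
      nlinarith [h4 h]
    obtain ⟨τ, τ1, τ2, τ3, τ4⟩ := iB.2 (B.cap c) (A.len / 2) (σ s t) (by linarith) le_rfl
      (by linarith) (σ1.dom s A.src_mem t A.tgt_mem)
    obtain ⟨ρ, r1, r2, r3, r4, -⟩ := glue2 (c := c) G w0.2.1 w0.2.2 σ1 τ1 τ2 τ3
    rw [← verts_par] at r1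
    refine ⟨ρ, r1, r2 ▸ σ2, ?_⟩
    obtain ⟨m, n1, n2, n3⟩ := hk Λ
    have key : B.cap c * (A.len / 2 + B.kk c (A.len / 2)) ≤
        a * (v * m) + (A.cap c + B.cap c - a) * (v * m') := by
      have e1 := mul_le_mul_of_nonneg_left m3 (mul_nonneg (sub_nonneg.2 h3) v0.le)
      have q1 := congrArg (· * A.len) v1
      have q2 := congrArg (· * B.kk c (A.len / 2)) v1
      have q3 := mul_pos kB lA
      by_cases h : A.len ≤ Λ
      · have e2 := mul_le_mul_of_nonneg_left (n3 h) (mul_nonneg h2 v0.le)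
        linarith
      · have e2 := mul_le_mul_of_nonneg_left ((B.kk_mono hc (show A.len / 2 ≤ Λ by linarith)).trans
          n2) (mul_nonneg h2 v0.le)
        have e3 := mul_le_mul_of_nonneg_right (h4 (not_le.1 h)) (mul_pos v0 lA).le
        linarith
    have e4 := mul_le_mul_of_nonneg_left σ2 kB.le
    have e5 : (A.cap c - a * u) * A.kk c A.len = (A.cap c + B.cap c - a) * (u * A.kk c A.len) := by
      rw [sub_mul, sub_mul, ← mul_assoc, ← u1]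
      ring
    rw [cost_par, r3, r4]
    simp only [Bd, n1, cap, wb, wp, wt, len, hl, m1] at σ3 τ4 ⊢
    linarith
  · intro a Λ p h1 h2 h3 hp
    simp only [cap, len] at h1 h2 h3
    obtain ⟨σ, σ1, σ2, σ3, σ4⟩ := iA.2 (a * u) Λ p h1 (by nlinarith) (by nlinarith) hp
    obtain ⟨τ, τ1, τ2, τ3, τ4⟩ := iB.2 (a * v) Λ p (by linarith) (by nlinarith) (by nlinarith) hp
    obtain ⟨ρ, r1, r2, r3, r4, r5⟩ := glue2 (c := c) G w0.2.1 w0.2.2 σ1 τ1 (τ2.trans σ2.symm) τ3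
    have r5 := r5 σ3
    rw [← verts_par] at r1 r5
    refine ⟨ρ, r1, r2.trans σ2, r5, ?_⟩
    obtain ⟨m, n1, n2, n3⟩ := hk Λ
    have e1 := mul_le_mul_of_nonneg_left n2 (mul_nonneg (show 0 ≤ a by linarith) v0.le)
    have e2 := mul_le_mul_of_nonneg_left m2 (mul_nonneg (sub_nonneg.2 h2) v0.le)
    have e5 : (A.cap c - a * u) * A.kk c A.len = (A.cap c + B.cap c - a) * (u * A.kk c A.len) := by
      rw [sub_mul, sub_mul, ← mul_assoc, ← u1]
      ring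
    have e6 : (B.cap c - a * v) * B.kk c A.len = (A.cap c + B.cap c - a) * v * B.kk c A.len := by
      rw [sub_mul (A.cap c + B.cap c), ← v1]
    have e7 : 2 * a * (p + 2 * A.len) = 2 * (a * u) * (p + 2 * A.len) +
        2 * (a * v) * (p + 2 * A.len) := by
      linear_combination (2 * a * (p + 2 * A.len)) * uv.symm
    rw [cost_par, r3, r4]
    simp only [Bd, n1, cap, wb, wp, wt, len, hl, m1] at σ4 τ4 ⊢
    linarith

theorem ear_cost (hc : ∀ e, 0 < c e) (hn : 0 ≤ n) {Y : Net M s t} (w1 : Y.Wf1 c) (g : Y.Good c n)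
    (iY : CM c n Y) {p : ℝ} (hp : dist s t ≤ p) : ∃ ρ, IsTree Y.verts ρ ∧ ρ s t = p ∧
      Hang Y.verts ρ s t ∧ Y.cost c ρ ≤ Y.cap c * (p - Y.len) + (4 + 16 * n) * Y.wp c + 2 * Y.wt c := by
  have kY := Y.cap_pos hc
  have lY := w1.len_pos
  obtain ⟨τ, τ1, τ2, τ3, τ4⟩ := iY (Y.cap c / 2) Y.len p (by linarith) (by linarith) (by linarith) hp
  refine ⟨τ, τ1, τ2, τ3, τ4.trans ?_⟩
  have e1 := mul_le_mul_of_nonneg_left (g.top hc hn w1 Y.len) kY.le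
  have e2 := w1.cap_len_le hc
  have := mul_pos kY lY
  simp only [Bd]
  linarith

theorem ear_case (G : GlueStmt) (hc : ∀ e, 0 < c e) (hn : 0 ≤ n) {A Y : Net M s t}
    (w0 : (ear A Y).Wf0) (w1 : (ear A Y).Wf1 c) (g : (ear A Y).Good c n)
    (iA : IM c n A ∧ CM c n A) (iY : CM c n Y) : IM c n (ear A Y) ∧ CM c n (ear A Y) := by
  have lA := w1.1.len_pos
  have kA := A.cap_pos hc
  have kB := Y.cap_pos hc
  have hl := w1.2.2
  obtain ⟨u, hu⟩ : ∃ u, u = A.cap c / (A.cap c + Y.cap c) := ⟨_, rfl⟩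
  have u0 : 0 < u := by rw [hu]; positivity
  have u1 : A.cap c = (A.cap c + Y.cap c) * u := by rw [hu]; field_simp
  have u2 : u ≤ 1 := by rw [hu, div_le_one (by positivity)]; linarith
  have hb : ∀ a Λ, Bd c n (ear A Y) a Λ =
      Bd c n A (a * u) Λ + (4 + 16 * n) * Y.wp c + 2 * Y.wt c := fun a Λ => by
    simp only [Bd, kk, cap, wb, wp, wt, len, hu]
    field_simp
    ring
  constructor
  · intro a Λ h1 h2 h3 h4
    simp only [cap, len] at h1 h3 h4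
    obtain ⟨σ, σ1, σ2, σ3⟩ := iA.1 (a * u) Λ h1 (by positivity) (by nlinarith) fun h => by
      nlinarith [h4 h]
    obtain ⟨τ, τ1, τ2, τ3, τ4⟩ := ear_cost hc hn w1.2.1 g.2 iY (σ1.dom s A.src_mem t A.tgt_mem)
    obtain ⟨ρ, r1, r2, r3, r4, -⟩ := glue2 (c := c) G w0.2.1 w0.2.2 σ1 τ1 τ2 τ3
    rw [← verts_ear] at r1
    refine ⟨ρ, r1, r2 ▸ σ2, ?_⟩
    rw [cost_ear, r3, r4, hb]
    nlinarith
  · intro a Λ p h1 h2 h3 hp
    simp only [cap, len] at h1 h2 h3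
    obtain ⟨σ, σ1, σ2, σ3, σ4⟩ := iA.2 (a * u) Λ p h1 (by nlinarith) (by nlinarith) hp
    obtain ⟨τ, τ1, τ2, τ3, τ4⟩ := ear_cost hc hn w1.2.1 g.2 iY hp
    obtain ⟨ρ, r1, r2, r3, r4, r5⟩ := glue2 (c := c) G w0.2.1 w0.2.2 σ1 τ1 (τ2.trans σ2.symm) τ3
    have r5 := r5 σ3
    rw [← verts_ear] at r1 r5
    refine ⟨ρ, r1, r2.trans σ2, r5, ?_⟩
    have p0 := dist_nonneg.trans hp
    have e1 : Y.cap c ≤ 2 * a * (1 - u) := by nlinarith
    have e2 := mul_le_mul_of_nonneg_right e1 p0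
    have e3 := mul_nonneg (mul_nonneg (show 0 ≤ a by linarith) (sub_nonneg.2 u2)) lA.le
    have e4 := mul_pos kB w1.2.1.len_pos
    rw [cost_ear, r3, r4, hb, len]
    linarith

theorem main (G : GlueStmt) (hc : ∀ e, 0 < c e) (hn : 0 ≤ n) (N : Net M s t) (w0 : N.Wf0)
    (w1 : N.Wf1 c) (g : N.Good c n) : IM c n N ∧ CM c n N := by
  induction N with
  | edge a b l => exact edge_case hc w0 w1
  | ser A B iA iB => exact ser_case G hc hn w0 w1 g (iA w0.1 w1.1 g.1) (iB w0.2.1 w1.2 g.2)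
  | par A B iA iB => exact par_case G hc w0 w1 (iA w0.1 w1.1 g.1) (iB w0.2.1 w1.2.1 g.2.1)
  | ear A B iA iB => exact ear_case G hc hn w0 w1 g (iA w0.1 w1.1 g.1) (iB w0.2.1 w1.2.1 g.2).2

end Upper

theorem upper_stmt (h : GlueStmt) : UpperStmt := by
  intro M _ _ c n s t N hc hn w0 w1 g
  have l0 := w1.len_pos
  obtain ⟨ρ, r1, -, r3⟩ := (Upper.main h hc hn N w0 w1 g).1 (N.cap c) N.len (by linarith)
    (N.cap_pos hc).le le_rfl fun h => absurd h (lt_irrefl _)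
  refine ⟨ρ, r1, r3.trans ?_⟩
  have e1 := mul_le_mul_of_nonneg_left (g.top hc hn w1 N.len) (N.cap_pos hc).le
  have e2 := w1.wb_pos hc
  have e3 := mul_le_mul_of_nonneg_left (show N.wp c ≤ 2 * N.wt c by linarith [w1.wp_wb_le hc])
    (show 0 ≤ 4 + 16 * n by linarith)
  have e4 := mul_le_mul_of_nonneg_left (w1.wt_le_cost hc) (show 0 ≤ 10 + 32 * n by linarith)
  simp only [Upper.Bd]
  linarith

end Pool.Agent.Lib.MP_b76e55_an.Sp
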