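import Pool.Agent.Lib.MP_b76e55_an.Sp.Defs

/-!
Basic facts on networks.
-/

namespace Pool.Agent.Lib.MP_b76e55_an.Sp

open Finset

namespace Net

variable {M : Type} {s t x : M} {c : M × M → ℝ}

section comb
variable [DecidableEq M]

theorem mem_verts {N : Net M s t} {y : M} : y ∈ N.verts ↔ y = s ∨ y = t ∨ y ∈ N.inn := by
  simp [verts]

theorem src_mem (N : Net M s t) : s ∈ N.verts := by simp [verts]

theorem tgt_mem (N : Net M s t) : t ∈ N.verts := by simp [verts]

theorem inn_mem {N : Net M s t} {y : M} (h : y ∈ N.inn) : y ∈ N.verts := by simp [verts, h]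

theorem verts_edge (a b : M) (l : ℝ) : (edge a b l).verts = {a, b} := by simp [verts, inn]

theorem verts_ser (A : Net M s x) (B : Net M x t) : (ser A B).verts = A.verts ∪ B.verts := by
  ext y
  simp only [mem_verts, inn, mem_union, mem_insert]
  tauto

theorem verts_par (A B : Net M s t) : (par A B).verts = A.verts ∪ B.verts := by
  ext y
  simp only [mem_verts, inn, mem_union]
  tauto

theorem verts_ear (A B : Net M s t) : (ear A B).verts = A.verts ∪ B.verts := by
  ext y
  simp only [mem_verts, inn, mem_union]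
  tauto

theorem Wf0.terms {N : Net M s t} (h : N.Wf0) : s ≠ t ∧ s ∉ N.inn ∧ t ∉ N.inn := by
  induction N with
  | edge a b l => exact ⟨h, by simp [inn], by simp [inn]⟩
  | ser A B iA iB =>
    obtain ⟨hA, hB, hx⟩ := h
    obtain ⟨a1, a2, a3⟩ := iA hA
    obtain ⟨b1, b2, b3⟩ := iB hB
    refine ⟨fun e => a1 (hx _ A.src_mem (e ▸ B.tgt_mem)), ?_, ?_⟩
    · simp only [inn, mem_insert, mem_union, not_or]
      exact ⟨a1, a2, fun e => a1 (hx _ A.src_mem (inn_mem e))⟩
    · simp only [inn, mem_insert, mem_union, not_or]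
      exact ⟨b1.symm, fun e => b1 (hx _ (inn_mem e) B.tgt_mem).symm, b3⟩
  | par A B iA iB =>
    obtain ⟨a1, a2, a3⟩ := iA h.1
    obtain ⟨-, b2, b3⟩ := iB h.2.1
    simp [inn, *]
  | ear A B iA iB =>
    obtain ⟨a1, a2, a3⟩ := iA h.1
    obtain ⟨-, b2, b3⟩ := iB h.2.1
    simp [inn, *]

theorem Wf0.ne {N : Net M s t} (h : N.Wf0) : s ≠ t := h.terms.1

theorem Wf0.src_not {N : Net M s t} (h : N.Wf0) : s ∉ N.inn := h.terms.2.1

theorem Wf0.tgt_not {N : Net M s t} (h : N.Wf0) : t ∉ N.inn := h.terms.2.2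

theorem ser_left {A : Net M s x} {B : Net M x t} (h : (ser A B).Wf0) {y : M} (hy : y ∈ A.verts) :
    y ∉ B.inn := fun e => h.2.1.src_not (h.2.2 y hy (inn_mem e) ▸ e)

theorem ser_right {A : Net M s x} {B : Net M x t} (h : (ser A B).Wf0) {y : M} (hy : y ∈ B.verts) :
    y ∉ A.inn := fun e => h.1.tgt_not (h.2.2 y (inn_mem e) hy ▸ e)

/-- For two networks with the same terminals and disjoint interiors. -/
theorem not_inn {A B : Net M s t} (hB : B.Wf0) (h : Disjoint A.inn B.inn) {y : M}
    (hy : y ∈ A.verts) : y ∉ B.inn := fun e => by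
  rcases mem_verts.1 hy with rfl | rfl | hy
  exacts [hB.src_not e, hB.tgt_not e, disjoint_left.1 h hy e]

theorem inter_terms {A B : Net M s t} (hB : B.Wf0) (h : Disjoint A.inn B.inn) :
    ∀ y ∈ A.verts, y ∈ B.verts → y = s ∨ y = t := fun y hy hy' => by
  rcases mem_verts.1 hy' with e | e | e
  exacts [Or.inl e, Or.inr e, absurd e (not_inn hB h hy)]

theorem ends_mem {N : Net M s t} {e : M × M} (h : e ∈ N.ends) : e.1 ∈ N.verts ∧ e.2 ∈ N.verts := by
  induction N with
  | edge a b l =>
    obtain rfl : e = (a, b) := by simpa [ends] using h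
    simp [verts]
  | ser A B iA iB =>
    rw [verts_ser]
    rcases Multiset.mem_add.1 h with h | h
    exacts [⟨mem_union_left _ (iA h).1, mem_union_left _ (iA h).2⟩,
      ⟨mem_union_right _ (iB h).1, mem_union_right _ (iB h).2⟩]
  | par A B iA iB =>
    rw [verts_par]
    rcases Multiset.mem_add.1 h with h | h
    exacts [⟨mem_union_left _ (iA h).1, mem_union_left _ (iA h).2⟩,
      ⟨mem_union_right _ (iB h).1, mem_union_right _ (iB h).2⟩]
  | ear A B iA iB =>
    rw [verts_ear]
    rcases Multiset.mem_add.1 h with h | h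
    exacts [⟨mem_union_left _ (iA h).1, mem_union_left _ (iA h).2⟩,
      ⟨mem_union_right _ (iB h).1, mem_union_right _ (iB h).2⟩]

theorem Wf0.ends_ne {N : Net M s t} (w : N.Wf0) {e : M × M} (h : e ∈ N.ends) : e.1 ≠ e.2 := by
  induction N with
  | edge a b l =>
    obtain rfl : e = (a, b) := by simpa [ends] using h
    exact w
  | ser A B iA iB => exact (Multiset.mem_add.1 h).elim (iA w.1) (iB w.2.1)
  | par A B iA iB => exact (Multiset.mem_add.1 h).elim (iA w.1) (iB w.2.1)
  | ear A B iA iB => exact (Multiset.mem_add.1 h).elim (iA w.1) (iB w.2.1)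

theorem Lip.congr {N : Net M s t} {g g' : M → ℝ} (h : N.Lip g) (e : ∀ y ∈ N.verts, g y = g' y) :
    N.Lip g' := by
  induction N with
  | edge a b l =>
    rw [Lip, ← e a (src_mem _), ← e b (tgt_mem _)]
    exact h
  | ser A B iA iB =>
    rw [verts_ser] at e
    exact ⟨iA h.1 fun y hy => e y (mem_union_left _ hy), iB h.2 fun y hy => e y (mem_union_right _ hy)⟩
  | par A B iA iB =>
    rw [verts_par] at e
    exact ⟨iA h.1 fun y hy => e y (mem_union_left _ hy), iB h.2 fun y hy => e y (mem_union_right _ hy)⟩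
  | ear A B iA iB =>
    rw [verts_ear] at e
    exact ⟨iA h.1 fun y hy => e y (mem_union_left _ hy), iB h.2 fun y hy => e y (mem_union_right _ hy)⟩

theorem cost_congr {N : Net M s t} {ρ ρ' : M → M → ℝ}
    (e : ∀ y ∈ N.verts, ∀ z ∈ N.verts, ρ y z = ρ' y z) : N.cost c ρ = N.cost c ρ' := by
  unfold cost
  congr 1
  exact Multiset.map_congr rfl fun p hp => by rw [e _ (ends_mem hp).1 _ (ends_mem hp).2]

theorem avg_congr {N : Net M s t} {F F' : M → ℝ} (e : ∀ y ∈ N.verts, F y = F' y) :
    N.avg c F = N.avg c F' := by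
  induction N with
  | edge a b l => rw [avg, avg, e b (tgt_mem _)]
  | ser A B iA iB =>
    rw [verts_ser] at e
    rw [avg, avg, iA fun y hy => e y (mem_union_left _ hy),
      iB fun y hy => e y (mem_union_right _ hy)]
  | par A B iA iB =>
    rw [verts_par] at e
    rw [avg, avg, iA fun y hy => e y (mem_union_left _ hy),
      iB fun y hy => e y (mem_union_right _ hy)]
  | ear A B iA iB =>
    rw [avg, avg, e _ (tgt_mem _)]
    rw [verts_ear] at e
    rw [iA fun y hy => e y (mem_union_left _ hy)]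

end comb

theorem cost_edge (ρ : M → M → ℝ) (a b : M) (l : ℝ) : (edge a b l).cost c ρ = c (a, b) * ρ a b := by
  simp [cost, ends]

theorem cost_ser (ρ : M → M → ℝ) (A : Net M s x) (B : Net M x t) :
    (ser A B).cost c ρ = A.cost c ρ + B.cost c ρ := by simp [cost, ends]

theorem cost_par (ρ : M → M → ℝ) (A B : Net M s t) :
    (par A B).cost c ρ = A.cost c ρ + B.cost c ρ := by simp [cost, ends]

theorem cost_ear (ρ : M → M → ℝ) (A B : Net M s t) :
    (ear A B).cost c ρ = A.cost c ρ + B.cost c ρ := by simp [cost, ends]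

/-- Composition of a leafwise Lipschitz function with a contraction. -/
theorem Lip.comp {N : Net M s t} {g g' : M → ℝ} (h : N.Lip g)
    (e : ∀ y z, |g' y - g' z| ≤ |g y - g z|) : N.Lip g' := by
  induction N with
  | edge a b l => exact (e a b).trans h
  | ser A B iA iB => exact ⟨iA h.1, iB h.2⟩
  | par A B iA iB => exact ⟨iA h.1, iB h.2⟩
  | ear A B iA iB => exact ⟨iA h.1, iB h.2⟩

theorem cap_pos (hc : ∀ e, 0 < c e) (N : Net M s t) : 0 < N.cap c := by
  induction N with
  | edge a b l => exact hc _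
  | ser A B iA iB => exact lt_min iA iB
  | par A B iA iB => exact add_pos iA iB
  | ear A B iA iB => exact add_pos iA iB

theorem avg_add (N : Net M s t) (F G : M → ℝ) :
    N.avg c (fun y => F y + G y) = N.avg c F + N.avg c G := by
  induction N with
  | edge a b l => simp only [avg]; ring
  | ser A B iA iB => simp only [avg, iA, iB]; ring
  | par A B iA iB => simp only [avg, iA, iB]; ring
  | ear A B iA iB => simp only [avg, iA]; ring

theorem avg_mul (N : Net M s t) (r : ℝ) (F : M → ℝ) :
    N.avg c (fun y => r * F y) = r * N.avg c F := by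
  induction N with
  | edge a b l => simp only [avg]; ring
  | ser A B iA iB => simp only [avg, iA, iB]; ring
  | par A B iA iB => simp only [avg, iA, iB]; ring
  | ear A B iA iB => simp only [avg, iA]; ring

theorem avg_sum {ι : Type*} (N : Net M s t) (I : Finset ι) (F : ι → M → ℝ) :
    N.avg c (fun y => ∑ i ∈ I, F i y) = ∑ i ∈ I, N.avg c (F i) := by
  classical
  induction I using Finset.induction_on with
  | empty => simpa using N.avg_mul (c := c) 0 fun _ => 0
  | insert i I hi ih => simp only [sum_insert hi, avg_add, ih]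

/-- `avg` is integration against the weights `avg (Pi.single x 1)`. -/
theorem avg_eq_sum [Fintype M] [DecidableEq M] (N : Net M s t) (F : M → ℝ) :
    ∑ y, N.avg c (Pi.single y 1) * F y = N.avg c F := by
  simp only [mul_comm _ (F _), ← avg_mul, ← avg_sum]
  congr 1
  ext z
  simp [Pi.single_apply]

theorem sq_nonneg (hc : ∀ e, 0 < c e) (N : Net M s t) : 0 ≤ N.sq c := by
  induction N with
  | edge a b l => exact _root_.sq_nonneg l
  | ser A B iA iB => exact add_nonneg iA iB
  | par A B iA iB =>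
    have := A.cap_pos hc
    have := B.cap_pos hc
    rw [sq]
    positivity
  | ear A B iA iB =>
    have := A.cap_pos hc
    have := B.cap_pos hc
    rw [sq]
    positivity

theorem kk_nonneg (hc : ∀ e, 0 < c e) (N : Net M s t) (Λ : ℝ) : 0 ≤ N.kk c Λ := by
  induction N generalizing Λ with
  | edge a b l => exact le_rfl
  | ser A B iA iB => exact add_nonneg (iA _) (iB _)
  | par A B iA iB =>
    have := A.cap_pos hc
    have := B.cap_pos hc
    have := iA Λ
    have := (iB Λ).trans (le_max_left _ (if A.len ≤ Λ then A.len + B.kk c (A.len / 2) else 0))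
    rw [kk]
    positivity
  | ear A B iA iB =>
    have := A.cap_pos hc
    have := B.cap_pos hc
    have := iA Λ
    rw [kk]
    positivity

theorem kk_mono (hc : ∀ e, 0 < c e) (N : Net M s t) {Λ Λ' : ℝ} (h : Λ ≤ Λ') :
    N.kk c Λ ≤ N.kk c Λ' := by
  induction N with
  | edge a b l => exact le_rfl
  | ser A B iA iB => exact add_le_add iA iB
  | par A B iA iB =>
    have := A.cap_pos hc
    have := B.cap_pos hc
    have e : max (B.kk c Λ) (if A.len ≤ Λ then A.len + B.kk c (A.len / 2) else 0) ≤
        max (B.kk c Λ') (if A.len ≤ Λ' then A.len + B.kk c (A.len / 2) else 0) := by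
      by_cases h1 : A.len ≤ Λ
      · rw [if_pos h1, if_pos (h1.trans h)]
        exact max_le_max iB le_rfl
      · rw [if_neg h1, max_eq_left (B.kk_nonneg hc Λ)]
        exact iB.trans (le_max_left _ _)
    rw [kk, kk]
    gcongr
  | ear A B iA iB =>
    have := A.cap_pos hc
    have := B.cap_pos hc
    rw [kk, kk]
    gcongr

theorem tt_nonneg (hc : ∀ e, 0 < c e) (N : Net M s t) (Λ : ℝ) (j : ℕ) : 0 ≤ N.tt c Λ j := by
  induction N generalizing Λ j with
  | edge a b l => exact le_rfl
  | ser A B iA iB => exact add_nonneg (iA _ _) (iB _ _)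
  | par A B iA iB =>
    have := A.cap_pos hc
    have := B.cap_pos hc
    have := iA Λ j
    have := (iB Λ j).trans (le_max_left _
      (if A.len ≤ Λ ∧ j ≠ 0 then A.len + B.tt c (A.len / 2) (j - 1) else 0))
    rw [tt]
    positivity
  | ear A B iA iB =>
    have := A.cap_pos hc
    have := B.cap_pos hc
    have := iA Λ j
    rw [tt]
    positivity

theorem chi_ge [DecidableEq M] (hc : ∀ e, 0 < c e) (N : Net M s t) (S : Finset M) :
    |ind S s - ind S t| ≤ N.chi c S := by
  induction N with
  | edge a b l => exact le_rfl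
  | ser A B iA iB => exact (abs_sub_le _ _ _).trans (add_le_add iA iB)
  | par A B iA iB =>
    have := A.cap_pos hc
    have := B.cap_pos hc
    rw [chi, le_div_iff₀ (by positivity)]
    nlinarith
  | ear A B iA iB =>
    have := A.cap_pos hc
    have := B.cap_pos hc
    rw [chi, le_div_iff₀ (by positivity)]
    nlinarith

theorem chi_nonneg [DecidableEq M] (hc : ∀ e, 0 < c e) (N : Net M s t) (S : Finset M) :
    0 ≤ N.chi c S := (abs_nonneg _).trans (N.chi_ge hc S)

section metric
variable [MetricSpace M]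

theorem Wf1.len_pos {N : Net M s t} (h : N.Wf1 c) : 0 < N.len := by
  induction N with
  | edge a b l => exact h.1
  | ser A B iA iB => exact add_pos (iA h.1) (iB h.2)
  | par A B iA iB => exact iA h.1
  | ear A B iA iB => exact iA h.1

theorem Wf1.dist_le {N : Net M s t} (h : N.Wf1 c) : dist s t ≤ 2 * N.len := by
  induction N with
  | edge a b l => exact h.2.2
  | ser A B iA iB =>
    rw [len, mul_add]
    exact (dist_triangle _ _ _).trans (add_le_add (iA h.1) (iB h.2))
  | par A B iA iB => exact iA h.1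
  | ear A B iA iB => exact iA h.1

theorem Wf1.lip_const {N : Net M s t} (h : N.Wf1 c) (r : ℝ) : N.Lip fun _ => r := by
  induction N with
  | edge a b l => simpa [Lip] using h.1.le
  | ser A B iA iB => exact ⟨iA h.1, iB h.2⟩
  | par A B iA iB => exact ⟨iA h.1, iB h.2.1⟩
  | ear A B iA iB => exact ⟨iA h.1, iB h.2.1⟩

theorem Wf1.lip_zero [DecidableEq M] {N : Net M s t} (h : N.Wf1 c) {g : M → ℝ}
    (e : ∀ y ∈ N.verts, g y = 0) : N.Lip g := (h.lip_const 0).congr fun y hy => (e y hy).symm

theorem Lip.ends {N : Net M s t} {g : M → ℝ} (h : N.Lip g) (w : N.Wf1 c) {e : M × M}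
    (he : e ∈ N.ends) : |g e.1 - g e.2| ≤ dist e.1 e.2 := by
  induction N with
  | edge a b l =>
    obtain rfl : e = (a, b) := by simpa [Net.ends] using he
    exact le_trans h w.2.1
  | ser A B iA iB => exact (Multiset.mem_add.1 he).elim (iA h.1 w.1) (iB h.2 w.2)
  | par A B iA iB => exact (Multiset.mem_add.1 he).elim (iA h.1 w.1) (iB h.2 w.2.1)
  | ear A B iA iB => exact (Multiset.mem_add.1 he).elim (iA h.1 w.1) (iB h.2 w.2.1)

theorem Wf1.cap_len_le (hc : ∀ e, 0 < c e) {N : Net M s t} (h : N.Wf1 c) :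
    N.cap c * N.len ≤ N.wb c := by
  induction N with
  | edge a b l => exact le_rfl
  | ser A B iA iB =>
    have := iA h.1
    have := iB h.2
    have := mul_le_mul_of_nonneg_right (min_le_left (A.cap c) (B.cap c)) h.1.len_pos.le
    have := mul_le_mul_of_nonneg_right (min_le_right (A.cap c) (B.cap c)) h.2.len_pos.le
    simp only [cap, len, wb]
    linarith
  | par A B iA iB =>
    have := iA h.1
    have := iB h.2.1
    simp only [cap, len, wb]
    rw [← h.2.2.1] at this
    linarith
  | ear A B iA iB =>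
    have := iA h.1
    simp only [cap, len, wb]
    linarith

theorem Wf1.wb_pos (hc : ∀ e, 0 < c e) {N : Net M s t} (h : N.Wf1 c) : 0 < N.wb c :=
  (mul_pos (N.cap_pos hc) h.len_pos).trans_le (h.cap_len_le hc)

theorem Wf1.wb_le_wp (hc : ∀ e, 0 < c e) {N : Net M s t} (h : N.Wf1 c) : N.wb c ≤ N.wp c := by
  induction N with
  | edge a b l => exact le_rfl
  | ser A B iA iB => exact add_le_add (iA h.1) (iB h.2)
  | par A B iA iB => exact add_le_add (iA h.1) (iB h.2.1)
  | ear A B iA iB =>
    have := iA h.1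
    have := iB h.2.1
    have := h.2.1.wb_pos hc
    simp only [wb, wp]
    linarith

theorem Wf1.wp_wb_le (hc : ∀ e, 0 < c e) {N : Net M s t} (h : N.Wf1 c) :
    N.wp c + N.wb c ≤ 2 * N.wt c := by
  induction N with
  | edge a b l => simp only [wp, wb, wt]; linarith
  | ser A B iA iB => simp only [wp, wb, wt]; linarith [iA h.1, iB h.2]
  | par A B iA iB => simp only [wp, wb, wt]; linarith [iA h.1, iB h.2.1]
  | ear A B iA iB =>
    have := h.2.1.cap_len_le hc
    have := mul_le_mul_of_nonneg_left h.2.2 (B.cap_pos hc).le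
    simp only [wp, wb, wt]
    linarith [iA h.1, iB h.2.1]

theorem Wf1.wt_le_cost (hc : ∀ e, 0 < c e) {N : Net M s t} (h : N.Wf1 c) :
    N.wt c ≤ N.cost c dist := by
  induction N with
  | edge a b l =>
    rw [cost_edge]
    exact mul_le_mul_of_nonneg_left h.2.1 (hc _).le
  | ser A B iA iB => rw [cost_ser]; exact add_le_add (iA h.1) (iB h.2)
  | par A B iA iB => rw [cost_par]; exact add_le_add (iA h.1) (iB h.2.1)
  | ear A B iA iB => rw [cost_ear]; exact add_le_add (iA h.1) (iB h.2.1)

theorem Wf1.kk_eq {N : Net M s t} (h : N.Wf1 c) {Λ Λ' : ℝ} (h1 : N.len ≤ Λ) (h2 : N.len ≤ Λ') :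
    N.kk c Λ = N.kk c Λ' := by
  induction N with
  | edge a b l => rfl
  | ser A B iA iB =>
    have := h.1.len_pos
    have := h.2.len_pos
    simp only [len] at h1 h2
    rw [kk, kk, iA h.1 (by linarith) (by linarith), iB h.2 (by linarith) (by linarith)]
  | par A B iA iB =>
    simp only [len] at h1 h2
    rw [kk, kk, iA h.1 h1 h2, iB h.2.1 (h.2.2.1 ▸ h1) (h.2.2.1 ▸ h2), if_pos h1, if_pos h2]
  | ear A B iA iB => rw [kk, kk, iA h.1 h1 h2]

theorem Wf1.kk_le (hc : ∀ e, 0 < c e) {N : Net M s t} (h : N.Wf1 c) (Λ : ℝ) :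
    N.kk c Λ ≤ N.kk c N.len := by
  rcases le_total Λ N.len with e | e
  exacts [N.kk_mono hc e, (h.kk_eq e le_rfl).le]

theorem Good.top (hc : ∀ e, 0 < c e) {n : ℝ} (hn : 0 ≤ n) {N : Net M s t} (g : N.Good c n)
    (h : N.Wf1 c) (Λ : ℝ) : N.kk c Λ ≤ n * N.len := by
  induction N with
  | edge a b l => exact mul_nonneg hn h.1.le
  | ser A B iA iB =>
    rw [kk, len, mul_add]
    exact add_le_add (iA g.1 h.1) (iB g.2 h.2)
  | par A B iA iB => exact (h.kk_le hc Λ).trans g.2.2
  | ear A B iA iB =>
    have := A.cap_pos hc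
    have := B.cap_pos hc
    have := iA g.1 h.1
    have := mul_nonneg hn h.1.len_pos.le
    rw [kk, len, div_le_iff₀ (by positivity)]
    nlinarith

theorem Wf1.avg_const (hc : ∀ e, 0 < c e) {N : Net M s t} (h : N.Wf1 c) (r : ℝ) :
    N.avg c (fun _ => r) = N.len * r := by
  induction N with
  | edge a b l => rfl
  | ser A B iA iB => rw [avg, iA h.1, iB h.2, len, add_mul]
  | par A B iA iB =>
    have := A.cap_pos hc
    have := B.cap_pos hc
    rw [avg, iA h.1, iB h.2.1, len, ← h.2.2.1]
    field_simp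
  | ear A B iA iB =>
    have := A.cap_pos hc
    have := B.cap_pos hc
    rw [avg, iA h.1, len]
    field_simp

theorem Wf1.avg_mono (hc : ∀ e, 0 < c e) {N : Net M s t} (h : N.Wf1 c) {F G : M → ℝ}
    (e : ∀ y, F y ≤ G y) : N.avg c F ≤ N.avg c G := by
  induction N with
  | edge a b l => exact mul_le_mul_of_nonneg_left (e _) h.1.le
  | ser A B iA iB => exact add_le_add (iA h.1) (iB h.2)
  | par A B iA iB =>
    have := A.cap_pos hc
    have := B.cap_pos hc
    have := iA h.1
    have := iB h.2.1
    rw [avg, avg]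
    gcongr
  | ear A B iA iB =>
    have := A.cap_pos hc
    have := B.cap_pos hc
    have := iA h.1
    have := h.1.len_pos
    rw [avg, avg]
    gcongr
    exact e _

theorem Wf1.sq_le (hc : ∀ e, 0 < c e) {N : Net M s t} (h : N.Wf1 c) : N.sq c ≤ N.len ^ 2 := by
  induction N with
  | edge a b l => exact le_rfl
  | ser A B iA iB =>
    have := mul_pos h.1.len_pos h.2.len_pos
    simp only [sq, len]
    nlinarith [iA h.1, iB h.2]
  | par A B iA iB =>
    have := A.cap_pos hc
    have := B.cap_pos hc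
    have := iA h.1
    have := iB h.2.1
    rw [← h.2.2.1] at this
    rw [sq, len, div_le_iff₀ (by positivity)]
    nlinarith
  | ear A B iA iB =>
    have := A.cap_pos hc
    have := B.cap_pos hc
    have := iA h.1
    rw [sq, len, div_le_iff₀ (by positivity)]
    nlinarith

variable [DecidableEq M]

theorem Wf1.abs_le_len (hc : ∀ e, 0 < c e) {N : Net M s t} (h : N.Wf1 c) (S : Finset M) :
    |N.avg c (ind S) - N.len * ind S t| ≤ N.len := by
  have h0 := h.avg_mono hc (F := fun _ => 0) (G := ind S) fun y => by unfold ind; positivity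
  have h1 := h.avg_mono hc (F := ind S) (G := fun _ => 1) fun y => by
    unfold ind; split_ifs <;> norm_num
  rw [h.avg_const hc] at h0 h1
  have := h.len_pos
  rw [abs_le]
  unfold ind at *
  split_ifs <;> constructor <;> linarith

theorem Wf1.abs_le_chi (hc : ∀ e, 0 < c e) {N : Net M s t} (h : N.Wf1 c) (S : Finset M) :
    |N.avg c (ind S) - N.len * ind S t| ≤ N.len * N.chi c S := by
  induction N with
  | edge a b l =>
    have := h.1
    simp only [avg, len, chi, sub_self, abs_zero]
    positivity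
  | @ser s x t A B iA iB =>
    have a := abs_le.1 (iA h.1)
    have b := abs_le.1 (iB h.2)
    have d := abs_le.1 (B.chi_ge hc S)
    have := h.1.len_pos
    have := mul_nonneg h.2.len_pos.le (A.chi_nonneg hc S)
    simp only [avg, len, chi]
    rw [abs_le]
    constructor <;> nlinarith [a.1, a.2, b.1, b.2, d.1, d.2]
  | @par s t A B iA iB =>
    have := A.cap_pos hc
    have := B.cap_pos hc
    have a := abs_le.1 (iA h.1)
    have b := abs_le.1 (iB h.2.1)
    rw [← h.2.2.1] at b
    simp only [avg, len, chi]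
    rw [div_sub' (by positivity), abs_div, abs_of_pos (a := A.cap c + B.cap c) (by positivity),
      ← mul_div_assoc]
    gcongr
    rw [abs_le]
    constructor <;> nlinarith [a.1, a.2, b.1, b.2]
  | @ear s t A B iA iB =>
    have := A.cap_pos hc
    have := B.cap_pos hc
    have a := abs_le.1 (iA h.1)
    have := mul_nonneg (mul_pos this h.1.len_pos).le (abs_nonneg (ind S s - ind S t))
    simp only [avg, len, chi]
    rw [div_sub' (by positivity), abs_div, abs_of_pos (a := A.cap c + B.cap c) (by positivity),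
      ← mul_div_assoc]
    gcongr
    rw [abs_le]
    constructor <;> nlinarith [a.1, a.2]

theorem Ext.ser {A : Net M s x} {B : Net M x t} (h : (ser A B).Ext) (w0 : (ser A B).Wf0)
    (w1 : (ser A B).Wf1 c) : A.Ext ∧ B.Ext :=
  ⟨fun g g0 gl => h g (fun y hy => g0 y fun e => hy (by simp [inn, e]))
    ⟨gl, w1.2.lip_zero fun y hy => g0 y (ser_right w0 hy)⟩,
  fun g g0 gl => h g (fun y hy => g0 y fun e => hy (by simp [inn, e]))
    ⟨w1.1.lip_zero fun y hy => g0 y (ser_left w0 hy), gl⟩⟩

theorem Ext.par {A B : Net M s t} (h : (par A B).Ext) (w0 : (par A B).Wf0)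
    (w1 : (par A B).Wf1 c) : A.Ext ∧ B.Ext :=
  ⟨fun g g0 gl => h g (fun y hy => g0 y fun e => hy (by simp [inn, e]))
    ⟨gl, w1.2.1.lip_zero fun y hy => g0 y (not_inn w0.1 w0.2.2.symm hy)⟩,
  fun g g0 gl => h g (fun y hy => g0 y fun e => hy (by simp [inn, e]))
    ⟨w1.1.lip_zero fun y hy => g0 y (not_inn w0.2.1 w0.2.2 hy), gl⟩⟩

theorem Ext.ear {A B : Net M s t} (h : (ear A B).Ext) (w0 : (ear A B).Wf0)
    (w1 : (ear A B).Wf1 c) : A.Ext ∧ B.Ext :=
  ⟨fun g g0 gl => h g (fun y hy => g0 y fun e => hy (by simp [inn, e]))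
    ⟨gl, w1.2.1.lip_zero fun y hy => g0 y (not_inn w0.1 w0.2.2.symm hy)⟩,
  fun g g0 gl => h g (fun y hy => g0 y fun e => hy (by simp [inn, e]))
    ⟨w1.1.lip_zero fun y hy => g0 y (not_inn w0.2.1 w0.2.2 hy), gl⟩⟩

end metric

end Net

end Pool.Agent.Lib.MP_b76e55_an.Sp
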