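import Pool.Agent.Lib.MP_b76e55_an.Cut

/-!
Two-terminal series-parallel networks with ears, the potentials on them, and the statements of the
steps of the proof.
-/

namespace Pool.Agent.Lib.MP_b76e55_an.Sp

open Finset

/-- Two-terminal networks. -/
inductive Net (M : Type) : M → M → Type
  | edge (a b : M) (l : ℝ) : Net M a b
  | ser {s x t : M} (A : Net M s x) (B : Net M x t) : Net M s t
  | par {s t : M} (A B : Net M s t) : Net M s t
  | ear {s t : M} (A Y : Net M s t) : Net M s t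

namespace Net

noncomputable section

variable {M : Type}

/-- Nominal length. -/
def len : {s t : M} → Net M s t → ℝ
  | _, _, edge _ _ l => l
  | _, _, ser A B => len A + len B
  | _, _, par A _ => len A
  | _, _, ear A _ => len A

/-- Minimum cut capacity between the terminals. -/
def cap (c : M × M → ℝ) : {s t : M} → Net M s t → ℝ
  | _, _, edge a b _ => c (a, b)
  | _, _, ser A B => min (cap c A) (cap c B)
  | _, _, par A B => cap c A + cap c B
  | _, _, ear A Y => cap c A + cap c Y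

/-- Total weight. -/
def wt (c : M × M → ℝ) : {s t : M} → Net M s t → ℝ
  | _, _, edge a b l => c (a, b) * l
  | _, _, ser A B => wt c A + wt c B
  | _, _, par A B => wt c A + wt c B
  | _, _, ear A Y => wt c A + wt c Y

/-- Weight of the backbone, ears replaced by virtual edges. -/
def wb (c : M × M → ℝ) : {s t : M} → Net M s t → ℝ
  | _, _, edge a b l => c (a, b) * l
  | _, _, ser A B => wb c A + wb c B
  | _, _, par A B => wb c A + wb c B
  | _, _, ear A Y => wb c A + cap c Y * len A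

/-- Weight including all virtual edges. -/
def wp (c : M × M → ℝ) : {s t : M} → Net M s t → ℝ
  | _, _, edge a b l => c (a, b) * l
  | _, _, ser A B => wp c A + wp c B
  | _, _, par A B => wp c A + wp c B
  | _, _, ear A Y => wp c A + wp c Y + cap c Y * len A

/-- The ordered end pairs of the leaves. -/
def ends : {s t : M} → Net M s t → Multiset (M × M)
  | _, _, edge a b _ => {(a, b)}
  | _, _, ser A B => ends A + ends B
  | _, _, par A B => ends A + ends B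
  | _, _, ear A Y => ends A + ends Y

/-- Cost of `ρ` on the leaves. -/
def cost (c : M × M → ℝ) (ρ : M → M → ℝ) {s t : M} (N : Net M s t) : ℝ :=
  (N.ends.map fun e => c e * ρ e.1 e.2).sum

/-- Interior vertices. -/
def inn [DecidableEq M] : {s t : M} → Net M s t → Finset M
  | _, _, edge _ _ _ => ∅
  | _, _, ser (x := x) A B => insert x (inn A ∪ inn B)
  | _, _, par A B => inn A ∪ inn B
  | _, _, ear A Y => inn A ∪ inn Y

/-- All vertices. -/
def verts [DecidableEq M] {s t : M} (N : Net M s t) : Finset M := insert s (insert t N.inn)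

/-- Combinatorial well-formedness. -/
def Wf0 [DecidableEq M] : {s t : M} → Net M s t → Prop
  | _, _, edge a b _ => a ≠ b
  | _, _, ser (x := x) A B => Wf0 A ∧ Wf0 B ∧ ∀ y ∈ verts A, y ∈ verts B → y = x
  | _, _, par A B => Wf0 A ∧ Wf0 B ∧ Disjoint (inn A) (inn B)
  | _, _, ear A Y => Wf0 A ∧ Wf0 Y ∧ Disjoint (inn A) (inn Y)

/-- Metric normalisation. -/
def Wf1 [MetricSpace M] (c : M × M → ℝ) : {s t : M} → Net M s t → Prop
  | _, _, edge a b l => 0 < l ∧ l ≤ dist a b ∧ dist a b ≤ 2 * l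
  | _, _, ser A B => Wf1 c A ∧ Wf1 c B
  | _, _, par A B => Wf1 c A ∧ Wf1 c B ∧ len A = len B ∧ cap c B ≤ cap c A
  | _, _, ear A Y => Wf1 c A ∧ Wf1 c Y ∧ 2 * len A ≤ len Y

/-- The potential controlling the cost of the tree. -/
def kk (c : M × M → ℝ) : {s t : M} → Net M s t → ℝ → ℝ
  | _, _, edge _ _ _, _ => 0
  | _, _, ser A B, Λ => kk c A Λ + kk c B Λ
  | _, _, par A B, Λ => (cap c A * kk c A Λ + cap c B * max (kk c B Λ)
      (if len A ≤ Λ then len A + kk c B (len A / 2) else 0)) / (cap c A + cap c B)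
  | _, _, ear A Y, Λ => cap c A * kk c A Λ / (cap c A + cap c Y)

/-- The potential truncated at depth `j`. -/
def tt (c : M × M → ℝ) : {s t : M} → Net M s t → ℝ → ℕ → ℝ
  | _, _, edge _ _ _, _, _ => 0
  | _, _, ser A B, Λ, j => tt c A Λ j + tt c B Λ j
  | _, _, par A B, Λ, j => (cap c A * tt c A Λ j + cap c B * max (tt c B Λ j)
      (if len A ≤ Λ ∧ j ≠ 0 then len A + tt c B (len A / 2) (j - 1) else 0)) / (cap c A + cap c B)
  | _, _, ear A Y, Λ, j => cap c A * tt c A Λ j / (cap c A + cap c Y)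

/-- All subnetworks have potential at most `n` times their length. -/
def Good (c : M × M → ℝ) (n : ℝ) : {s t : M} → Net M s t → Prop
  | _, _, edge _ _ _ => True
  | _, _, ser A B => Good c n A ∧ Good c n B
  | _, _, par A B => Good c n A ∧ Good c n B ∧ kk c (par A B) (len A) ≤ n * len A
  | _, _, ear A Y => Good c n A ∧ Good c n Y

/-- `g` changes by at most the nominal length along each leaf. -/
def Lip (g : M → ℝ) : {s t : M} → Net M s t → Prop
  | _, _, edge a b l => |g a - g b| ≤ l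
  | _, _, ser A B => Lip g A ∧ Lip g B
  | _, _, par A B => Lip g A ∧ Lip g B
  | _, _, ear A Y => Lip g A ∧ Lip g Y

/-- Functions supported in the interior and Lipschitz on the leaves are Lipschitz. -/
def Ext [DecidableEq M] [MetricSpace M] {s t : M} (N : Net M s t) : Prop :=
  ∀ g : M → ℝ, (∀ x, x ∉ N.inn → g x = 0) → N.Lip g → ∀ x y, g x - g y ≤ dist x y

/-- Expected value of the length-weighted sum of `F` over the heads of a random backbone path. -/
def avg (c : M × M → ℝ) (F : M → ℝ) : {s t : M} → Net M s t → ℝ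
  | _, _, edge _ b l => l * F b
  | _, _, ser A B => avg c F A + avg c F B
  | _, _, par A B => (cap c A * avg c F A + cap c B * avg c F B) / (cap c A + cap c B)
  | _, t, ear A Y => (cap c A * avg c F A + cap c Y * (len A * F t)) / (cap c A + cap c Y)

/-- Expected sum of the squared lengths along a random backbone path. -/
def sq (c : M × M → ℝ) : {s t : M} → Net M s t → ℝ
  | _, _, edge _ _ l => l ^ 2
  | _, _, ser A B => sq c A + sq c B
  | _, _, par A B => (cap c A * sq c A + cap c B * sq c B) / (cap c A + cap c B)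
  | _, _, ear A Y => (cap c A * sq c A + cap c Y * len A ^ 2) / (cap c A + cap c Y)

/-- Expected number of crossings of `S` by a random backbone path. -/
def chi [DecidableEq M] (c : M × M → ℝ) (S : Finset M) : {s t : M} → Net M s t → ℝ
  | _, _, edge a b _ => |ind S a - ind S b|
  | _, _, ser A B => chi c S A + chi c S B
  | _, _, par A B => (cap c A * chi c S A + cap c B * chi c S B) / (cap c A + cap c B)
  | s, t, ear A Y => (cap c A * chi c S A + cap c Y * |ind S s - ind S t|) / (cap c A + cap c Y)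

end

end Net

/-- A dominating tree metric on `V`. -/
structure IsTree {M : Type} [MetricSpace M] (V : Finset M) (ρ : M → M → ℝ) : Prop where
  zero : ∀ x ∈ V, ρ x x = 0
  symm : ∀ x ∈ V, ∀ y ∈ V, ρ x y = ρ y x
  four : ∀ x ∈ V, ∀ y ∈ V, ∀ z ∈ V, ∀ u ∈ V,
    ρ x y + ρ z u ≤ max (ρ x z + ρ y u) (ρ x u + ρ y z)
  dom : ∀ x ∈ V, ∀ y ∈ V, dist x y ≤ ρ x y

/-- Every point of `V` hangs at `a` or at `b`. -/
def Hang {M : Type} (V : Finset M) (ρ : M → M → ℝ) (a b : M) : Prop :=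
  ∀ y ∈ V, ρ y b = ρ y a + ρ a b ∨ ρ y a = ρ y b + ρ a b

/-- `G` has a `K₄` minor. -/
def K4 {M : Type} (G : SimpleGraph M) : Prop :=
  ∃ B : Fin 4 → Set M, (∀ i, (G.induce (B i)).Connected) ∧
    ∀ i j, i ≠ j → Disjoint (B i) (B j) ∧ ∃ x ∈ B i, ∃ y ∈ B j, G.Adj x y

/-- Contraction of `v` into `u`; the vertex `v` becomes isolated. -/
def contr {M : Type} (G : SimpleGraph M) (u v : M) : SimpleGraph M where
  Adj x y := x ≠ y ∧ x ≠ v ∧ y ≠ v ∧ (G.Adj x y ∨ (x = u ∧ G.Adj v y) ∨ (y = u ∧ G.Adj v x))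
  symm := ⟨fun _ _ h => ⟨h.1.symm, h.2.2.1, h.2.1, h.2.2.2.elim (fun e => Or.inl e.symm)
    fun e => Or.inr e.symm⟩⟩
  loopless := ⟨fun _ h => h.1 rfl⟩

/-- J1a. -/
def ContrStmt : Prop :=
  ∀ (M : Type) (G : SimpleGraph M) (u v : M), G.Adj u v → K4 (contr G u v) → K4 G

/-- J1b. -/
def DiracStmt : Prop :=
  ∀ (M : Type) [Fintype M] (G : SimpleGraph M), (∃ x y, G.Adj x y) →
    (∀ x y, G.Adj x y → 3 ≤ (G.neighborSet x).ncard) → K4 G

/-- J1c. -/
def StructStmt : Prop :=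
  ∀ (M : Type) [Fintype M] [DecidableEq M] [Nontrivial M] (G : SimpleGraph M), ¬ K4 G →
    ∃ (s t : M) (N : Net M s t), N.Wf0 ∧ N.verts = univ ∧
      ∀ x y, G.Adj x y → (x, y) ∈ N.ends ∨ (y, x) ∈ N.ends

/-- J2. -/
def GlueStmt : Prop :=
  ∀ (M : Type) [DecidableEq M] [MetricSpace M] (V₁ V₂ : Finset M) (ρ₁ ρ₂ : M → M → ℝ) (a b : M),
    IsTree V₁ ρ₁ → IsTree V₂ ρ₂ → a ∈ V₁ → b ∈ V₁ → a ∈ V₂ → b ∈ V₂ →
    (∀ x ∈ V₁, x ∈ V₂ → x = a ∨ x = b) → ρ₁ a b = ρ₂ a b → Hang V₂ ρ₂ a b →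
    ∃ ρ : M → M → ℝ, IsTree (V₁ ∪ V₂) ρ ∧ (∀ x ∈ V₁, ∀ y ∈ V₁, ρ x y = ρ₁ x y) ∧
      (∀ x ∈ V₂, ∀ y ∈ V₂, ρ x y = ρ₂ x y) ∧
      ∀ y ∈ V₂, (∀ x ∈ V₁, ρ y x = ρ₂ y a + ρ₁ a x) ∨ (∀ x ∈ V₁, ρ y x = ρ₂ y b + ρ₁ b x)

/-- J3. -/
def MinimaxStmt : Prop :=
  ∀ (ι P : Type) [Fintype P] (v : ι → P → ℝ) (c : P → ℝ), (∀ i e, 0 ≤ v i e) → (∀ e, 0 < c e) →
    (∀ m : P → ℝ, (∀ e, 0 < m e) → ∃ i, ∑ e, m e * v i e ≤ ∑ e, m e * c e) →
    ∃ (k : ℕ) (w : Fin k → ℝ) (s : Fin k → ι), (∀ i, 0 ≤ w i) ∧ ∑ i, w i = 1 ∧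
      ∀ e, ∑ i, w i * v (s i) e ≤ 2 * c e

/-- J4. -/
def NormStmt : Prop :=
  ∀ (M : Type) [DecidableEq M] [MetricSpace M] (c : M × M → ℝ) (s t : M) (N : Net M s t), N.Wf0 →
    ∃ N' : Net M s t, N'.Wf0 ∧ N'.Wf1 c ∧ N'.inn = N.inn ∧ N'.ends = N.ends

/-- J5. -/
def UpperStmt : Prop :=
  ∀ (M : Type) [DecidableEq M] [MetricSpace M] (c : M × M → ℝ) (n : ℝ) (s t : M) (N : Net M s t),
    (∀ e, 0 < c e) → 0 ≤ n → N.Wf0 → N.Wf1 c → N.Good c n →
    ∃ ρ : M → M → ℝ, IsTree N.verts ρ ∧ N.cost c ρ ≤ (10 + 32 * n) * N.cost c dist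

/-- J6a. -/
def HeightStmt : Prop :=
  ∀ (M : Type) [DecidableEq M] [MetricSpace M] (c : M × M → ℝ) (s t : M) (N : Net M s t),
    (∀ e, 0 < c e) → N.Wf0 → N.Wf1 c →
    ∃ g : M → ℝ, (∀ x, x ∉ N.inn → g x = 0) ∧ N.Lip g ∧ N.len ^ 2 / 6 - N.sq c / 2 ≤ N.avg c g

/-- J6b. -/
def TestStmt : Prop :=
  ∀ (M : Type) [Fintype M] [DecidableEq M] [MetricSpace M] (c : M × M → ℝ) (ω : Finset M → ℝ)
    (s t : M) (N : Net M s t) (j : ℕ), (∀ e, 0 < c e) → (∀ S, 0 ≤ ω S) → N.Wf0 → N.Wf1 c →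
    ∃ μ g : ℕ → M → ℝ, (∀ l, ∑ x, μ l x = 0) ∧ (∀ l x, x ∉ N.inn → g l x = 0) ∧
      (∀ l, N.Lip (g l)) ∧
      N.tt c N.len j / 6 - N.len - 2 * ∑ S, ω S * N.chi c S ^ 2 ≤
        ∑ l ∈ range j, (∑ x, μ l x * g l x - ∑ S, ω S * (∑ x ∈ S, μ l x) ^ 2)

/-- J7. -/
def GoodStmt : Prop :=
  ∀ (M : Type) [Fintype M] [DecidableEq M] [MetricSpace M] (c : M × M → ℝ) (ν : Finset M → ℝ)
    (D : ℝ) (s t : M) (N : Net M s t), (∀ e, 0 < c e) → Cuts ν D → 1 ≤ D → N.Wf0 → N.Wf1 c →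
    N.Ext → N.Good c ((⌈54 * D⌉₊ : ℝ) ^ 2)

end Pool.Agent.Lib.MP_b76e55_an.Sp
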