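import Pool.Agent.Lib.MP_b76e55_an.Sp.Basic

/-!
A system of cuts bounds the potential of every subnetwork.
-/

namespace Pool.Agent.Lib.MP_b76e55_an.Sp

open Finset

namespace KT

open Net

variable {M : Type} {s t : M} {c : M × M → ℝ} [MetricSpace M]

lemma par_step (hc : ∀ e, 0 < c e) {n : ℝ} (hn : 0 ≤ n) {A B : Net M s t} (w : (par A B).Wf1 c)
    (g : B.Good c n) (iA : ∀ Λ (j : ℕ), j * A.kk c Λ ≤ (j + n) * A.tt c Λ j)
    (iB : ∀ Λ (j : ℕ), j * B.kk c Λ ≤ (j + n) * B.tt c Λ j) (Λ : ℝ) (j : ℕ) :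
    j * (par A B).kk c Λ ≤ (j + n) * (par A B).tt c Λ j := by
  have a0 := A.cap_pos hc
  have b0 := B.cap_pos hc
  have e : j * max (B.kk c Λ) (if A.len ≤ Λ then A.len + B.kk c (A.len / 2) else 0) ≤
      (j + n) * max (B.tt c Λ j)
        (if A.len ≤ Λ ∧ j ≠ 0 then A.len + B.tt c (A.len / 2) (j - 1) else 0) := by
    rw [mul_max_of_nonneg _ _ (by positivity), mul_max_of_nonneg _ _ (by positivity)]
    refine max_le_max (iB Λ j) ?_
    rcases j with _ | j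
    · simp
    by_cases h : A.len ≤ Λ
    · rw [if_pos h, if_pos ⟨h, j.succ_ne_zero⟩, Nat.add_sub_cancel, Nat.cast_succ]
      have h1 := g.top hc hn w.2.1 (A.len / 2)
      rw [← w.2.2.1] at h1
      linarith [iB (A.len / 2) j, B.tt_nonneg hc (A.len / 2) j]
    · simp [h]
  rw [kk, tt, ← mul_div_assoc, ← mul_div_assoc]
  refine div_le_div_of_nonneg_right ?_ (by positivity)
  linarith [mul_le_mul_of_nonneg_left (iA Λ j) a0.le, mul_le_mul_of_nonneg_left e b0.le]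

lemma kk_le_tt (hc : ∀ e, 0 < c e) {n : ℝ} (hn : 0 ≤ n) {N : Net M s t} (w : N.Wf1 c)
    (g : N.Good c n) (Λ : ℝ) (j : ℕ) : j * N.kk c Λ ≤ (j + n) * N.tt c Λ j := by
  induction N generalizing Λ j with
  | edge a b l => simp [kk, tt]
  | ser A B iA iB =>
    rw [kk, tt]
    linarith [iA w.1 g.1 Λ j, iB w.2 g.2 Λ j]
  | par A B iA iB => exact par_step hc hn w g.2.1 (iA w.1 g.1) (iB w.2.1 g.2.1) Λ j
  | ear A B iA iB =>
    have a0 := A.cap_pos hc
    have b0 := B.cap_pos hc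
    rw [kk, tt, ← mul_div_assoc, ← mul_div_assoc]
    refine div_le_div_of_nonneg_right ?_ (by positivity)
    linarith [mul_le_mul_of_nonneg_left (iA w.1 g.1 Λ j) a0.le]

variable [Fintype M] [DecidableEq M] {ν : Finset M → ℝ} {D : ℝ}

omit [MetricSpace M] [DecidableEq M] in
lemma mix (a b : ℝ) (F G : Finset M → ℝ) {K : ℝ} (ha : 0 < a) (hb : 0 < b)
    (hF : ∑ S, ν S * F S ≤ K) (hG : ∑ S, ν S * G S ≤ K) :
    ∑ S, ν S * ((a * F S + b * G S) / (a + b)) ≤ K := by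
  have e : ∑ S, ν S * ((a * F S + b * G S) / (a + b)) =
      (a * ∑ S, ν S * F S + b * ∑ S, ν S * G S) / (a + b) := by
    rw [mul_sum, mul_sum, ← sum_add_distrib, sum_div]
    exact sum_congr rfl fun S _ => by ring
  rw [e, div_le_iff₀ (by positivity)]
  nlinarith

lemma chi_sum (hc : ∀ e, 0 < c e) (hν : Cuts ν D) (hD : 0 ≤ D) {N : Net M s t} (w : N.Wf1 c) :
    ∑ S, ν S * N.chi c S ≤ D * (2 * N.len) := by
  have h := (hν.upper s t).trans (mul_le_mul_of_nonneg_left w.dist_le hD)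
  induction N with
  | edge a b l => exact h
  | ser A B iA iB =>
    simp only [chi, len, mul_add, sum_add_distrib]
    exact add_le_add (iA w.1 ((hν.upper _ _).trans (mul_le_mul_of_nonneg_left w.1.dist_le hD)))
      (iB w.2 ((hν.upper _ _).trans (mul_le_mul_of_nonneg_left w.2.dist_le hD)))
  | par A B iA iB =>
    exact mix _ _ _ _ (A.cap_pos hc) (B.cap_pos hc) (iA w.1 h)
      (by rw [len, w.2.2.1] at h ⊢; exact iB w.2.1 h)
  | ear A B iA iB => exact mix _ _ _ _ (A.cap_pos hc) (B.cap_pos hc) (iA w.1 h) h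

lemma tt_le (h : TestStmt) (hc : ∀ e, 0 < c e) (hν : Cuts ν D) (hD : 1 ≤ D) {N : Net M s t}
    (w0 : N.Wf0) (w : N.Wf1 c) (hE : N.Ext) {r : ℕ} (hr : 54 * D ≤ r) :
    2 * N.tt c N.len (r ^ 2) ≤ (r : ℝ) ^ 2 * N.len := by
  have L0 := w.len_pos
  have r0 : (54 : ℝ) ≤ r := by linarith
  have s0 : 0 ≤ ∑ S, ν S := sum_nonneg fun S _ => hν.nonneg S
  obtain ⟨ε, e0, e1⟩ : ∃ ε : ℝ, 0 < ε ∧ ε * ∑ S, ν S ≤ N.len :=
    ⟨N.len / (∑ S, ν S + 1), by positivity, by
      rw [div_mul_eq_mul_div, div_le_iff₀ (by positivity)]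
      nlinarith⟩
  have x0 := N.chi_nonneg hc
  have n0 := hν.nonneg
  have p0 : ∀ S, 0 < N.chi c S + ε := fun S => by linarith [x0 S]
  obtain ⟨μ, g, h1, h2, h3, h4⟩ := h M c (fun S => r * ν S / (2 * (N.chi c S + ε))) s t N (r ^ 2) hc
    (fun S => by have := n0 S; have := p0 S; positivity) w0 w
  have h5 := chi_sum hc hν (by linarith) w
  have h6 : ∀ l ∈ range (r ^ 2), ∑ x, μ l x * g l x -
      ∑ S, r * ν S / (2 * (N.chi c S + ε)) * (∑ x ∈ S, μ l x) ^ 2 ≤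
      (∑ S, ν S * N.chi c S + ε * ∑ S, ν S) / (2 * r) := fun l _ => by
    rw [sub_le_iff_le_add, mul_sum, ← sum_add_distrib, sum_div, ← sum_add_distrib]
    refine (hν.lower _ (h1 l) _ (hE _ (h2 l) (h3 l))).trans (sum_le_sum fun S _ => ?_)
    rw [← sq_abs (∑ x ∈ S, μ l x)]
    have := p0 S
    have e : (ν S * N.chi c S + ε * ν S) / (2 * r) + r * ν S / (2 * (N.chi c S + ε)) *
        |∑ x ∈ S, μ l x| ^ 2 - ν S * |∑ x ∈ S, μ l x| = ν S *
        (N.chi c S + ε - r * |∑ x ∈ S, μ l x|) ^ 2 / (2 * r * (N.chi c S + ε)) := by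
      field_simp
      ring
    have := n0 S
    rw [← sub_nonneg, e]
    positivity
  have h7 := sum_le_card_nsmul _ _ _ h6
  have h8 : 2 * ∑ S, r * ν S / (2 * (N.chi c S + ε)) * N.chi c S ^ 2 ≤
      r * ∑ S, ν S * N.chi c S := by
    rw [mul_sum, mul_sum]
    refine sum_le_sum fun S _ => ?_
    have := p0 S
    have e : r * (ν S * N.chi c S) - 2 * (r * ν S / (2 * (N.chi c S + ε)) * N.chi c S ^ 2) =
        r * ν S * N.chi c S * ε / (N.chi c S + ε) := by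
      field_simp
      ring
    have := n0 S
    have := x0 S
    rw [← sub_nonneg, e]
    positivity
  have e : (range (r ^ 2)).card • ((∑ S, ν S * N.chi c S + ε * ∑ S, ν S) / (2 * r)) =
      r * (∑ S, ν S * N.chi c S + ε * ∑ S, ν S) / 2 := by
    rw [card_range, nsmul_eq_mul, Nat.cast_pow]
    field_simp
  rw [e] at h7
  have r1 : (0 : ℝ) ≤ r := by positivity
  have b1 := mul_le_mul_of_nonneg_left h5 r1
  have b2 := mul_le_mul_of_nonneg_left e1 r1
  have b3 := mul_le_mul_of_nonneg_left hr (mul_nonneg r1 L0.le)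
  have b4 := mul_le_mul_of_nonneg_left r0 (mul_nonneg r1 L0.le)
  have b5 := mul_le_mul_of_nonneg_left r0 L0.le
  linarith

end KT

open Net in
theorem good_stmt (h : TestStmt) : GoodStmt := by
  intro M _ _ _ c ν D s t N hc hν hD w0 w hE
  have hr := Nat.le_ceil (54 * D)
  generalize ⌈54 * D⌉₊ = r at hr
  induction N with
  | edge a b l => trivial
  | ser A B iA iB => exact ⟨iA w0.1 w.1 (hE.ser w0 w).1, iB w0.2.1 w.2 (hE.ser w0 w).2⟩
  | ear A B iA iB => exact ⟨iA w0.1 w.1 (hE.ear w0 w).1, iB w0.2.1 w.2.1 (hE.ear w0 w).2⟩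
  | par A B iA iB =>
    have gA := iA w0.1 w.1 (hE.par w0 w).1
    have gB := iB w0.2.1 w.2.1 (hE.par w0 w).2
    have n0 : (0 : ℝ) < (r : ℝ) ^ 2 := pow_pos (by linarith) 2
    have h1 := KT.par_step hc n0.le w gB (KT.kk_le_tt hc n0.le w.1 gA)
      (KT.kk_le_tt hc n0.le w.2.1 gB) A.len (r ^ 2)
    have h2 := mul_le_mul_of_nonneg_left (KT.tt_le h hc hν hD w0 w hE hr) n0.le
    rw [Nat.cast_pow] at h1
    rw [len] at h2
    exact ⟨gA, gB, le_of_mul_le_mul_left (by linarith) n0⟩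

end Pool.Agent.Lib.MP_b76e55_an.Sp
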