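import Pool.Agent.Lib.MP_b76e55_an.Sp.Basic

/-!
Assembly of the steps.
-/

namespace Pool.Agent.Lib.MP_b76e55_an.Sp

open Finset Net

variable {M : Type}

theorem walk_le {G : SimpleGraph M} (ℓ : Sym2 M → ℝ) (φ : M → M → ℝ) (h0 : ∀ x, φ x x ≤ 0)
    (ht : ∀ x y z, φ x z ≤ φ x y + φ y z) (he : ∀ x y, G.Adj x y → φ x y ≤ ℓ s(x, y)) {x y : M}
    (p : G.Walk x y) : φ x y ≤ (p.edges.map ℓ).sum := by
  induction p with
  | nil => simpa using h0 _
  | cons a p ih =>
    rw [SimpleGraph.Walk.edges_cons, List.map_cons, List.sum_cons]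
    exact (ht _ _ _).trans (add_le_add (he _ _ a) ih)

theorem cost_eq [Fintype M] [DecidableEq M] {s t : M} (N : Net M s t) (c : M × M → ℝ)
    (ρ : M → M → ℝ) : N.cost c ρ = ∑ e, c e * (N.ends.count e * ρ e.1 e.2) := by
  rw [cost, sum_multiset_map_count]
  refine (sum_subset (subset_univ _) fun e _ he => ?_).trans (sum_congr rfl fun e _ => ?_)
  · simp [Multiset.count_eq_zero.2 fun h => he (Multiset.mem_toFinset.2 h)]
  · rw [nsmul_eq_mul]
    ring

theorem main (hS : StructStmt) (hM : MinimaxStmt) (hN : NormStmt) (hU : UpperStmt)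
    (hG : GoodStmt) [Fintype M] [DecidableEq M] [MetricSpace M] [Nontrivial M]
    (G : SimpleGraph M) (ℓ : Sym2 M → ℝ) (h4 : ¬ K4 G)
    (hd : ∀ x y, IsLeast (Set.range fun p : G.Walk x y => (p.edges.map ℓ).sum) (dist x y))
    {ν : Finset M → ℝ} {D : ℝ} (hν : Cuts ν D) (hD : 1 ≤ D) :
    ∃ (k : ℕ) (w : Fin k → ℝ) (t : Fin k → M → M → ℝ), (∀ i, 0 ≤ w i) ∧ ∑ i, w i = 1 ∧
      (∀ i, IsTree univ (t i)) ∧ ∀ x y, ∑ i, w i * t i x y ≤ 200000 * D ^ 2 * dist x y := by
  have he : ∀ x y, G.Adj x y → dist x y ≤ ℓ s(x, y) := fun x y a => by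
    simpa using (hd x y).2 ⟨a.toWalk, rfl⟩
  have key : ∀ (K : ℝ) (φ : M → M → ℝ), 0 ≤ K → (∀ x, φ x x ≤ 0) →
      (∀ x y z, φ x z ≤ φ x y + φ y z) → (∀ x y, G.Adj x y → φ x y ≤ K * dist x y) →
      ∀ x y, φ x y ≤ K * dist x y := fun K φ hK h0 ht h x y => by
    obtain ⟨p, hp⟩ := (hd x y).1
    have := walk_le (fun e => K * ℓ e) φ h0 ht
      (fun x y a => (h x y a).trans (mul_le_mul_of_nonneg_left (he x y a) hK)) p
    rwa [List.sum_map_mul_left, show (p.edges.map ℓ).sum = _ from hp] at this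
  obtain ⟨s, t, N, w0, hv, hE⟩ := hS M G h4
  set K : ℝ := 100000 * D ^ 2 with hK
  have K0 : 0 < K := by positivity
  obtain ⟨k, w, σ, w1, w2, w3⟩ := hM {ρ : M → M → ℝ // IsTree univ ρ} (M × M)
    (fun ρ e => N.ends.count e * ρ.1 e.1 e.2)
    (fun e => if e ∈ N.ends then N.ends.count e * (K * dist e.1 e.2) else 1)
    (fun ρ e => mul_nonneg (by positivity)
      (dist_nonneg.trans (ρ.2.dom _ (mem_univ _) _ (mem_univ _))))
    (fun e => by
      split_ifs with h
      · have := dist_pos.2 (w0.ends_ne h)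
        have := Multiset.count_pos.2 h
        positivity
      · exact one_pos)
    (fun c hc => by
      obtain ⟨N', v0, v1, e1, e2⟩ := hN M c s t N w0
      have hx : N'.Ext := fun g _ gl x y => by
        simpa using key 1 (fun x y => g x - g y) zero_le_one (by simp) (fun _ _ _ => by linarith)
          (fun x y a => by
            rcases hE x y a with h | h
            · simpa using (abs_le.1 (gl.ends v1 (e2 ▸ h))).2
            · have := (abs_le.1 (gl.ends v1 (e2 ▸ h))).1
              rw [dist_comm] at this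
              linarith) x y
      obtain ⟨ρ, r1, r2⟩ := hU M c _ s t N' hc (by positivity) v0 v1 (hG M c ν D s t N' hc hν hD v0 v1 hx)
      rw [verts, e1, ← verts, hv] at r1
      refine ⟨⟨ρ, r1⟩, ?_⟩
      rw [cost_eq, cost_eq, e2, mul_sum] at r2
      refine r2.trans (sum_le_sum fun e _ => ?_)
      have := (hc e).le
      have hr : (⌈54 * D⌉₊ : ℝ) ≤ 55 * D := by
        linarith [Nat.ceil_lt_add_one (show 0 ≤ 54 * D by positivity)]
      have hr2 : 10 + 32 * (⌈54 * D⌉₊ : ℝ) ^ 2 ≤ K := by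
        nlinarith [pow_le_pow_left₀ (by positivity) hr 2]
      split_ifs with h
      · calc _ ≤ K * (c e * (N.ends.count e * dist e.1 e.2)) := by gcongr
          _ = _ := by ring
      · simpa [Multiset.count_eq_zero.2 h] using this)
  have hl : ∀ e ∈ N.ends, ∑ i, w i * (σ i).1 e.1 e.2 ≤ 2 * K * dist e.1 e.2 := fun e h => by
    have := w3 e
    have c0 : (0 : ℝ) < N.ends.count e := by exact_mod_cast Multiset.count_pos.2 h
    simp only [if_pos h, mul_left_comm (w _), ← mul_sum] at this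
    refine le_of_mul_le_mul_left ?_ c0
    linarith
  refine ⟨k, w, fun i => (σ i).1, w1, w2, fun i => (σ i).2, fun x y => ?_⟩
  rw [show 200000 * D ^ 2 = 2 * K by ring]
  refine key (2 * K) (fun x y => ∑ i, w i * (σ i).1 x y) (by positivity)
    (fun x => by simp [(σ _).2.zero x (mem_univ _)]) (fun x y z => ?_) (fun x y a => ?_) x y
  · rw [← sum_add_distrib]
    refine sum_le_sum fun i _ => ?_
    have := (σ i).2.four x (mem_univ _) z (mem_univ _) y (mem_univ _) y (mem_univ _)
    rw [max_self, (σ i).2.zero y (mem_univ _), (σ i).2.symm z (mem_univ _) y (mem_univ _)] at this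
    nlinarith [w1 i]
  · rcases hE x y a with h | h
    · exact hl _ h
    · simp only [fun i => (σ i).2.symm x (mem_univ _) y (mem_univ _), dist_comm x y]
      exact hl _ h

end Pool.Agent.Lib.MP_b76e55_an.Sp
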