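import Pool.Agent.Lib.MP_b76e55_an.Sp.Test

/-!
Layers of test measures with a linear cost.  For every cut the measure of a layer is split into a
settled part, paid by its absolute value, and a pending part, paid by its square.  A pending part is
opened at every series composition whose middle vertex is separated from both terminals.
-/

set_option linter.unusedSectionVars false

namespace Pool.Agent.Lib.MP_b76e55_an.Sp

open Finset Net

namespace Strand

open Test (Tf aa one_le_abs)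

variable {M : Type} [Fintype M] [DecidableEq M]

theorem ind_eq {S : Finset M} {x y z : M} (h : ind S x ≠ ind S z) (h' : ind S y ≠ ind S z) :
    ind S x = ind S y := by
  unfold ind at *
  split_ifs at * <;> simp_all

/-- The value of one layer. -/
noncomputable def val (ν τ : Finset M → ℝ) (μ g : M → ℝ) (σ : Finset M → ℝ) : ℝ :=
  ∑ x, μ x * g x - ∑ S, ν S * (|∑ x ∈ S, μ x - σ S| + σ S ^ 2 / τ S)

theorem val_zero (ν τ : Finset M → ℝ) : val ν τ (fun _ => 0) (fun _ => 0) (fun _ => 0) = 0 := by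
  simp [val]

variable {ν : Finset M → ℝ}

theorem merge (hν : ∀ S, 0 ≤ ν S) (τ : Finset M → ℝ) (μ g μ' g' : M → ℝ) (σ σ' : Finset M → ℝ) :
    ∃ ε : ℝ, (ε = 1 ∨ ε = -1) ∧ val ν τ μ g σ + val ν τ μ' g' σ' ≤
      val ν τ (fun x => μ x + ε * μ' x) (fun x => g x + ε * g' x) (fun S => σ S + ε * σ' S) := by
  have key : ∀ ε : ℝ, (ε = 1 ∨ ε = -1) → val ν τ μ g σ + val ν τ μ' g' σ' +
      ε * (∑ x, (μ x * g' x + μ' x * g x) - ∑ S, ν S * (2 * σ S * σ' S / τ S)) ≤
      val ν τ (fun x => μ x + ε * μ' x) (fun x => g x + ε * g' x) (fun S => σ S + ε * σ' S) := by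
    intro ε hε'
    have hε : ε * ε = 1 := by rcases hε' with e | e <;> simp [e]
    have ha : |ε| = 1 := by rcases hε' with e | e <;> simp [e]
    have e1 : ∑ x, (μ x + ε * μ' x) * (g x + ε * g' x) =
        ∑ x, μ x * g x + ∑ x, μ' x * g' x + ε * ∑ x, (μ x * g' x + μ' x * g x) := by
      rw [mul_sum, ← sum_add_distrib, ← sum_add_distrib]
      exact sum_congr rfl fun x _ => by linear_combination (μ' x * g' x) * hε
    have e2 : ∑ S, ν S * (|∑ x ∈ S, (μ x + ε * μ' x) - (σ S + ε * σ' S)| +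
        (σ S + ε * σ' S) ^ 2 / τ S) ≤ ∑ S, ν S * (|∑ x ∈ S, μ x - σ S| + σ S ^ 2 / τ S) +
          ∑ S, ν S * (|∑ x ∈ S, μ' x - σ' S| + σ' S ^ 2 / τ S) +
          ε * ∑ S, ν S * (2 * σ S * σ' S / τ S) := by
      rw [mul_sum, ← sum_add_distrib, ← sum_add_distrib]
      refine sum_le_sum fun S _ => ?_
      have a1 : |∑ x ∈ S, (μ x + ε * μ' x) - (σ S + ε * σ' S)| ≤
          |∑ x ∈ S, μ x - σ S| + |∑ x ∈ S, μ' x - σ' S| := by
        have : ∑ x ∈ S, (μ x + ε * μ' x) - (σ S + ε * σ' S) =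
            (∑ x ∈ S, μ x - σ S) + ε * (∑ x ∈ S, μ' x - σ' S) := by
          rw [sum_add_distrib, ← mul_sum]
          ring
        rw [this]
        refine (abs_add_le _ _).trans ?_
        rw [abs_mul, ha, one_mul]
      have a2 : (σ S + ε * σ' S) ^ 2 / τ S =
          σ S ^ 2 / τ S + σ' S ^ 2 / τ S + ε * (2 * σ S * σ' S / τ S) := by
        rw [← mul_div_assoc, ← add_div, ← add_div]
        congr 1
        linear_combination (σ' S ^ 2) * hε
      have a3 := mul_le_mul_of_nonneg_left a1 (hν S)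
      rw [a2]
      linarith
    unfold val
    rw [e1]
    linarith
  rcases le_total 0 (∑ x, (μ x * g' x + μ' x * g x) - ∑ S, ν S * (2 * σ S * σ' S / τ S)) with h | h
  · exact ⟨1, Or.inl rfl, le_trans (by linarith) (key 1 (Or.inl rfl))⟩
  · exact ⟨-1, Or.inr rfl, le_trans (by linarith) (key (-1) (Or.inr rfl))⟩

/-- There are `j` layers with test functions in `T` and total value at least `X`. -/
def Adm (ν θ : Finset M → ℝ) (T : (M → ℝ) → Prop) (j : ℕ) (X : ℝ) : Prop :=
  ∃ (μ g : ℕ → M → ℝ) (σ : ℕ → Finset M → ℝ), (∀ l, ∑ x, μ l x = 0) ∧ (∀ l, T (g l)) ∧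
    X ≤ ∑ l ∈ range j, val ν (fun S => θ S * 2 ^ l) (μ l) (g l) (σ l)

variable {θ : Finset M → ℝ}

theorem Adm.mono {T T' : (M → ℝ) → Prop} {j : ℕ} {X X' : ℝ} (h : Adm ν θ T j X)
    (hT : ∀ g, T g → T' g) (hX : X' ≤ X) : Adm ν θ T' j X' := by
  obtain ⟨μ, g, σ, h1, h2, h3⟩ := h
  exact ⟨μ, g, σ, h1, fun l => hT _ (h2 l), hX.trans h3⟩

theorem Adm.succ {T : (M → ℝ) → Prop} {j : ℕ} {X Y : ℝ} (h : Adm ν θ T j X) {μ₀ g₀ : M → ℝ}
    {σ₀ : Finset M → ℝ} (h1 : ∑ x, μ₀ x = 0) (h2 : T g₀)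
    (h3 : Y ≤ val ν (fun S => θ S * 2 ^ j) μ₀ g₀ σ₀) : Adm ν θ T (j + 1) (X + Y) := by
  obtain ⟨μ, g, σ, a1, a2, a3⟩ := h
  refine ⟨fun l => if l = j then μ₀ else μ l, fun l => if l = j then g₀ else g l,
    fun l => if l = j then σ₀ else σ l, fun l => ?_, fun l => ?_, ?_⟩
  · by_cases e : l = j <;> simp only [e, if_true, if_false, h1, a1]
  · by_cases e : l = j <;> simp only [e, if_true, if_false, h2, a2]
  · rw [sum_range_succ]
    simp only [if_true]
    refine add_le_add (a3.trans_eq (sum_congr rfl fun l hl => ?_)) h3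
    rw [if_neg (mem_range.1 hl).ne, if_neg (mem_range.1 hl).ne, if_neg (mem_range.1 hl).ne]

theorem Adm.add (hν : ∀ S, 0 ≤ ν S) {s t s' t' : M} {A : Net M s t} {B : Net M s' t'} {j : ℕ}
    {X Y : ℝ} (hA : Adm ν θ (Tf A) j X) (hB : Adm ν θ (Tf B) j Y) (h1 : ∀ y ∈ A.verts, y ∉ B.inn)
    (h2 : ∀ y ∈ B.verts, y ∉ A.inn) :
    Adm ν θ (fun g => (∀ x, x ∉ A.inn → x ∉ B.inn → g x = 0) ∧ A.Lip g ∧ B.Lip g) j (X + Y) := by
  obtain ⟨μ, g, σ, a1, a2, a3⟩ := hA
  obtain ⟨μ', g', σ', b1, b2, b3⟩ := hB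
  choose ε e1 e2 using fun l => merge hν (fun S => θ S * 2 ^ l) (μ l) (g l) (μ' l) (g' l)
    (σ l) (σ' l)
  refine ⟨fun l x => μ l x + ε l * μ' l x, fun l x => g l x + ε l * g' l x,
    fun l S => σ l S + ε l * σ' l S, fun l => ?_, fun l => ⟨fun x hx hx' => ?_, ?_, ?_⟩, ?_⟩
  · rw [sum_add_distrib, ← mul_sum, a1, b1, mul_zero, add_zero]
  · show g l x + ε l * g' l x = 0
    rw [(a2 l).1 x hx, (b2 l).1 x hx', mul_zero, add_zero]
  · exact (a2 l).2.congr fun y hy => by simp only [(b2 l).1 y (h1 y hy), mul_zero, add_zero]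
  · refine (((b2 l).2.comp (g' := fun x => ε l * g' l x) fun y z => ?_)).congr fun y hy => by
      simp only [(a2 l).1 y (h2 y hy), zero_add]
    rw [← mul_sub, abs_mul]
    rcases e1 l with e | e <;> simp [e]
  · refine (add_le_add a3 b3).trans ?_
    rw [← sum_add_distrib]
    exact sum_le_sum fun l _ => e2 l

theorem abs_le_sq {x τ : ℝ} (hτ : 0 < τ) : |x| ≤ x ^ 2 / τ + τ / 4 := by
  have e : x ^ 2 / τ + τ / 4 - |x| = (|x| - τ / 2) ^ 2 / τ := by
    rw [← sq_abs x]
    field_simp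
    ring
  rw [← sub_nonneg, e]
  positivity

theorem geom (j : ℕ) : ∑ l ∈ range j, (2 : ℝ) ^ l ≤ 2 ^ j := by
  induction j with
  | zero => simp
  | succ j ih =>
    rw [sum_range_succ, pow_succ]
    linarith

/-- Settling the pending parts of the cuts satisfying `b`. -/
theorem Adm.settle (hν : ∀ S, 0 ≤ ν S) {T : (M → ℝ) → Prop} {j : ℕ} {X : ℝ} (b : Finset M → Prop)
    [DecidablePred b] {η : Finset M → ℝ} (hη : ∀ S, 0 < η S)
    (h : Adm ν (fun S => if b S then η S else θ S) T j X) :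
    Adm ν θ T j (X - ∑ S, ν S * if b S then η S * 2 ^ j / 4 else 0) := by
  obtain ⟨μ, g, σ, a1, a2, a3⟩ := h
  refine ⟨μ, g, fun l S => if b S then 0 else σ l S, a1, a2, ?_⟩
  have h1 : ∀ l ∈ range j, val ν (fun S => (if b S then η S else θ S) * 2 ^ l) (μ l) (g l) (σ l) -
      ∑ S, ν S * (if b S then η S * 2 ^ l / 4 else 0) ≤
      val ν (fun S => θ S * 2 ^ l) (μ l) (g l) (fun S => if b S then 0 else σ l S) := by
    intro l _
    unfold val
    rw [sub_sub, ← sum_add_distrib]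
    refine sub_le_sub_left (sum_le_sum fun S _ => ?_) _
    rw [← mul_add]
    refine mul_le_mul_of_nonneg_left ?_ (hν S)
    by_cases hb : b S
    · simp only [if_pos hb]
      have b1 := abs_le_sq (x := σ l S) (τ := η S * 2 ^ l) (by have := hη S; positivity)
      have b2 := abs_add_le (∑ x ∈ S, μ l x - σ l S) (σ l S)
      rw [sub_add_cancel] at b2
      rw [sub_zero, zero_pow two_ne_zero, zero_div]
      linarith
    · simp only [if_neg hb]
      linarith
  have h2 := sum_le_sum h1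
  rw [sum_sub_distrib, sum_comm] at h2
  have h3 : ∑ S, ∑ l ∈ range j, ν S * (if b S then η S * 2 ^ l / 4 else 0) ≤
      ∑ S, ν S * if b S then η S * 2 ^ j / 4 else 0 := by
    refine sum_le_sum fun S _ => ?_
    rw [← mul_sum]
    refine mul_le_mul_of_nonneg_left ?_ (hν S)
    by_cases hb : b S
    · simp only [if_pos hb]
      rw [← sum_div, ← mul_sum]
      have := mul_le_mul_of_nonneg_left (geom j) (hη S).le
      linarith
    · simp [hb]
  linarith

variable (c : M × M → ℝ)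

/-- The cost of the cut `S`. -/
noncomputable def QQ {s t : M} (N : Net M s t) (Λ P W : ℝ) (S : Finset M) : ℝ :=
  if ind S s = ind S t then 2 * (P * N.chi c S) - |P * aa c N S / Λ|
  else 2 * (P * N.chi c S - P) + 2 * P ^ 2 / W

/-- The bound proved by induction. -/
noncomputable def Bd (ν θ : Finset M → ℝ) {s t : M} (N : Net M s t) (Λ P : ℝ) (j : ℕ) : ℝ :=
  P * (N.tt c Λ j / 6 - (N.len - N.sq c / (2 * Λ))) - ∑ S, ν S * QQ c N Λ P (θ S * 2 ^ j) S

variable {c} [MetricSpace M] (hc : ∀ e, 0 < c e)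
include hc

theorem aa_le {s t : M} {N : Net M s t} (w : N.Wf1 c) {Λ P k : ℝ} (hΛ : 0 < Λ) (hP : 0 ≤ P)
    (hL : N.len ≤ k * Λ) (S : Finset M) : |P * aa c N S / Λ| ≤ k * P := by
  rw [abs_div, abs_mul, abs_of_nonneg hP, abs_of_pos hΛ, div_le_iff₀ hΛ]
  have := mul_le_mul_of_nonneg_left ((w.abs_le_len hc S).trans hL) hP
  unfold aa
  linarith

theorem QQ_ser {s x t : M} {A : Net M s x} {B : Net M x t} (w : (ser A B).Wf1 c) {Λ P W W' : ℝ}
    (hL : (ser A B).len ≤ 2 * Λ) (hP : 0 < P) (S : Finset M)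
    (hW : W' = if ind S s = ind S t ∧ ind S x ≠ ind S t then 4 * P else W) :
    QQ c A Λ P W' S + QQ c B Λ P W' S +
      (if ind S s = ind S t ∧ ind S x ≠ ind S t then P else 0) ≤ QQ c (ser A B) Λ P W S := by
  have hΛ : 0 < Λ := by linarith [w.len_pos]
  have nA := abs_nonneg (P * aa c A S / Λ)
  have nB := abs_nonneg (P * aa c B S / Λ)
  unfold QQ
  rw [chi]
  by_cases h1 : ind S s = ind S t
  · by_cases h2 : ind S x = ind S t
    · have e : P * aa c (ser A B) S / Λ = P * aa c A S / Λ + P * aa c B S / Λ := by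
        simp only [aa, avg, len, h2]
        ring
      rw [if_pos h1, if_pos h2, if_pos (h1.trans h2.symm), if_neg (fun h => h.2 h2), e]
      linarith [abs_add_le (P * aa c A S / Λ) (P * aa c B S / Λ)]
    · have a3 := aa_le hc w hΛ hP.le hL S
      rw [if_pos ⟨h1, h2⟩] at hW
      have e : 2 * P ^ 2 / W' = P / 2 := by
        rw [hW]
        field_simp
        ring
      rw [if_pos h1, if_neg h2, if_neg (h1 ▸ Ne.symm h2 : ind S s ≠ ind S x), if_pos ⟨h1, h2⟩, e]
      linarith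
  · rw [if_neg (fun h => h1 h.1)] at hW
    rw [if_neg h1, if_neg (fun h : _ ∧ _ => h1 h.1), hW]
    by_cases h2 : ind S x = ind S t
    · rw [if_pos h2, if_neg (h2 ▸ h1 : ind S s ≠ ind S x)]
      linarith
    · rw [if_neg h2, if_pos (ind_eq h1 h2)]
      linarith

theorem par_eq {s t : M} {A B : Net M s t} (w : (par A B).Wf1 c) {p q : ℝ}
    (hp : p = A.cap c / (A.cap c + B.cap c)) (hq : q = B.cap c / (A.cap c + B.cap c))
    (S : Finset M) : (par A B).chi c S = p * A.chi c S + q * B.chi c S ∧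
      aa c (par A B) S = p * aa c A S + q * aa c B S ∧ 0 < q ∧ q ≤ p ∧ p + q = 1 := by
  have kA := A.cap_pos hc
  have kB := B.cap_pos hc
  refine ⟨?_, ?_, by rw [hq]; positivity, ?_, ?_⟩
  · rw [chi, hp, hq]
    field_simp
  · simp only [aa, avg, len, hp, hq, ← w.2.2.1]
    field_simp
    ring
  · rw [hp, hq]
    exact div_le_div_of_nonneg_right w.2.2.2 (by positivity)
  · rw [hp, hq]
    field_simp

theorem QQ_par {s t : M} {A B : Net M s t} (w : (par A B).Wf1 c) {Λ P W p q : ℝ}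
    (hp : p = A.cap c / (A.cap c + B.cap c)) (hq : q = B.cap c / (A.cap c + B.cap c))
    (hW : 0 < W) (S : Finset M) :
    QQ c A Λ (P * p) W S + QQ c B Λ (P * q) W S ≤ QQ c (par A B) Λ P W S := by
  obtain ⟨e1, e2, q0, qp, pq⟩ := par_eq hc w hp hq S
  unfold QQ
  rw [e1, e2]
  split_ifs
  · have e : P * (p * aa c A S + q * aa c B S) / Λ =
        P * p * aa c A S / Λ + P * q * aa c B S / Λ := by ring
    rw [e]
    linarith [abs_add_le (P * p * aa c A S / Λ) (P * q * aa c B S / Λ)]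
  · have h1 : 2 * (P * p) ^ 2 / W + 2 * (P * q) ^ 2 / W ≤ 2 * P ^ 2 / W := by
      rw [← add_div]
      refine div_le_div_of_nonneg_right ?_ hW.le
      have : P ^ 2 = P ^ 2 * (p + q) ^ 2 := by rw [pq]; ring
      nlinarith [mul_nonneg (sq_nonneg P) (mul_nonneg (q0.le.trans qp) q0.le)]
    have h2 : P = P * (p + q) := by rw [pq, mul_one]
    linarith

theorem QQ_charged {s t : M} {A B : Net M s t} (w : (par A B).Wf1 c) {Λ P W p q : ℝ}
    (hp : p = A.cap c / (A.cap c + B.cap c)) (hq : q = B.cap c / (A.cap c + B.cap c))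
    (hL : A.len ≤ Λ) (hP : 0 ≤ P) (hW : 0 < W) (S : Finset M) :
    QQ c A Λ (P * p) (W * 2) S + (QQ c B (A.len / 2) (P * q) W S +
      if ind S s = ind S t then |P * q * aa c B S / A.len|
      else (P * q * aa c B S / A.len) ^ 2 / W) ≤ QQ c (par A B) Λ P (W * 2) S := by
  obtain ⟨e1, e2, q0, qp, pq⟩ := par_eq hc w hp hq S
  have lA := w.1.len_pos
  have hΛ : 0 < Λ := by linarith
  by_cases h : ind S s = ind S t
  · refine le_trans ?_ (QQ_par hc w hp hq (by positivity) S)
    have e : |P * q * aa c B S / (A.len / 2)| = 2 * |P * q * aa c B S / A.len| := by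
      rw [show P * q * aa c B S / (A.len / 2) = 2 * (P * q * aa c B S / A.len) by field_simp,
        abs_mul, abs_two]
    have e' : |P * q * aa c B S / Λ| ≤ |P * q * aa c B S / A.len| := by
      rw [abs_div, abs_div, abs_of_pos hΛ, abs_of_pos lA]
      exact div_le_div_of_nonneg_left (abs_nonneg _) lA hL
    unfold QQ
    simp only [if_pos h]
    linarith
  · have a3 := aa_le hc w.2.1 (k := 1) lA (mul_nonneg hP q0.le) (by rw [one_mul, w.2.2.1]) S
    rw [one_mul] at a3
    have a4 : (P * q * aa c B S / A.len) ^ 2 ≤ (P * q) ^ 2 := sq_le_sq' (abs_le.1 a3).1 (abs_le.1 a3).2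
    have h1 : 2 * (P * p) ^ 2 / (W * 2) + 2 * (P * q) ^ 2 / W +
        (P * q * aa c B S / A.len) ^ 2 / W ≤ 2 * P ^ 2 / (W * 2) := by
      rw [show 2 * (P * p) ^ 2 / (W * 2) = (P * p) ^ 2 / W by field_simp,
        show 2 * P ^ 2 / (W * 2) = P ^ 2 / W by field_simp, ← add_div, ← add_div]
      refine div_le_div_of_nonneg_right ?_ hW.le
      have : P ^ 2 = P ^ 2 * (p + q) ^ 2 := by rw [pq]; ring
      nlinarith [mul_nonneg (sq_nonneg P) (mul_nonneg (sub_nonneg.2 qp) q0.le)]
    have h2 : P = P * (p + q) := by rw [pq, mul_one]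
    unfold QQ
    simp only [if_neg h]
    rw [e1]
    linarith

theorem QQ_ear {s t : M} {A Y : Net M s t} {Λ P W p : ℝ}
    (hp : p = A.cap c / (A.cap c + Y.cap c)) (hP : 0 ≤ P) (hW : 0 < W) (S : Finset M) :
    QQ c A Λ (P * p) W S ≤ QQ c (ear A Y) Λ P W S := by
  have kA := A.cap_pos hc
  have kB := Y.cap_pos hc
  have p0 : 0 ≤ p := by rw [hp]; positivity
  have p1 : p ≤ 1 := by rw [hp, div_le_one (by positivity)]; linarith
  have e1 : (ear A Y).chi c S = p * A.chi c S + (1 - p) * |ind S s - ind S t| := by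
    rw [chi, hp]
    field_simp
    ring
  have e2 : P * aa c (ear A Y) S = P * p * aa c A S := by
    simp only [aa, avg, len, hp]
    field_simp
    ring
  unfold QQ
  rw [e1, e2]
  split_ifs with h
  · rw [h, sub_self, abs_zero]
    linarith
  · have h1 : 2 * (P * p) ^ 2 / W ≤ 2 * P ^ 2 / W := by
      refine div_le_div_of_nonneg_right ?_ hW.le
      have := pow_le_pow_left₀ (mul_nonneg hP p0) (mul_le_of_le_one_right hP p1) 2
      linarith
    have h2 := mul_le_mul_of_nonneg_left (one_le_abs h) (mul_nonneg hP (sub_nonneg.2 p1))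
    linarith

theorem layer (h : HeightStmt) (τ : Finset M → ℝ) {s t : M} {B : Net M s t} (w0 : B.Wf0)
    (w : B.Wf1 c) {P : ℝ} (hP : 0 ≤ P) : ∃ (μ g : M → ℝ) (σ : Finset M → ℝ), ∑ x, μ x = 0 ∧ Tf B g ∧
      P * (B.len / 6 - B.sq c / (2 * B.len)) - ∑ S, ν S *
        (if ind S s = ind S t then |P * aa c B S / B.len| else (P * aa c B S / B.len) ^ 2 / τ S) ≤
        val ν τ μ g σ := by
  obtain ⟨g, g0, gl, hg⟩ := h M c s t B hc w0 w
  have lB := w.len_pos
  have key : ∀ F : M → ℝ, ∑ x, P * (B.avg c (Pi.single x 1) / B.len - if x = t then 1 else 0) *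
      F x = P * (B.avg c F / B.len - F t) := by
    intro F
    rw [← B.avg_eq_sum F, sum_div, ← Fintype.sum_ite_eq' t F, ← sum_sub_distrib, mul_sum]
    refine sum_congr rfl fun x _ => ?_
    split_ifs <;> ring
  refine ⟨fun x => P * (B.avg c (Pi.single x 1) / B.len - if x = t then 1 else 0), g,
    fun S => if ind S s = ind S t then 0 else P * aa c B S / B.len, ?_, ⟨g0, gl⟩, ?_⟩
  · have := key fun _ => 1
    rw [w.avg_const hc] at this
    simpa [lB.ne'] using this
  · unfold val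
    rw [key, g0 t w0.tgt_not, sub_zero]
    refine sub_le_sub (mul_le_mul_of_nonneg_left ?_ hP) (le_of_eq (sum_congr rfl fun S _ => ?_))
    · rw [le_div_iff₀ lB]
      refine le_trans (le_of_eq ?_) hg
      field_simp
    · have e : ∑ x ∈ S, P * (B.avg c (Pi.single x 1) / B.len - if x = t then 1 else 0) =
          P * aa c B S / B.len := by
        have := key (ind S)
        simp only [ind, mul_ite, mul_one, mul_zero, sum_ite_mem, univ_inter] at this
        rw [this, mul_div_assoc, aa, sub_div, mul_div_cancel_left₀ _ lB.ne']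
        rfl
      rw [e]
      by_cases hS : ind S s = ind S t <;> simp [hS]

theorem main (h : HeightStmt) (hν : ∀ S, 0 ≤ ν S) {s t : M} (N : Net M s t) (w0 : N.Wf0)
    (w : N.Wf1 c) : ∀ (Λ P : ℝ) (j : ℕ) (θ : Finset M → ℝ), (∀ S, 0 < θ S) → N.len ≤ 2 * Λ →
      0 < P → Adm ν θ (Tf N) j (Bd c ν θ N Λ P j) := by
  induction N with
  | edge a b l =>
    intro Λ P j θ hθ hL hP
    have l0 : 0 < l := w.1
    have hL' : l ≤ 2 * Λ := hL
    refine ⟨fun _ _ => 0, fun _ _ => 0, fun _ _ => 0, by simp,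
      fun _ => ⟨fun _ _ => rfl, w.lip_const 0⟩, ?_⟩
    have h1 : l ^ 2 / (2 * Λ) ≤ l := by
      rw [div_le_iff₀ (by linarith)]
      nlinarith
    have h2 : 0 ≤ ∑ S, ν S * QQ c (edge a b l) Λ P (θ S * 2 ^ j) S := sum_nonneg fun S _ =>
      mul_nonneg (hν S) (by
        unfold QQ
        split_ifs with hS
        · simp [aa, avg, len, chi, hS]
        · have b1 := mul_le_mul_of_nonneg_left (one_le_abs hS) hP.le
          have b2 : 0 ≤ 2 * P ^ 2 / (θ S * 2 ^ j) := by have := hθ S; positivity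
          rw [chi]
          linarith)
    simp only [val_zero, sum_const_zero, Bd, tt, len, Net.sq]
    nlinarith [mul_nonneg hP.le (sub_nonneg.2 h1)]
  | @ser s x t A B iA iB =>
    intro Λ P j θ hθ hL hP
    have lA := w.1.len_pos
    have lB := w.2.len_pos
    have hL' : A.len + B.len ≤ 2 * Λ := hL
    have hθ' : ∀ S, 0 < if ind S s = ind S t ∧ ind S x ≠ ind S t then 4 * P / 2 ^ j else θ S :=
      fun S => by
        split_ifs
        · positivity
        · exact hθ S
    refine (Adm.settle (θ := θ) hν (fun S => ind S s = ind S t ∧ ind S x ≠ ind S t)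
      (η := fun _ => 4 * P / 2 ^ j) (fun _ => by positivity)
      ((iA w0.1 w.1 Λ P j _ hθ' (by linarith) hP).add hν (iB w0.2.1 w.2 Λ P j _ hθ' (by linarith) hP)
      (fun y hy => ser_left w0 hy) (fun y hy => ser_right w0 hy))).mono
      (fun g hg => ⟨fun y hy => hg.1 y (fun e => hy (by simp [inn, e]))
        (fun e => hy (by simp [inn, e])), hg.2⟩) ?_
    have e4 : 4 * P / 2 ^ j * 2 ^ j = 4 * P := by field_simp
    have h1 : ∑ S, ν S * QQ c A Λ P ((if ind S s = ind S t ∧ ind S x ≠ ind S t then 4 * P / 2 ^ j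
        else θ S) * 2 ^ j) S + ∑ S, ν S * QQ c B Λ P ((if ind S s = ind S t ∧ ind S x ≠ ind S t then
        4 * P / 2 ^ j else θ S) * 2 ^ j) S + ∑ S, ν S * (if ind S s = ind S t ∧ ind S x ≠ ind S t
        then 4 * P / 2 ^ j * 2 ^ j / 4 else 0) ≤ ∑ S, ν S * QQ c (ser A B) Λ P (θ S * 2 ^ j) S := by
      rw [← sum_add_distrib, ← sum_add_distrib]
      refine sum_le_sum fun S _ => ?_
      rw [← mul_add, ← mul_add, e4, show 4 * P / 4 = P by ring]
      refine mul_le_mul_of_nonneg_left (QQ_ser hc w hL hP S ?_) (hν S)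
      rw [ite_mul, e4]
    simp only [Bd, tt, len, Net.sq, add_div]
    linarith
  | @par s t A B iA iB =>
    intro Λ P j θ hθ hL hP
    have lA := w.1.len_pos
    have hL' : A.len ≤ 2 * Λ := hL
    have kA := A.cap_pos hc
    have kB := B.cap_pos hc
    obtain ⟨p, hp⟩ : ∃ p, p = A.cap c / (A.cap c + B.cap c) := ⟨_, rfl⟩
    obtain ⟨q, hq⟩ : ∃ q, q = B.cap c / (A.cap c + B.cap c) := ⟨_, rfl⟩
    have p0 : 0 < p := by rw [hp]; positivity
    have q0 : 0 < q := by rw [hq]; positivity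
    have pq : p + q = 1 := by rw [hp, hq]; field_simp
    have esq : (par A B).sq c = p * A.sq c + q * B.sq c := by
      rw [Net.sq, hp, hq]
      field_simp
    have ett : (par A B).tt c Λ j = p * A.tt c Λ j + q * max (B.tt c Λ j)
        (if A.len ≤ Λ ∧ j ≠ 0 then A.len + B.tt c (A.len / 2) (j - 1) else 0) := by
      rw [tt, hp, hq]
      field_simp
    have fin : ∀ Y, Adm ν θ (Tf B) j Y →
        Bd c ν θ (par A B) Λ P j ≤ Bd c ν θ A Λ (P * p) j + Y →
        Adm ν θ (Tf (par A B)) j (Bd c ν θ (par A B) Λ P j) := fun Y hY hle =>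
      ((iA w0.1 w.1 Λ (P * p) j θ hθ hL' (mul_pos hP p0)).add hν hY
        (fun y hy => not_inn w0.2.1 w0.2.2 hy) (fun y hy => not_inn w0.1 w0.2.2.symm hy)).mono
        (fun g hg => ⟨fun y hy => hg.1 y (fun e => hy (by simp [inn, e]))
          (fun e => hy (by simp [inn, e])), hg.2⟩) hle
    by_cases hm : (if A.len ≤ Λ ∧ j ≠ 0 then A.len + B.tt c (A.len / 2) (j - 1) else 0) ≤
        B.tt c Λ j
    · refine fin _ (iB w0.2.1 w.2.1 Λ (P * q) j θ hθ (w.2.2.1 ▸ hL') (mul_pos hP q0)) ?_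
      have h1 : ∑ S, ν S * QQ c A Λ (P * p) (θ S * 2 ^ j) S +
          ∑ S, ν S * QQ c B Λ (P * q) (θ S * 2 ^ j) S ≤
          ∑ S, ν S * QQ c (par A B) Λ P (θ S * 2 ^ j) S := by
        rw [← sum_add_distrib]
        refine sum_le_sum fun S _ => ?_
        rw [← mul_add]
        exact mul_le_mul_of_nonneg_left (QQ_par hc w hp hq (by have := hθ S; positivity) S) (hν S)
      have h3 : P * A.len = P * A.len * (p + q) := by rw [pq, mul_one]
      simp only [Bd, ett, max_eq_left hm, esq, len, ← w.2.2.1, add_div, mul_div_assoc]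
      linarith
    · have hc' : A.len ≤ Λ ∧ j ≠ 0 := by
        by_contra hn
        rw [if_neg hn] at hm
        exact hm (B.tt_nonneg hc Λ j)
      rw [max_eq_right (not_le.1 hm).le, if_pos hc'] at ett
      obtain ⟨j, rfl⟩ := Nat.exists_eq_succ_of_ne_zero hc'.2
      obtain ⟨μ₀, g₀, σ₀, a1, a2, a3⟩ := layer (ν := ν) hc h (fun S => θ S * 2 ^ j) w0.2.1 w.2.1
        (mul_pos hP q0).le
      refine fin _ ((iB w0.2.1 w.2.1 (A.len / 2) (P * q) j θ hθ (by rw [← w.2.2.1]; linarith)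
        (mul_pos hP q0)).succ a1 a2 a3) ?_
      have h1 : ∑ S, ν S * QQ c A Λ (P * p) (θ S * 2 ^ (j + 1)) S +
          (∑ S, ν S * QQ c B (A.len / 2) (P * q) (θ S * 2 ^ j) S +
          ∑ S, ν S * (if ind S s = ind S t then |P * q * aa c B S / A.len|
            else (P * q * aa c B S / A.len) ^ 2 / (θ S * 2 ^ j))) ≤
          ∑ S, ν S * QQ c (par A B) Λ P (θ S * 2 ^ (j + 1)) S := by
        rw [← sum_add_distrib, ← sum_add_distrib]
        refine sum_le_sum fun S _ => ?_
        rw [← mul_add, ← mul_add, pow_succ, ← mul_assoc]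
        exact mul_le_mul_of_nonneg_left
          (QQ_charged hc w hp hq hc'.1 hP.le (by have := hθ S; positivity) S) (hν S)
      have h3 : P * A.len = P * A.len * (p + q) := by rw [pq, mul_one]
      have h4 : B.sq c / (2 * Λ) ≤ B.sq c / (2 * A.len) :=
        div_le_div_of_nonneg_left (B.sq_nonneg hc) (by positivity) (by linarith [hc'.1])
      have h5 := mul_le_mul_of_nonneg_left h4 (mul_pos hP q0).le
      have h6 : B.sq c / (2 * (A.len / 2)) = 2 * (B.sq c / (2 * A.len)) := by field_simp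
      rw [← w.2.2.1]
      generalize (∑ S, ν S * (if ind S s = ind S t then |P * q * aa c B S / A.len|
            else (P * q * aa c B S / A.len) ^ 2 / (θ S * 2 ^ j))) = Z at h1 ⊢
      simp only [Bd, ett, esq, len, ← w.2.2.1, add_div, mul_div_assoc, h6, Nat.succ_sub_one,
        Nat.succ_eq_add_one]
      linarith
  | @ear s t A Y iA iY =>
    intro Λ P j θ hθ hL hP
    have lA := w.1.len_pos
    have hL' : A.len ≤ 2 * Λ := hL
    have kA := A.cap_pos hc
    have kB := Y.cap_pos hc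
    obtain ⟨p, hp⟩ : ∃ p, p = A.cap c / (A.cap c + Y.cap c) := ⟨_, rfl⟩
    have p0 : 0 < p := by rw [hp]; positivity
    have p1 : p ≤ 1 := by rw [hp, div_le_one (by positivity)]; linarith
    have esq : (ear A Y).sq c = p * A.sq c + (1 - p) * A.len ^ 2 := by
      rw [Net.sq, hp]
      field_simp
      ring
    have ett : (ear A Y).tt c Λ j = p * A.tt c Λ j := by
      rw [tt, hp]
      field_simp
    refine (iA w0.1 w.1 Λ (P * p) j θ hθ hL' (mul_pos hP p0)).mono
      (fun g hg => ⟨fun y hy => hg.1 y (fun e => hy (by simp [inn, e])), hg.2,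
        w.2.1.lip_zero fun y hy => hg.1 y (not_inn w0.1 w0.2.2.symm hy)⟩) ?_
    have h1 : ∑ S, ν S * QQ c A Λ (P * p) (θ S * 2 ^ j) S ≤
        ∑ S, ν S * QQ c (ear A Y) Λ P (θ S * 2 ^ j) S :=
      sum_le_sum fun S _ => mul_le_mul_of_nonneg_left
        (QQ_ear hc hp hP.le (by have := hθ S; positivity) S) (hν S)
    have h3 : A.len ^ 2 / (2 * Λ) ≤ A.len := by
      rw [div_le_iff₀ (by linarith)]
      nlinarith
    have h4 := mul_le_mul_of_nonneg_left h3 (mul_nonneg hP.le (sub_nonneg.2 p1))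
    simp only [Bd, ett, esq, len, add_div, mul_div_assoc]
    linarith

end Strand

end Pool.Agent.Lib.MP_b76e55_an.Sp
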