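import Pool.Agent.Lib.MP_b76e55_an.Sp.Strand
import Pool.Agent.Lib.MP_b76e55_an.Sp.KT
import Pool.Agent.Lib.MP_b76e55_an.Sp.Main

/-!
A system of cuts with distortion `D` bounds the potential of every subnetwork by `36 D` times its
length; assembly of the linear bound.
-/

namespace Pool.Agent.Lib.MP_b76e55_an.Sp

open Finset Net

namespace Strand

variable {M : Type} {s t : M} {c : M × M → ℝ}

theorem tt_eq (N : Net M s t) : ∃ j₀ : ℕ, ∀ j, j₀ ≤ j → ∀ Λ, N.tt c Λ j = N.kk c Λ := by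
  induction N with
  | edge a b l => exact ⟨0, fun _ _ _ => rfl⟩
  | ser A B iA iB =>
    obtain ⟨a, ha⟩ := iA
    obtain ⟨b, hb⟩ := iB
    exact ⟨a + b, fun j hj Λ => by rw [tt, kk, ha j (by omega), hb j (by omega)]⟩
  | par A B iA iB =>
    obtain ⟨a, ha⟩ := iA
    obtain ⟨b, hb⟩ := iB
    refine ⟨a + b + 1, fun j hj Λ => ?_⟩
    have h0 : j ≠ 0 := by omega
    rw [tt, kk, ha j (by omega), hb j (by omega), hb (j - 1) (by omega)]
    simp only [ne_eq, h0, not_false_eq_true, and_true]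
  | ear A B iA iB =>
    obtain ⟨a, ha⟩ := iA
    exact ⟨a, fun j hj Λ => by rw [tt, kk, ha j hj]⟩

variable [MetricSpace M] [Fintype M] [DecidableEq M] {ν : Finset M → ℝ} {D : ℝ}

theorem tt_le (h : HeightStmt) (hc : ∀ e, 0 < c e) (hν : Cuts ν D) (hD : 1 ≤ D) {N : Net M s t}
    (w0 : N.Wf0) (w : N.Wf1 c) (hE : N.Ext) (j : ℕ) : N.tt c N.len j ≤ 36 * D * N.len := by
  have L0 := w.len_pos
  have s0 : 0 ≤ ∑ S, ν S := sum_nonneg fun S _ => hν.nonneg S
  obtain ⟨ε, e0, e1⟩ : ∃ ε : ℝ, 0 < ε ∧ ε * ∑ S, ν S ≤ N.len :=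
    ⟨N.len / (∑ S, ν S + 1), by positivity, by
      rw [div_mul_eq_mul_div, div_le_iff₀ (by positivity)]
      nlinarith⟩
  have n0 := hν.nonneg
  obtain ⟨θ, hθ⟩ : ∃ θ : Finset M → ℝ,
      ∀ S, θ S = (if ind S s = ind S t then 4 * ε else 4) / 2 ^ j := ⟨_, fun _ => rfl⟩
  have θ0 : ∀ S, 0 < θ S := fun S => by
    rw [hθ]
    split_ifs <;> positivity
  have θ1 : ∀ S, θ S * 2 ^ j = if ind S s = ind S t then 4 * ε else 4 := fun S => by
    rw [hθ]
    field_simp
  obtain ⟨μ, g, σ, h1, h2, h4⟩ := main hc h n0 N w0 w N.len 1 j θ θ0 (by linarith) one_pos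
  have h5 := KT.chi_sum hc hν (by linarith) w
  have h6 : ∀ l ∈ range j, val ν (fun S => θ S * 2 ^ l) (μ l) (g l) (σ l) ≤
      ∑ S, ν S * (θ S * 2 ^ l / 4) := fun l _ => by
    unfold val
    rw [sub_le_iff_le_add, ← sum_add_distrib]
    refine (hν.lower _ (h1 l) _ (hE _ (h2 l).1 (h2 l).2)).trans (sum_le_sum fun S _ => ?_)
    rw [← mul_add]
    refine mul_le_mul_of_nonneg_left ?_ (n0 S)
    have b1 := abs_le_sq (x := σ l S) (τ := θ S * 2 ^ l) (by have := θ0 S; positivity)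
    have b2 := abs_add_le (∑ x ∈ S, μ l x - σ l S) (σ l S)
    rw [sub_add_cancel] at b2
    linarith
  have h7 := sum_le_sum h6
  rw [sum_comm] at h7
  have h8 : ∑ S, ν S * QQ c N N.len 1 (θ S * 2 ^ j) S + ∑ S, ∑ l ∈ range j, ν S * (θ S * 2 ^ l / 4) ≤
      2 * ∑ S, ν S * N.chi c S + ε * ∑ S, ν S := by
    rw [mul_sum, mul_sum, ← sum_add_distrib, ← sum_add_distrib]
    refine sum_le_sum fun S _ => ?_
    rw [← mul_sum, ← sum_div, ← mul_sum]
    have b1 := mul_le_mul_of_nonneg_left (geom j) (θ0 S).le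
    have b2 : QQ c N N.len 1 (θ S * 2 ^ j) S + θ S * 2 ^ j / 4 ≤ 2 * N.chi c S + ε := by
      rw [θ1]
      unfold QQ
      split_ifs
      · linarith [abs_nonneg (1 * Test.aa c N S / N.len)]
      · norm_num
        linarith
    have b3 := mul_le_mul_of_nonneg_left (show QQ c N N.len 1 (θ S * 2 ^ j) S +
      (θ S * ∑ l ∈ range j, 2 ^ l) / 4 ≤ 2 * N.chi c S + ε by linarith) (n0 S)
    linarith
  have a1 : 0 ≤ N.sq c / (2 * N.len) := div_nonneg (N.sq_nonneg hc) (by positivity)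
  have a2 := mul_le_mul_of_nonneg_right hD L0.le
  unfold Bd at h4
  linarith

theorem good (h : HeightStmt) (hc : ∀ e, 0 < c e) (hν : Cuts ν D) (hD : 1 ≤ D) {N : Net M s t}
    (w0 : N.Wf0) (w : N.Wf1 c) (hE : N.Ext) : N.Good c (36 * D) := by
  induction N with
  | edge a b l => trivial
  | ser A B iA iB => exact ⟨iA w0.1 w.1 (hE.ser w0 w).1, iB w0.2.1 w.2 (hE.ser w0 w).2⟩
  | ear A B iA iB => exact ⟨iA w0.1 w.1 (hE.ear w0 w).1, iB w0.2.1 w.2.1 (hE.ear w0 w).2⟩
  | par A B iA iB =>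
    obtain ⟨j, hj⟩ := tt_eq (c := c) (par A B)
    have h1 := tt_le h hc hν hD w0 w hE j
    rw [hj j le_rfl, len] at h1
    exact ⟨iA w0.1 w.1 (hE.par w0 w).1, iB w0.2.1 w.2.1 (hE.par w0 w).2, h1⟩

end Strand

variable {M : Type}

theorem main_linear (hS : StructStmt) (hM : MinimaxStmt) (hN : NormStmt) (hU : UpperStmt)
    (hH : HeightStmt) [Fintype M] [DecidableEq M] [MetricSpace M] [Nontrivial M]
    (G : SimpleGraph M) (ℓ : Sym2 M → ℝ) (h4 : ¬ K4 G)
    (hd : ∀ x y, IsLeast (Set.range fun p : G.Walk x y => (p.edges.map ℓ).sum) (dist x y))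
    {ν : Finset M → ℝ} {D : ℝ} (hν : Cuts ν D) (hD : 1 ≤ D) :
    ∃ (k : ℕ) (w : Fin k → ℝ) (t : Fin k → M → M → ℝ), (∀ i, 0 ≤ w i) ∧ ∑ i, w i = 1 ∧
      (∀ i, IsTree univ (t i)) ∧ ∀ x y, ∑ i, w i * t i x y ≤ 2400 * D * dist x y := by
  have he : ∀ x y, G.Adj x y → dist x y ≤ ℓ s(x, y) := fun x y a => by
    simpa using (hd x y).2 ⟨a.toWalk, rfl⟩
  have key : ∀ (K : ℝ) (φ : M → M → ℝ), 0 ≤ K → (∀ x, φ x x ≤ 0) →
      (∀ x y z, φ x z ≤ φ x y + φ y z) → (∀ x y, G.Adj x y → φ x y ≤ K * dist x y) →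
      ∀ x y, φ x y ≤ K * dist x y := fun K φ hK h0 ht h x y => by
    obtain ⟨p, hp⟩ := (hd x y).1
    have := walk_le (fun e => K * ℓ e) φ h0 ht
      (fun x y a => (h x y a).trans (mul_le_mul_of_nonneg_left (he x y a) hK)) p
    rwa [List.sum_map_mul_left, show (p.edges.map ℓ).sum = _ from hp] at this
  obtain ⟨s, t, N, w0, hv, hE⟩ := hS M G h4
  set K : ℝ := 1200 * D with hK
  have K0 : 0 < K := by positivity
  obtain ⟨k, w, σ, w1, w2, w3⟩ := hM {ρ : M → M → ℝ // IsTree univ ρ} (M × M)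
    (fun ρ e => N.ends.count e * ρ.1 e.1 e.2)
    (fun e => if e ∈ N.ends then N.ends.count e * (K * dist e.1 e.2) else 1)
    (fun ρ e => mul_nonneg (by positivity)
      (dist_nonneg.trans (ρ.2.dom _ (mem_univ _) _ (mem_univ _))))
    (fun e => by
      split_ifs with h
      · have := dist_pos.2 (w0.ends_ne h)
        have := Multiset.count_pos.2 h
        positivity
      · exact one_pos)
    (fun c hc => by
      obtain ⟨N', v0, v1, e1, e2⟩ := hN M c s t N w0
      have hx : N'.Ext := fun g _ gl x y => by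
        simpa using key 1 (fun x y => g x - g y) zero_le_one (by simp) (fun _ _ _ => by linarith)
          (fun x y a => by
            rcases hE x y a with h | h
            · simpa using (abs_le.1 (gl.ends v1 (e2 ▸ h))).2
            · have := (abs_le.1 (gl.ends v1 (e2 ▸ h))).1
              rw [dist_comm] at this
              linarith) x y
      obtain ⟨ρ, r1, r2⟩ := hU M c _ s t N' hc (by positivity) v0 v1
        (Strand.good hH hc hν hD v0 v1 hx)
      rw [verts, e1, ← verts, hv] at r1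
      refine ⟨⟨ρ, r1⟩, ?_⟩
      rw [cost_eq, cost_eq, e2, mul_sum] at r2
      refine r2.trans (sum_le_sum fun e _ => ?_)
      have := (hc e).le
      have hr2 : 10 + 32 * (36 * D) ≤ K := by linarith
      split_ifs with h
      · calc _ ≤ K * (c e * (N.ends.count e * dist e.1 e.2)) := by gcongr
          _ = _ := by ring
      · simpa [Multiset.count_eq_zero.2 h] using this)
  have hl : ∀ e ∈ N.ends, ∑ i, w i * (σ i).1 e.1 e.2 ≤ 2 * K * dist e.1 e.2 := fun e h => by
    have := w3 e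
    have c0 : (0 : ℝ) < N.ends.count e := by exact_mod_cast Multiset.count_pos.2 h
    simp only [if_pos h, mul_left_comm (w _), ← mul_sum] at this
    refine le_of_mul_le_mul_left ?_ c0
    linarith
  refine ⟨k, w, fun i => (σ i).1, w1, w2, fun i => (σ i).2, fun x y => ?_⟩
  rw [show 2400 * D = 2 * K by ring]
  refine key (2 * K) (fun x y => ∑ i, w i * (σ i).1 x y) (by positivity)
    (fun x => by simp [(σ _).2.zero x (mem_univ _)]) (fun x y z => ?_) (fun x y a => ?_) x y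
  · rw [← sum_add_distrib]
    refine sum_le_sum fun i _ => ?_
    have := (σ i).2.four x (mem_univ _) z (mem_univ _) y (mem_univ _) y (mem_univ _)
    rw [max_self, (σ i).2.zero y (mem_univ _), (σ i).2.symm z (mem_univ _) y (mem_univ _)] at this
    nlinarith [w1 i]
  · rcases hE x y a with h | h
    · exact hl _ h
    · simp only [fun i => (σ i).2.symm x (mem_univ _) y (mem_univ _), dist_comm x y]
      exact hl _ h

end Pool.Agent.Lib.MP_b76e55_an.Sp
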